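import Mathlib

/-!
Connected sets, `K₅` minors and the structural alternative behind Thomassen's induction.
-/

set_option autoImplicit false

namespace Pool.Agent.P.MP_8972a1_co

variable {V : Type} (G : SimpleGraph V)

/-- Reachability inside a set. -/
def Rch (S : Set V) (a b : V) : Prop :=
  Relation.ReflTransGen (fun p q => p ∈ S ∧ q ∈ S ∧ G.Adj p q) a b

/-- A set inducing a connected (possibly empty) subgraph. -/
def Conn (S : Set V) : Prop := ∀ a ∈ S, ∀ b ∈ S, Rch G S a b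

/-- Two sets joined by an edge. -/
def Touch (S T : Set V) : Prop := ∃ a ∈ S, ∃ b ∈ T, G.Adj a b

/-- `G` has a `K₅` minor. -/
def KFive : Prop := ∃ X : Fin 5 → Set V, (∀ i, Conn G (X i)) ∧
  ∀ i j, i ≠ j → Disjoint (X i) (X j) ∧ Touch G (X i) (X j)

variable {G}

lemma Rch.symm {S : Set V} {a b : V} (h : Rch G S a b) : Rch G S b a := by
  induction h with
  | refl => exact Relation.ReflTransGen.refl
  | tail _ hab ih => exact Relation.ReflTransGen.head ⟨hab.2.1, hab.1, hab.2.2.symm⟩ ih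

lemma Rch.mono {S T : Set V} {a b : V} (h : Rch G S a b) (hST : S ⊆ T) : Rch G T a b := by
  induction h with
  | refl => exact Relation.ReflTransGen.refl
  | tail _ k ih => exact Relation.ReflTransGen.tail ih ⟨hST k.1, hST k.2.1, k.2.2⟩

lemma Rch.trans {S : Set V} {a b c : V} (h : Rch G S a b) (k : Rch G S b c) : Rch G S a c :=
  Relation.ReflTransGen.trans h k

lemma Touch.symm {S T : Set V} (h : Touch G S T) : Touch G T S := by
  obtain ⟨a, ha, b, hb, k⟩ := h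
  exact ⟨b, hb, a, ha, k.symm⟩

lemma conn_root {S : Set V} (a : V) (h : ∀ b ∈ S, Rch G S a b) : Conn G S :=
  fun b hb c hc => (h b hb).symm.trans (h c hc)

lemma conn_single (a : V) : Conn G {a} :=
  conn_root a fun b hb => by rw [hb]; exact Relation.ReflTransGen.refl

lemma Conn.add {S K : Set V} (hK : Conn G K) (h : ∀ s ∈ S, ∃ k ∈ K, G.Adj s k) :
    Conn G (S ∪ K) := by
  have key : ∀ a ∈ S ∪ K, ∃ k ∈ K, Rch G (S ∪ K) a k := by
    rintro a (ha | ha)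
    · obtain ⟨k, hk, e⟩ := h a ha
      exact ⟨k, hk, Relation.ReflTransGen.single ⟨Or.inl ha, Or.inr hk, e⟩⟩
    · exact ⟨a, ha, Relation.ReflTransGen.refl⟩
  intro a ha b hb
  obtain ⟨k, hk, e⟩ := key a ha
  obtain ⟨l, hl, f⟩ := key b hb
  exact (e.trans ((hK k hk l hl).mono Set.subset_union_right)).trans f.symm

/-- The component of `a` in `S`. -/
lemma conn_comp (S : Set V) (a : V) : Conn G {u | u ∈ S ∧ Rch G S a u} := by
  refine conn_root a fun b hb => ?_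
  obtain ⟨-, hb⟩ := hb
  induction hb with
  | refl => exact Relation.ReflTransGen.refl
  | tail h1 h2 ih => exact Relation.ReflTransGen.tail ih ⟨⟨h2.1, h1⟩, ⟨h2.2.1, h1.tail h2⟩, h2.2.2⟩

lemma Conn.split {T : Set V} (h : Conn G T) {x y : V} (hx : x ∈ T) (hy : y ∈ T) (hxy : x ≠ y) :
    ∃ T' ⊆ T, x ∉ T' ∧ y ∈ T' ∧ Conn G T' ∧ ∃ z ∈ T', G.Adj x z := by
  refine ⟨{u | u ∈ T \ {x} ∧ Rch G (T \ {x}) y u}, fun u hu => hu.1.1, fun k => k.1.2 rfl,
    ⟨⟨hy, hxy.symm⟩, Relation.ReflTransGen.refl⟩, conn_comp _ _, ?_⟩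
  by_contra hno
  have all : ∀ u, Rch G T y u → u ∈ T \ {x} ∧ Rch G (T \ {x}) y u := by
    intro u hu
    induction hu with
    | refl => exact ⟨⟨hy, hxy.symm⟩, Relation.ReflTransGen.refl⟩
    | @tail b c _ h2 ih =>
      have hc : c ∈ T \ {x} := ⟨h2.2.1, fun k => hno ⟨b, ih, by
        rw [← (k : c = x)]; exact h2.2.2.symm⟩⟩
      exact ⟨hc, ih.2.tail ⟨ih.1, hc, h2.2.2⟩⟩
  exact (all x (h y hy x hx)).1.2 rfl

lemma conn_arc (p : ℕ → V) (a b : ℕ) (h : ∀ i, a ≤ i → i < b → G.Adj (p i) (p (i + 1))) :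
    Conn G (p '' Set.Icc a b) := by
  refine conn_root (p a) ?_
  rintro _ ⟨i, ⟨h1, h2⟩, rfl⟩
  induction i, h1 using Nat.le_induction with
  | base => exact Relation.ReflTransGen.refl
  | succ n hn ih =>
    exact Relation.ReflTransGen.tail (ih (by omega))
      ⟨⟨n, ⟨hn, by omega⟩, rfl⟩, ⟨n + 1, ⟨by omega, h2⟩, rfl⟩, h n hn (by omega)⟩

lemma kfive_of (A B C D E : Set V) (a : Conn G A) (b : Conn G B) (c : Conn G C) (d : Conn G D)
    (e : Conn G E) (ab : Disjoint A B ∧ Touch G A B) (ac : Disjoint A C ∧ Touch G A C)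
    (ad : Disjoint A D ∧ Touch G A D) (ae : Disjoint A E ∧ Touch G A E)
    (bc : Disjoint B C ∧ Touch G B C) (bd : Disjoint B D ∧ Touch G B D)
    (be : Disjoint B E ∧ Touch G B E) (cd : Disjoint C D ∧ Touch G C D)
    (ce : Disjoint C E ∧ Touch G C E) (de : Disjoint D E ∧ Touch G D E) : KFive G := by
  have sy : ∀ {S T : Set V}, Disjoint S T ∧ Touch G S T → Disjoint T S ∧ Touch G T S :=
    fun h => ⟨h.1.symm, h.2.symm⟩
  refine ⟨![A, B, C, D, E], fun i => ?_, fun i j hij => ?_⟩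
  · fin_cases i <;> assumption
  · fin_cases i <;> fin_cases j <;>
      first | exact (hij rfl).elim | assumption | (apply sy; assumption)

lemma exists_max_path (D : Finset V) (s : V) (hs : s ∈ D) :
    ∃ (m : ℕ) (p : ℕ → V), p 0 = s ∧ (∀ i ≤ m, p i ∈ D) ∧
      (∀ i ≤ m, ∀ j ≤ m, p i = p j → i = j) ∧ (∀ i < m, G.Adj (p i) (p (i + 1))) ∧
      ∀ v ∈ D, G.Adj (p m) v → ∃ i ≤ m, p i = v := by
  classical
  let Q : ℕ → Prop := fun m => ∃ p : ℕ → V, p 0 = s ∧ (∀ i ≤ m, p i ∈ D) ∧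
      (∀ i ≤ m, ∀ j ≤ m, p i = p j → i = j) ∧ (∀ i < m, G.Adj (p i) (p (i + 1)))
  have h0 : Q 0 := ⟨fun _ => s, rfl, fun _ _ => hs, fun i hi j hj _ => by omega,
    fun i hi => by omega⟩
  have hb : ∀ m, Q m → m ≤ D.card := by
    rintro m ⟨p, -, h1, h2, -⟩
    have := Finset.card_le_card_of_injOn (s := Finset.range (m + 1)) (t := D) p
      (fun i hi => h1 i (by simpa [Nat.lt_succ_iff] using hi))
      (fun i hi j hj => h2 i (by simpa [Nat.lt_succ_iff] using hi) j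
        (by simpa [Nat.lt_succ_iff] using hj))
    rw [Finset.card_range] at this
    omega
  obtain ⟨p, k0, k1, k2, k3⟩ : Q (Nat.findGreatest Q D.card) :=
    Nat.findGreatest_spec (Nat.zero_le _) h0
  set m := Nat.findGreatest Q D.card with hm
  refine ⟨m, p, k0, k1, k2, k3, fun v hv hadj => ?_⟩
  by_contra hno
  push Not at hno
  have hq : Q (m + 1) := by
    refine ⟨fun i => if i ≤ m then p i else v, by simp [k0], fun i _ => ?_, fun i hi j hj => ?_,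
      fun i hi => ?_⟩
    · by_cases h : i ≤ m
      · simp only [h, if_true]; exact k1 i h
      · simp only [h, if_false]; exact hv
    · by_cases h : i ≤ m <;> by_cases h' : j ≤ m <;> simp only [h, h', if_true, if_false]
      · exact k2 i h j h'
      · exact fun e => (hno i h e).elim
      · exact fun e => (hno j h' e.symm).elim
      · omega
    · have h : i ≤ m := by omega
      by_cases h' : i + 1 ≤ m <;> simp only [h, h', if_true, if_false]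
      · exact k3 i h'
      · have : i = m := by omega
        rw [this]; exact hadj
  exact Nat.findGreatest_is_greatest (Nat.lt_succ_self m) (hb _ hq) hq

/-- The data carried through the induction. -/
structure Bd (G : SimpleGraph V) (U A B : Finset V) (Z Y : Set V) : Prop where
  ab : A ⊆ B
  bu : B ⊆ U
  two : A.card ≤ 2
  zc : Conn G Z
  zu : ∀ u ∈ U, u ∉ Z
  zb : ∀ b ∈ B, ∃ z ∈ Z, G.Adj b z
  yu : ∀ u ∈ U, u ∉ Y
  yz : Disjoint Y Z
  yc : Conn G (↑A ∪ Y)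

theorem struct_alt [DecidableEq V] (hK : ¬ KFive G) {U A B : Finset V} {Z Y : Set V}
    (H : Bd G U A B Z Y) {a0 : V} (ha0 : a0 ∈ A) {s0 : V} (hs0 : s0 ∈ B \ A) :
    (∃ v ∈ B \ A, (∀ w ∈ B \ A, ¬ G.Adj v w) ∨
      ((∃ w ∈ B \ A, ∀ w' ∈ B \ A, G.Adj v w' → w' = w) ∧
        ∀ a ∈ A, ∀ a' ∈ A, G.Adj v a → G.Adj v a' → a = a')) ∨
    ∃ (K S : Finset V) (K' : Set V), A ⊆ K ∧ K ⊆ U ∧ S ⊆ B \ A ∧ (∀ s ∈ S, s ∉ K) ∧
      S.card ≤ 2 ∧ (∃ c ∈ U, c ∉ K ∧ c ∉ S) ∧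
      (∀ u ∈ K, ∀ v ∈ U, G.Adj u v → v ∈ K ∨ v ∈ S) ∧ Conn G (↑S ∪ K') ∧
      (∀ u ∈ U, u ∉ K → u ∉ K') ∧ Disjoint K' Z := by
  classical
  refine or_iff_not_imp_left.2 fun hno => ?_
  push Not at hno
  let P : V → Prop := fun v => ∃ a ∈ A, ∃ a' ∈ A, G.Adj v a ∧ G.Adj v a' ∧ a ≠ a'
  obtain ⟨s, hs, hsP⟩ : ∃ s ∈ B \ A, ∀ v ∈ B \ A, P v → P s := by
    by_cases h : ∃ v ∈ B \ A, P v
    · obtain ⟨v, hv, k⟩ := h
      exact ⟨v, hv, fun _ _ _ => k⟩
    · exact ⟨s0, hs0, fun v hv k => (h ⟨v, hv, k⟩).elim⟩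
  obtain ⟨m, p, p0, pD, pinj, padj, pmax⟩ := exists_max_path (G := G) (B \ A) s hs
  have pB : ∀ i ≤ m, p i ∈ B := fun i hi => (Finset.mem_sdiff.1 (pD i hi)).1
  have pA : ∀ i ≤ m, p i ∉ A := fun i hi => (Finset.mem_sdiff.1 (pD i hi)).2
  have arcZ : ∀ a b, a ≤ b → b ≤ m →
      Disjoint Z (p '' Set.Icc a b) ∧ Touch G Z (p '' Set.Icc a b) := by
    intro a b h1 h2
    refine ⟨Set.disjoint_right.2 ?_, ?_⟩
    · rintro _ ⟨i, hi, rfl⟩
      exact H.zu _ (H.bu (pB i (hi.2.trans h2)))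
    · obtain ⟨z, hz, e⟩ := H.zb _ (pB a (h1.trans h2))
      exact ⟨z, hz, _, ⟨a, ⟨le_rfl, h1⟩, rfl⟩, e.symm⟩
  have arcD : ∀ a b c d, b < c → d ≤ m → c ≤ d →
      Disjoint (p '' Set.Icc a b) (p '' Set.Icc c d) := by
    intro a b c d h1 h2 h3
    refine Set.disjoint_left.2 ?_
    rintro _ ⟨i, hi, rfl⟩ ⟨j, hj, e⟩
    have := pinj j (hj.2.trans h2) i (by have := hi.2; omega) e
    have := hi.2
    have := hj.1
    omega
  have arcC : ∀ a b, b ≤ m → Conn G (p '' Set.Icc a b) :=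
    fun a b h => conn_arc p a b fun i _ hi => padj i (by omega)
  have arcT : ∀ a c d, a < c → c ≤ d → d ≤ m →
      Touch G (p '' Set.Icc a (c - 1)) (p '' Set.Icc c d) := by
    intro a c d h1 h2 h3
    refine ⟨_, ⟨c - 1, ⟨by omega, le_rfl⟩, rfl⟩, _, ⟨c, ⟨le_rfl, h2⟩, rfl⟩, ?_⟩
    have := padj (c - 1) (by omega)
    rwa [show c - 1 + 1 = c by omega] at this
  have hm : 1 ≤ m := by
    obtain ⟨w, hw, e⟩ := (hno _ (pD m le_rfl)).1
    obtain ⟨i, hi, rfl⟩ := pmax w hw e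
    by_contra h
    have : i = m := by omega
    rw [this] at e
    exact e.ne rfl
  by_cases hP : P (p m)
  · exfalso
    obtain ⟨x, hx, y, hy, ex, ey, hxy⟩ := hsP _ (pD m le_rfl) hP
    have hA : ∀ a ∈ A, a = x ∨ a = y := by
      intro a ha
      by_contra h
      push Not at h
      have := Finset.two_lt_card.2 ⟨a, ha, x, hx, y, hy, h.1, h.2, hxy⟩
      have := H.two
      omega
    have hm2 : G.Adj (p m) x ∧ G.Adj (p m) y := by
      obtain ⟨a, ha, a', ha', e, e', hne⟩ := hP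
      rcases hA a ha with rfl | rfl <;> rcases hA a' ha' with rfl | rfl
      · exact (hne rfl).elim
      · exact ⟨e, e'⟩
      · exact ⟨e', e⟩
      · exact (hne rfl).elim
    obtain ⟨T, hT, xT, yT, cT, z, hz, ez⟩ := H.yc.split (x := x) (y := y) (Or.inl hx) (Or.inl hy) hxy
    have arcY : ∀ a b, b ≤ m → Disjoint T (p '' Set.Icc a b) := by
      intro a b h2
      refine Set.disjoint_right.2 ?_
      rintro _ ⟨i, hi, rfl⟩ k
      rcases hT k with k | k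
      · exact pA i (hi.2.trans h2) k
      · exact H.yu _ (H.bu (pB i (hi.2.trans h2))) k
    have arcX : ∀ a b, b ≤ m → Disjoint {x} (p '' Set.Icc a b) := by
      intro a b h2
      refine Set.disjoint_singleton_left.2 ?_
      rintro ⟨i, hi, e⟩
      exact pA i (hi.2.trans h2) (e ▸ hx)
    rw [← p0] at ex ey
    refine hK (kfive_of Z {x} T (p '' Set.Icc 0 0) (p '' Set.Icc 1 m) H.zc (conn_single x) cT
      (arcC _ _ (Nat.zero_le _)) (arcC _ _ le_rfl) ⟨?_, ?_⟩ ⟨?_, ?_⟩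
      (arcZ _ _ le_rfl (Nat.zero_le _)) (arcZ _ _ hm le_rfl)
      ⟨Set.disjoint_singleton_left.2 xT, x, rfl, z, hz, ez⟩
      ⟨arcX _ _ (Nat.zero_le _), x, rfl, _, ⟨0, ⟨le_rfl, le_rfl⟩, rfl⟩, ex.symm⟩
      ⟨arcX _ _ le_rfl, x, rfl, _, ⟨m, ⟨hm, le_rfl⟩, rfl⟩, hm2.1.symm⟩
      ⟨arcY _ _ (Nat.zero_le _), y, yT, _, ⟨0, ⟨le_rfl, le_rfl⟩, rfl⟩, ey.symm⟩
      ⟨arcY _ _ le_rfl, y, yT, _, ⟨m, ⟨hm, le_rfl⟩, rfl⟩, hm2.2.symm⟩
      ⟨arcD _ _ _ _ one_pos le_rfl hm, arcT 0 1 m one_pos hm le_rfl⟩)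
    · exact Set.disjoint_singleton_right.2 (H.zu _ (H.bu (H.ab hx)))
    · obtain ⟨u, hu, e⟩ := H.zb _ (H.ab hx)
      exact ⟨u, hu, x, rfl, e.symm⟩
    · refine Set.disjoint_right.2 fun u hu => ?_
      rcases hT hu with k | k
      · exact H.zu _ (H.bu (H.ab k))
      · exact Set.disjoint_left.1 H.yz k
    · obtain ⟨u, hu, e⟩ := H.zb _ (H.ab hy)
      exact ⟨u, hu, y, yT, e.symm⟩
  obtain ⟨j, hj, ej⟩ : ∃ j, j + 2 ≤ m ∧ G.Adj (p m) (p j) := by
    by_contra h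
    push Not at h
    refine hP ((hno _ (pD m le_rfl)).2 ⟨p (m - 1), pD _ (by omega), fun w hw e => ?_⟩)
    obtain ⟨i, hi, rfl⟩ := pmax w hw e
    have h1 : i ≠ m := fun k => e.ne (by rw [k])
    have h2 : ¬ i + 2 ≤ m := fun k => h i k e
    rw [show i = m - 1 by omega]
  let C : Set V := p '' Set.Icc j m
  let R : Set V := {u | (u ∈ U ∧ u ∉ C) ∨ u ∈ Y}
  let K' : Set V := {u | u ∈ R ∧ Rch G R a0 u}
  have hAR : (↑A ∪ Y : Set V) ⊆ R := by
    rintro u (hu | hu)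
    · refine Or.inl ⟨H.bu (H.ab hu), ?_⟩
      rintro ⟨i, hi, rfl⟩
      exact pA i hi.2 hu
    · exact Or.inr hu
  have hAK : ∀ a ∈ A, a ∈ K' := fun a ha =>
    ⟨hAR (Or.inl ha), (H.yc a0 (Or.inl ha0) a (Or.inl ha)).mono hAR⟩
  have hKC : ∀ i, j ≤ i → i ≤ m → p i ∉ K' := by
    rintro i h1 h2 ⟨k | k, -⟩
    · exact k.2 ⟨i, ⟨h1, h2⟩, rfl⟩
    · exact H.yu _ (H.bu (pB i h2)) k
  have hKZ : Disjoint K' Z := by
    refine Set.disjoint_left.2 ?_
    rintro u ⟨k | k, -⟩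
    · exact H.zu _ k.1
    · exact Set.disjoint_left.1 H.yz k
  let I : Finset ℕ := (Finset.Icc j m).filter fun i => ∃ k ∈ K', G.Adj (p i) k
  have hI : I.card ≤ 2 := by
    by_contra h
    have arcK : ∀ a b i, j ≤ a → b ≤ m → a ≤ i → i ≤ b → i ∈ I →
        Disjoint K' (p '' Set.Icc a b) ∧ Touch G K' (p '' Set.Icc a b) := by
      intro a b i h1 h2 h3 h4 hi
      refine ⟨Set.disjoint_right.2 ?_, ?_⟩
      · rintro _ ⟨l, hl, rfl⟩
        exact hKC l (h1.trans hl.1) (hl.2.trans h2)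
      · obtain ⟨k, hk, e⟩ := (Finset.mem_filter.1 hi).2
        exact ⟨k, hk, _, ⟨i, ⟨h3, h4⟩, rfl⟩, e.symm⟩
    have key : ∀ a ∈ I, ∀ b ∈ I, ∀ c ∈ I, a < b → b < c → False := by
      intro a ha b hb c hc h1 h2
      have h3 := (Finset.mem_Icc.1 (Finset.mem_filter.1 ha).1).1
      have h4 := (Finset.mem_Icc.1 (Finset.mem_filter.1 hc).1).2
      obtain ⟨u, hu, e⟩ := H.zb _ (H.ab ha0)
      exact hK (kfive_of Z K' (p '' Set.Icc j (b - 1)) (p '' Set.Icc b (c - 1))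
        (p '' Set.Icc c m) H.zc (conn_comp _ _) (arcC _ _ (by omega)) (arcC _ _ (by omega))
        (arcC _ _ le_rfl) ⟨hKZ.symm, u, hu, a0, hAK _ ha0, e.symm⟩
        (arcZ _ _ (by omega) (by omega)) (arcZ _ _ (by omega) (by omega)) (arcZ _ _ h4 le_rfl)
        (arcK _ _ a le_rfl (by omega) h3 (by omega) ha)
        (arcK _ _ b (by omega) (by omega) le_rfl (by omega) hb)
        (arcK _ _ c (by omega) le_rfl le_rfl h4 hc)
        ⟨arcD _ _ _ _ (by omega) (by omega) (by omega), arcT _ _ _ (by omega) (by omega) (by omega)⟩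
        ⟨arcD _ _ _ _ (by omega) le_rfl h4, _, ⟨j, ⟨le_rfl, by omega⟩, rfl⟩, _,
          ⟨m, ⟨h4, le_rfl⟩, rfl⟩, ej.symm⟩
        ⟨arcD _ _ _ _ (by omega) le_rfl h4, arcT _ _ _ h2 h4 le_rfl⟩)
    obtain ⟨a, ha, b, hb, c, hc, h1, h2, h3⟩ := Finset.two_lt_card.1 (not_le.1 h)
    rcases (by omega : (a < b ∧ b < c) ∨ (a < c ∧ c < b) ∨ (b < a ∧ a < c) ∨ (b < c ∧ c < a) ∨
      (c < a ∧ a < b) ∨ (c < b ∧ b < a)) with k | k | k | k | k | k
    · exact key _ ha _ hb _ hc k.1 k.2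
    · exact key _ ha _ hc _ hb k.1 k.2
    · exact key _ hb _ ha _ hc k.1 k.2
    · exact key _ hb _ hc _ ha k.1 k.2
    · exact key _ hc _ ha _ hb k.1 k.2
    · exact key _ hc _ hb _ ha k.1 k.2
  have hIm : ∀ i ∈ I, j ≤ i ∧ i ≤ m := fun i hi => Finset.mem_Icc.1 (Finset.mem_filter.1 hi).1
  refine ⟨U.filter (· ∈ K'), I.image p, K', fun a ha => ?_, Finset.filter_subset _ _,
    fun u hu => ?_, fun u hu k => ?_, Finset.card_image_le.trans hI, ?_, fun u hu v hv e => ?_,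
    (conn_comp _ _).add fun u hu => ?_, fun u hu k k' => k (Finset.mem_filter.2 ⟨hu, k'⟩), hKZ⟩
  · exact Finset.mem_filter.2 ⟨H.bu (H.ab ha), hAK a ha⟩
  · obtain ⟨i, hi, rfl⟩ := Finset.mem_image.1 hu
    exact pD i (hIm i hi).2
  · obtain ⟨i, hi, rfl⟩ := Finset.mem_image.1 hu
    exact hKC i (hIm i hi).1 (hIm i hi).2 (Finset.mem_filter.1 k).2
  · have : I.card < (Finset.Icc j m).card := by
      rw [Nat.card_Icc]; omega
    obtain ⟨i, hi, hi'⟩ := Finset.exists_mem_notMem_of_card_lt_card this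
    rw [Finset.mem_Icc] at hi
    refine ⟨p i, H.bu (pB i hi.2), fun k => hKC i hi.1 hi.2 (Finset.mem_filter.1 k).2, fun k => ?_⟩
    obtain ⟨l, hl, e⟩ := Finset.mem_image.1 k
    exact hi' (pinj l (hIm l hl).2 i hi.2 e ▸ hl)
  · have hu' := (Finset.mem_filter.1 hu).2
    by_cases hc : v ∈ C
    · obtain ⟨i, hi, rfl⟩ := hc
      exact Or.inr (Finset.mem_image_of_mem _
        (Finset.mem_filter.2 ⟨Finset.mem_Icc.2 hi, u, hu', e.symm⟩))
    · exact Or.inl (Finset.mem_filter.2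
        ⟨hv, Or.inl ⟨hv, hc⟩, hu'.2.tail ⟨hu'.1, Or.inl ⟨hv, hc⟩, e⟩⟩)
  · obtain ⟨i, hi, rfl⟩ := Finset.mem_image.1 (Finset.mem_coe.1 hu)
    exact (Finset.mem_filter.1 hi).2

end Pool.Agent.P.MP_8972a1_co
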