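import Pool.Agent.P.MP_8972a1_co.Count
import Pool.Agent.P.MP_8972a1_co.Struct

/-!
A graph drawn in the plane has no `K₅` minor.
-/

set_option autoImplicit false

namespace Pool.Agent.P.MP_8972a1_co

open Finset

/-- A topological drawing yields a grid minor model. -/
theorem minor_of_drawing {V E : Type} [Fintype V] [Fintype E] [DecidableEq V] (s t : E → V)
    (hloop : ∀ e, s e ≠ t e)
    (f : V → ℝ × ℝ)
    (hf : Function.Injective f) (c : E → C(unitInterval, ℝ × ℝ))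
    (h0 : ∀ e, c e 0 = f (s e)) (h1 : ∀ e, c e 1 = f (t e))
    (hinj : ∀ e, Function.Injective (c e))
    (hcross : ∀ e e', e ≠ e' → ∀ τ τ', c e τ = c e' τ' →
      (τ = 0 ∨ τ = 1) ∧ (τ' = 0 ∨ τ' = 1)) :
    ∃ (B : V → Finset (ℤ × ℤ)) (p : V → ℤ × ℤ) (ε : E → GE),
      (∀ u v q, q ∈ B u → q ∈ B v → u = v) ∧
      (∀ v, ∀ q ∈ B v,
        Relation.ReflTransGen (fun a b => a ∈ B v ∧ b ∈ B v ∧ gadj a b) (p v) q) ∧
      ∀ e, ((ε e).1 ∈ B (s e) ∧ gtgt (ε e) ∈ B (t e)) ∨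
        ((ε e).1 ∈ B (t e) ∧ gtgt (ε e) ∈ B (s e)) := by
  classical
  obtain ⟨δ, hδ, hsep⟩ := exists_mesh s t f hf c h0 h1 hinj hcross
  let KA : V → Set (ℝ × ℝ) := fun w => {x | ∃ e τ, AtC s t e τ w ∧ x = c e τ}
  let KM : E → Set (ℝ × ℝ) := fun e =>
    {x | ∃ τ : unitInterval, 1 / 3 ≤ (τ : ℝ) ∧ (τ : ℝ) ≤ 2 / 3 ∧ x = c e τ}
  let A : V → Set (ℤ × ℤ) := fun w => near δ (KA w)
  let M : E → Set (ℤ × ℤ) := fun e => near δ (KM e)
  have hsep' : ∀ q e e' τ τ', dist (emb δ q) (c e τ) < δ → dist (emb δ q) (c e' τ') < δ →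
      (e = e' ∧ |(τ : ℝ) - τ'| < 1 / 3) ∨ ∃ w, AtO s t e τ w ∧ AtO s t e' τ' w := by
    intro q e e' τ τ' d1 d2
    apply hsep
    have := dist_triangle_left (c e τ) (c e' τ') (emb δ q)
    linarith
  have hOC : ∀ e τ z u, AtO s t e τ z → AtC s t e τ u → z = u := by
    rintro e τ z u (⟨a, rfl⟩ | ⟨a, rfl⟩) (⟨b, rfl⟩ | ⟨b, rfl⟩)
    · rfl
    · linarith
    · linarith
    · rfl
  have hOM : ∀ e (τ : unitInterval) z, AtO s t e τ z → 1 / 3 ≤ (τ : ℝ) → (τ : ℝ) ≤ 2 / 3 →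
      False := by
    rintro e τ z (⟨a, -⟩ | ⟨a, -⟩) b b' <;> linarith
  have F1 : ∀ q u w, q ∈ A u → q ∈ A w → u = w := by
    rintro q u w ⟨_, ⟨e, τ, a, rfl⟩, d1⟩ ⟨_, ⟨e', τ', a', rfl⟩, d2⟩
    rcases hsep' q e e' τ τ' d1 d2 with ⟨rfl, h⟩ | ⟨z, z1, z2⟩
    · rw [abs_lt] at h
      rcases a with ⟨b, rfl⟩ | ⟨b, rfl⟩ <;> rcases a' with ⟨b', rfl⟩ | ⟨b', rfl⟩
      · rfl
      · linarith [h.1]
      · linarith [h.2]
      · rfl
    · rw [← hOC _ _ _ _ z1 a, ← hOC _ _ _ _ z2 a']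
  have F2 : ∀ q e e', q ∈ M e → q ∈ M e' → e = e' := by
    rintro q e e' ⟨_, ⟨τ, a, b, rfl⟩, d1⟩ ⟨_, ⟨τ', _, _, rfl⟩, d2⟩
    rcases hsep' q e e' τ τ' d1 d2 with ⟨h, -⟩ | ⟨z, z1, -⟩
    · exact h
    · exact (hOM _ _ _ z1 a b).elim
  have F3 : ∀ q e w, q ∈ M e → q ∈ A w → w = s e ∨ w = t e := by
    rintro q e w ⟨_, ⟨τ, a, b, rfl⟩, d1⟩ ⟨_, ⟨e', τ', a', rfl⟩, d2⟩
    rcases hsep' q e e' τ τ' d1 d2 with ⟨rfl, -⟩ | ⟨z, z1, -⟩
    · rcases a' with ⟨-, rfl⟩ | ⟨-, rfl⟩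
      · exact Or.inl rfl
      · exact Or.inr rfl
    · exact (hOM _ _ _ z1 a b).elim
  have F4 : ∀ q e, q ∈ near δ (Set.range (c e)) → q ∈ A (s e) ∨ q ∈ M e ∨ q ∈ A (t e) := by
    rintro q e ⟨_, ⟨τ, rfl⟩, d⟩
    by_cases a : (τ : ℝ) ≤ 1 / 3
    · exact Or.inl ⟨_, ⟨e, τ, Or.inl ⟨a, rfl⟩, rfl⟩, d⟩
    · by_cases b : 2 / 3 ≤ (τ : ℝ)
      · exact Or.inr (Or.inr ⟨_, ⟨e, τ, Or.inr ⟨b, rfl⟩, rfl⟩, d⟩)
      · exact Or.inr (Or.inl ⟨_, ⟨τ, by linarith, by linarith, rfl⟩, d⟩)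
  let S : V → Set (ℤ × ℤ) := fun u =>
    {q | q ∈ A u ∨ ((∀ w, q ∉ A w) ∧ ∃ e, s e = u ∧ q ∈ M e)}
  have hSdisj : ∀ u v q, q ∈ S u → q ∈ S v → u = v := by
    rintro u v q (a | ⟨a, e, rfl, a'⟩) (b | ⟨b, e', rfl, b'⟩)
    · exact F1 q u v a b
    · exact (b _ a).elim
    · exact (a _ b).elim
    · rw [F2 q e e' a' b']
  choose p hp using fun v => exists_near hδ (f v)
  let Bs : V → Set (ℤ × ℤ) := fun v => {q | q ∈ S v ∧
    Relation.ReflTransGen (fun a b => a ∈ S v ∧ b ∈ S v ∧ gadj a b) (p v) q}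
  have hbdd : Bornology.IsBounded (⋃ e, Set.range (c e)) :=
    (isCompact_iUnion fun e => isCompact_range (c e).continuous).isBounded
  have hfin : ∀ v, (Bs v).Finite := by
    intro v
    refine (near_finite hδ hbdd).subset ?_
    rintro q ⟨a | ⟨-, e, -, a⟩, -⟩
    · refine near_mono δ ?_ a
      rintro _ ⟨e, τ, -, rfl⟩
      exact Set.mem_iUnion.2 ⟨e, τ, rfl⟩
    · refine near_mono δ ?_ a
      rintro _ ⟨τ, -, -, rfl⟩
      exact Set.mem_iUnion.2 ⟨e, τ, rfl⟩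
  have hAB : ∀ v q, q ∈ A v → q ∈ Bs v := by
    rintro v q hq
    refine ⟨Or.inl hq, ?_⟩
    obtain ⟨_, ⟨e, τ, a, rfl⟩, d⟩ := hq
    have main : ∀ K : Set (ℝ × ℝ), IsPreconnected K → K ⊆ KA v → f v ∈ K → c e τ ∈ K →
        Relation.ReflTransGen (fun a b => a ∈ S v ∧ b ∈ S v ∧ gadj a b) (p v) q := by
      intro K hK hsub m1 m2
      have hr := near_conn hδ hK (a := p v) (b := q) ⟨_, m1, hp v⟩ ⟨_, m2, d⟩
      clear d
      induction hr with
      | refl => exact Relation.ReflTransGen.refl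
      | tail _ hab ih =>
        obtain ⟨ha, hb, hab⟩ := hab
        exact ih.tail ⟨Or.inl (near_mono δ hsub ha), Or.inl (near_mono δ hsub hb), hab⟩
    rcases a with ⟨b, rfl⟩ | ⟨b, rfl⟩
    · refine main (c e '' {τ : unitInterval | (τ : ℝ) ≤ 1 / 3})
        ((pre_le _).image _ (c e).continuous.continuousOn) ?_
        ⟨0, by simp, h0 e⟩ ⟨τ, b, rfl⟩
      rintro _ ⟨τ', b', rfl⟩
      exact ⟨e, τ', Or.inl ⟨b', rfl⟩, rfl⟩
    · refine main (c e '' {τ : unitInterval | 2 / 3 ≤ (τ : ℝ)})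
        ((pre_ge _).image _ (c e).continuous.continuousOn) ?_
        ⟨1, by simp only [Set.mem_ofPred_eq, Set.Icc.coe_one]; norm_num, h1 e⟩ ⟨τ, b, rfl⟩
      rintro _ ⟨τ', b', rfl⟩
      exact ⟨e, τ', Or.inr ⟨b', rfl⟩, rfl⟩
  have hε : ∀ e, ∃ d : GE, (d.1 ∈ Bs (s e) ∧ gtgt d ∈ Bs (t e)) ∨
      (d.1 ∈ Bs (t e) ∧ gtgt d ∈ Bs (s e)) := by
    intro e
    by_contra hno
    have ps : p (s e) ∈ A (s e) :=
      ⟨_, ⟨e, 0, Or.inl ⟨by simp, rfl⟩, (h0 e).symm⟩, hp _⟩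
    have pt : p (t e) ∈ A (t e) :=
      ⟨_, ⟨e, 1, Or.inr ⟨by simp only [Set.Icc.coe_one]; norm_num, rfl⟩, (h1 e).symm⟩, hp _⟩
    have hreach := near_conn hδ (isPreconnected_range (c e).continuous)
      (a := p (s e)) (b := p (t e)) ⟨_, ⟨0, h0 e⟩, hp _⟩ ⟨_, ⟨1, h1 e⟩, hp _⟩
    have all : ∀ q, Relation.ReflTransGen (fun a b => a ∈ near δ (Set.range (c e)) ∧
        b ∈ near δ (Set.range (c e)) ∧ gadj a b) (p (s e)) q → q ∈ Bs (s e) := by
      intro q hq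
      induction hq with
      | refl => exact hAB _ _ ps
      | @tail a b _ hab ih =>
        obtain ⟨-, hb, hab⟩ := hab
        by_cases hbt : b ∈ A (t e)
        · exfalso
          apply hno
          obtain ⟨d, ⟨rfl, rfl⟩ | ⟨rfl, rfl⟩⟩ := hab
          · exact ⟨d, Or.inl ⟨ih, hAB _ _ hbt⟩⟩
          · exact ⟨d, Or.inr ⟨hAB _ _ hbt, ih⟩⟩
        · have hbS : b ∈ S (s e) := by
            by_cases hbs : b ∈ A (s e)
            · exact Or.inl hbs
            · rcases F4 b e hb with h | h | h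
              · exact (hbs h).elim
              · refine Or.inr ⟨fun w hw => ?_, e, rfl, h⟩
                rcases F3 b e w h hw with rfl | rfl
                · exact hbs hw
                · exact hbt hw
              · exact (hbt h).elim
          exact ⟨hbS, ih.2.tail ⟨ih.1, hbS, hab⟩⟩
    exact hloop e (hSdisj _ _ _ (all _ hreach).1 (Or.inl pt))
  choose ε hε using hε
  refine ⟨fun v => (hfin v).toFinset, p, ε, ?_, ?_, ?_⟩
  · intro u v q hu hv
    rw [Set.Finite.mem_toFinset] at hu hv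
    exact hSdisj u v q hu.1 hv.1
  · intro v q hq
    rw [Set.Finite.mem_toFinset] at hq
    obtain ⟨-, hq⟩ := hq
    induction hq with
    | refl => exact Relation.ReflTransGen.refl
    | @tail a b ha hab ih =>
      refine ih.tail ⟨?_, ?_, hab.2.2⟩
      · rw [Set.Finite.mem_toFinset]
        exact ⟨hab.1, ha⟩
      · rw [Set.Finite.mem_toFinset]
        exact ⟨hab.2.1, ha.tail hab⟩
  · intro e
    simpa only [Set.Finite.mem_toFinset] using hε e

theorem count_of_dual' {V E : Type} [Fintype V] [Nonempty V] [Fintype E] [DecidableEq V]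
    (s t : E → V) {F : Type} (l r : E → F)
    (hdual : ∀ Z : E → ZMod 2, IsCyc s t Z ↔ ∃ S : F → ZMod 2, ∀ e, Z e = S (l e) + S (r e))
    (g : ℕ) (hVE : Fintype.card V ≤ Fintype.card E)
    (hg : ∀ Z : E → ZMod 2, IsCyc s t Z → Z ≠ 0 → g ≤ (univ.filter fun e => Z e ≠ 0).card) :
    g * (Fintype.card E + 2) ≤ 2 * Fintype.card E + g * Fintype.card V := by
  classical
  let z : F → E → ZMod 2 := fun φ e => (if l e = φ then 1 else 0) + (if r e = φ then 1 else 0)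
  have hz : ∀ φ, IsCyc s t (z φ) := fun φ =>
    (hdual _).2 ⟨fun ψ => if ψ = φ then 1 else 0, fun e => rfl⟩
  let Φ : Finset F := (univ.image l ∪ univ.image r).filter fun φ => z φ ≠ 0
  let ext : (Φ → ZMod 2) →ₗ[ZMod 2] (E → ZMod 2) :=
    { toFun := fun S e => (if h : l e ∈ Φ then S ⟨_, h⟩ else 0) +
        (if h : r e ∈ Φ then S ⟨_, h⟩ else 0)
      map_add' := by
        intro a b
        funext e
        simp only [Pi.add_apply]
        split_ifs <;> ring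
      map_smul' := by
        intro a b
        funext e
        simp only [Pi.smul_apply, smul_eq_mul, RingHom.id_apply]
        split_ifs <;> ring }
  have mm : ∀ e, l e ≠ r e → l e ∈ Φ ∧ r e ∈ Φ := by
    intro e hlr
    constructor
    · refine mem_filter.2 ⟨by simp, fun h => ?_⟩
      have := congrFun h e
      simp [z, Ne.symm hlr] at this
    · refine mem_filter.2 ⟨by simp, fun h => ?_⟩
      have := congrFun h e
      simp [z, hlr] at this
  have hle : LinearMap.ker (bdry s t) ≤ LinearMap.range ext := by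
    intro Z hZ
    have hZ' : IsCyc s t Z := fun v => congrFun (LinearMap.mem_ker.1 hZ) v
    obtain ⟨S, hS⟩ := (hdual Z).1 hZ'
    refine ⟨fun φ => S φ.1, ?_⟩
    funext e
    simp only [ext, LinearMap.coe_mk, AddHom.coe_mk]
    by_cases hlr : l e = r e
    · rw [hS e, hlr, two_zero, two_zero]
    · rw [dif_pos (mm e hlr).1, dif_pos (mm e hlr).2, hS e]
  have h3 := finrank_cyc s t
  have h0 := Submodule.finrank_mono hle
  have h4 := LinearMap.finrank_range_add_finrank_ker ext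
  simp only [Module.finrank_fintype_fun_eq_card, Fintype.card_coe] at h4
  have h5 : 1 ≤ Module.finrank (ZMod 2) (LinearMap.ker ext) := by
    obtain ⟨φ, hφ⟩ : Φ.Nonempty := card_pos.1 (by omega)
    rw [Nat.one_le_iff_ne_zero, Ne, Submodule.finrank_eq_zero]
    intro h
    have : (fun _ => 1 : Φ → ZMod 2) ∈ LinearMap.ker ext := by
      rw [LinearMap.mem_ker]
      funext e
      simp only [ext, LinearMap.coe_mk, AddHom.coe_mk, Pi.zero_apply]
      by_cases hlr : l e = r e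
      · rw [hlr, two_zero]
      · rw [dif_pos (mm e hlr).1, dif_pos (mm e hlr).2, two_zero]
    rw [h, Submodule.mem_bot] at this
    exact one_ne_zero (congrFun this ⟨φ, hφ⟩)
  have h2 : g * Φ.card ≤ 2 * Fintype.card E := by
    calc g * Φ.card = ∑ _φ ∈ Φ, g := by simp [mul_comm]
      _ ≤ ∑ φ ∈ Φ, ((univ.filter fun e => l e = φ).card + (univ.filter fun e => r e = φ).card) := by
        refine sum_le_sum fun φ hφ => ?_
        refine (hg _ (hz φ) (mem_filter.1 hφ).2).trans ?_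
        refine le_trans (card_le_card ?_) (card_union_le _ _)
        intro e he
        rw [mem_filter] at he
        by_contra hne
        simp only [mem_union, mem_filter, mem_univ, true_and, not_or] at hne
        exact he.2 (by simp [z, hne.1, hne.2])
      _ ≤ 2 * Fintype.card E := by
        rw [sum_add_distrib, two_mul]
        refine add_le_add ?_ ?_
        · exact (sum_card_fiberwise_eq_card_filter univ Φ l).le.trans (card_le_univ _)
        · exact (sum_card_fiberwise_eq_card_filter univ Φ r).le.trans (card_le_univ _)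
  calc g * (Fintype.card E + 2) ≤ g * (Φ.card + Fintype.card V) :=
        Nat.mul_le_mul_left _ (by omega)
    _ = g * Φ.card + g * Fintype.card V := by ring
    _ ≤ _ := by omega

lemma three_le_support {V E : Type} [Fintype E] [DecidableEq V] (s t : E → V)
    (hloop : ∀ e, s e ≠ t e)
    (hsimple : ∀ e e', s(s e, t e) = s(s e', t e') → e = e')
    (Z : E → ZMod 2) (hZ : IsCyc s t Z) (h0 : Z ≠ 0) :
    3 ≤ (univ.filter fun e => Z e ≠ 0).card := by
  classical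
  obtain ⟨e, he⟩ := Function.ne_iff.1 h0
  obtain ⟨e1, a1, b1, c1⟩ := other_edge s t hloop hZ he (v := s e) (Sym2.mem_mk_left _ _)
  obtain ⟨e2, a2, b2, c2⟩ := other_edge s t hloop hZ he (v := t e) (Sym2.mem_mk_right _ _)
  refine two_lt_card.2 ⟨e, by simpa using he, e1, by simpa using b1, e2, by simpa using b2,
    a1.symm, a2.symm, ?_⟩
  rintro rfl
  exact a1 (hsimple _ _ ((Sym2.mem_and_mem_iff (hloop e)).1 ⟨c1, c2⟩))

lemma gadj_symm {a b : ℤ × ℤ} (h : gadj a b) : gadj b a := by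
  obtain ⟨d, hd⟩ := h
  exact ⟨d, hd.symm⟩

theorem not_kfive_of_drawing {n : ℕ} (G : SimpleGraph (Fin n))
    (hG : ∃ f : Fin n → ℝ × ℝ, Function.Injective f ∧
        ∃ γ : ∀ u v : Fin n, Path (f u) (f v),
          (∀ u v, G.Adj u v → Function.Injective ⇑(γ u v)) ∧
          (∀ u v w, G.Adj u v → ∀ t, γ u v t = f w → w = u ∨ w = v) ∧
          (∀ u v u' v', G.Adj u v → G.Adj u' v' → s(u, v) ≠ s(u', v') →
            ∀ t t', γ u v t = γ u' v' t' → ∃ w, γ u v t = f w)) : ¬ KFive G := by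
  classical
  obtain ⟨f, hf, γ, hinj, hvert, hcross⟩ := hG
  rintro ⟨X, hXc, hX⟩
  let E := {e : Fin n × Fin n // e.1 < e.2 ∧ G.Adj e.1 e.2}
  have hsimple : ∀ e e' : E, s(e.1.1, e.1.2) = s(e'.1.1, e'.1.2) → e = e' := by
    intro e e' h
    have a := e.2.1
    have b := e'.2.1
    rcases Sym2.eq_iff.1 h with ⟨h1, h2⟩ | ⟨h1, h2⟩
    · exact Subtype.ext (Prod.ext h1 h2)
    · rw [h1, h2] at a
      exact (lt_asymm a b).elim
  have hend : ∀ (e : E) τ w, γ e.1.1 e.1.2 τ = f w → τ = 0 ∨ τ = 1 := by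
    intro e τ w h
    rcases hvert _ _ w e.2.2 τ h with rfl | rfl
    · exact Or.inl (hinj _ _ e.2.2 (h.trans (γ _ _).source.symm))
    · exact Or.inr (hinj _ _ e.2.2 (h.trans (γ _ _).target.symm))
  obtain ⟨B, p, ε, hdisj, hconn, hε⟩ := minor_of_drawing (fun e : E => e.1.1) (fun e => e.1.2)
    (fun e => e.2.1.ne) f hf (fun e => (γ e.1.1 e.1.2).toContinuousMap)
    (fun e => (γ _ _).source) (fun e => (γ _ _).target) (fun e => hinj _ _ e.2.2)
    (by
      intro e e' hne τ τ' h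
      obtain ⟨w, hw⟩ := hcross _ _ _ _ e.2.2 e'.2.2 (fun h => hne (hsimple _ _ h)) τ τ' h
      exact ⟨hend e τ w hw, hend e' τ' w (h.symm.trans hw)⟩)
  have hedge : ∀ u v, G.Adj u v → ∃ d : GE,
      (d.1 ∈ B u ∧ gtgt d ∈ B v) ∨ (d.1 ∈ B v ∧ gtgt d ∈ B u) := by
    intro u v e
    rcases lt_or_gt_of_ne e.ne with h | h
    · exact ⟨_, hε ⟨(u, v), h, e⟩⟩
    · exact ⟨_, (hε ⟨(v, u), h, e.symm⟩).symm⟩
  let B' : Fin 5 → Finset (ℤ × ℤ) := fun i => (univ.filter (· ∈ X i)).biUnion B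
  have mB : ∀ i q, q ∈ B' i ↔ ∃ v ∈ X i, q ∈ B v := by
    intro i q
    simp [B']
  have hne : ∀ i, ∃ v, v ∈ X i := by
    intro i
    obtain ⟨j, hj⟩ := exists_ne i
    obtain ⟨_, _, v, hv, _⟩ := (hX j i hj).2
    exact ⟨v, hv⟩
  choose ρ hρ using hne
  let T : Fin 5 → ℤ × ℤ → ℤ × ℤ → Prop := fun i =>
    Relation.ReflTransGen fun a b => a ∈ B' i ∧ b ∈ B' i ∧ gadj a b
  have Tsymm : ∀ i a b, T i a b → T i b a := by
    intro i a b h
    induction h with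
    | refl => exact Relation.ReflTransGen.refl
    | tail _ k ih => exact Relation.ReflTransGen.head ⟨k.2.1, k.1, gadj_symm k.2.2⟩ ih
  have inB : ∀ i, ∀ v ∈ X i, ∀ q ∈ B v, T i (p v) q := by
    intro i v hv q hq
    have := hconn v q hq
    clear hq
    induction this with
    | refl => exact Relation.ReflTransGen.refl
    | tail _ k ih =>
      exact Relation.ReflTransGen.tail ih ⟨(mB _ _).2 ⟨v, hv, k.1⟩, (mB _ _).2 ⟨v, hv, k.2.1⟩, k.2.2⟩
  have walk : ∀ i v, Rch G (X i) (ρ i) v → T i (p (ρ i)) (p v) := by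
    intro i v h
    induction h with
    | refl => exact Relation.ReflTransGen.refl
    | @tail a b _ k ih =>
      obtain ⟨x, y, hx, hy, e⟩ : ∃ x y, x ∈ B a ∧ y ∈ B b ∧ gadj x y := by
        obtain ⟨d, h | h⟩ := hedge a b k.2.2
        · exact ⟨_, _, h.1, h.2, d, Or.inl ⟨rfl, rfl⟩⟩
        · exact ⟨_, _, h.2, h.1, d, Or.inr ⟨rfl, rfl⟩⟩
      exact ((ih.trans (inB i a k.1 x hx)).tail
        ⟨(mB _ _).2 ⟨a, k.1, hx⟩, (mB _ _).2 ⟨b, k.2.1, hy⟩, e⟩).trans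
        (Tsymm _ _ _ (inB i b k.2.1 y hy))
  let E5 := {e : Fin 5 × Fin 5 // e.1 < e.2}
  have h5 : ∀ e : E5, ∃ d : GE, (d.1 ∈ B' e.1.1 ∧ gtgt d ∈ B' e.1.2) ∨
      (d.1 ∈ B' e.1.2 ∧ gtgt d ∈ B' e.1.1) := by
    intro e
    obtain ⟨a, ha, b, hb, k⟩ := (hX _ _ e.2.ne).2
    obtain ⟨d, h | h⟩ := hedge a b k
    · exact ⟨d, Or.inl ⟨(mB _ _).2 ⟨a, ha, h.1⟩, (mB _ _).2 ⟨b, hb, h.2⟩⟩⟩
    · exact ⟨d, Or.inr ⟨(mB _ _).2 ⟨b, hb, h.1⟩, (mB _ _).2 ⟨a, ha, h.2⟩⟩⟩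
  choose ε' hε' using h5
  have hl : ∀ e : E5, e.1.1 ≠ e.1.2 := fun e => e.2.ne
  have hs : ∀ e e' : E5, s(e.1.1, e.1.2) = s(e'.1.1, e'.1.2) → e = e' := by
    intro e e' h
    have a := e.2
    have b := e'.2
    rcases Sym2.eq_iff.1 h with ⟨h1, h2⟩ | ⟨h1, h2⟩
    · exact Subtype.ext (Prod.ext h1 h2)
    · rw [h1, h2] at a
      exact (lt_asymm a b).elim
  obtain ⟨F, l, r, hdual⟩ := dual_of_minor (fun e : E5 => e.1.1) (fun e => e.1.2) hl hs B'
    (fun i j q hi hj => by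
      obtain ⟨u, hu, k⟩ := (mB _ _).1 hi
      obtain ⟨v, hv, k'⟩ := (mB _ _).1 hj
      by_contra h
      exact Set.disjoint_left.1 (hX i j h).1 hu (hdisj u v q k k' ▸ hv))
    (fun i => p (ρ i))
    (fun i q hq => by
      obtain ⟨v, hv, k⟩ := (mB _ _).1 hq
      exact (walk i v (hXc i _ (hρ i) v hv)).trans (inB i v hv q k)) ε' hε'
  have hc : Fintype.card E5 = 10 := by decide
  have := count_of_dual' _ _ l r hdual 3 (by rw [hc]; simp) (three_le_support _ _ hl hs)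
  rw [hc] at this
  simp at this

end Pool.Agent.P.MP_8972a1_co
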