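import Pool.Agent.P.MP_8972a1_co.Draw

/-!
Edge count of a graph with a Whitney dual, and the girth condition for triangle-free graphs.
-/

set_option autoImplicit false

namespace Pool.Agent.P.MP_8972a1_co

open Finset

/-- The boundary map of a multigraph over `ZMod 2`. -/
def bdry {V E : Type} [Fintype E] [DecidableEq V] (s t : E → V) :
    (E → ZMod 2) →ₗ[ZMod 2] (V → ZMod 2) where
  toFun Z v := ∑ e, Z e * ((if s e = v then 1 else 0) + (if t e = v then 1 else 0))
  map_add' a b := by
    funext v
    simp only [Pi.add_apply, add_mul, sum_add_distrib]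
  map_smul' a b := by
    funext v
    simp only [Pi.smul_apply, smul_eq_mul, RingHom.id_apply, mul_sum, mul_assoc]

lemma finrank_cyc {V E : Type} [Fintype V] [Nonempty V] [Fintype E] [DecidableEq V]
    (s t : E → V) :
    Fintype.card E + 1 ≤ Module.finrank (ZMod 2) (LinearMap.ker (bdry s t)) + Fintype.card V := by
  have h1 := LinearMap.finrank_range_add_finrank_ker (bdry s t)
  have h2 : LinearMap.range (bdry s t) ≠ ⊤ := by
    intro h
    obtain ⟨v⟩ := ‹Nonempty V›
    have : (Pi.single v 1 : V → ZMod 2) ∈ LinearMap.range (bdry s t) := by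
      rw [h]; trivial
    obtain ⟨Z, hZ⟩ := this
    have h3 : ∑ w, bdry s t Z w = 0 := by
      simp only [bdry, LinearMap.coe_mk, AddHom.coe_mk]
      rw [sum_comm]
      refine sum_eq_zero fun e _ => ?_
      rw [← mul_sum, sum_add_distrib, sum_ite_eq, sum_ite_eq]
      simp only [mem_univ, if_true, two_zero, mul_zero]
    rw [hZ] at h3
    simp at h3
  have h3 := Submodule.finrank_lt h2
  simp only [Module.finrank_fintype_fun_eq_card] at h1 h3
  omega

theorem count_of_dual {V E : Type} [Fintype V] [Nonempty V] [Fintype E] [DecidableEq V]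
    (s t : E → V) {F : Type} (l r : E → F)
    (hdual : ∀ Z : E → ZMod 2, IsCyc s t Z ↔ ∃ S : F → ZMod 2, ∀ e, Z e = S (l e) + S (r e))
    (g : ℕ)
    (hg : ∀ Z : E → ZMod 2, IsCyc s t Z → Z ≠ 0 → g ≤ (univ.filter fun e => Z e ≠ 0).card) :
    g * (Fintype.card E + 1) ≤ 2 * Fintype.card E + g * Fintype.card V := by
  classical
  let z : F → E → ZMod 2 := fun φ e => (if l e = φ then 1 else 0) + (if r e = φ then 1 else 0)
  have hz : ∀ φ, IsCyc s t (z φ) := fun φ =>
    (hdual _).2 ⟨fun ψ => if ψ = φ then 1 else 0, fun e => rfl⟩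
  let Φ : Finset F := (univ.image l ∪ univ.image r).filter fun φ => z φ ≠ 0
  let ext : (Φ → ZMod 2) →ₗ[ZMod 2] (E → ZMod 2) :=
    { toFun := fun S e => (if h : l e ∈ Φ then S ⟨_, h⟩ else 0) +
        (if h : r e ∈ Φ then S ⟨_, h⟩ else 0)
      map_add' := by
        intro a b
        funext e
        simp only [Pi.add_apply]
        split_ifs <;> ring
      map_smul' := by
        intro a b
        funext e
        simp only [Pi.smul_apply, smul_eq_mul, RingHom.id_apply]
        split_ifs <;> ring }
  have hle : LinearMap.ker (bdry s t) ≤ LinearMap.range ext := by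
    intro Z hZ
    have hZ' : IsCyc s t Z := fun v => congrFun (LinearMap.mem_ker.1 hZ) v
    obtain ⟨S, hS⟩ := (hdual Z).1 hZ'
    refine ⟨fun φ => S φ.1, ?_⟩
    funext e
    simp only [ext, LinearMap.coe_mk, AddHom.coe_mk]
    by_cases hlr : l e = r e
    · rw [hS e, hlr, two_zero, two_zero]
    · have m1 : l e ∈ Φ := by
        refine mem_filter.2 ⟨by simp, fun h => ?_⟩
        have := congrFun h e
        simp [z, Ne.symm hlr] at this
      have m2 : r e ∈ Φ := by
        refine mem_filter.2 ⟨by simp, fun h => ?_⟩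
        have := congrFun h e
        simp [z, hlr] at this
      rw [dif_pos m1, dif_pos m2, hS e]
  have h1 : Module.finrank (ZMod 2) (LinearMap.ker (bdry s t)) ≤ Φ.card := by
    refine (Submodule.finrank_mono hle).trans ?_
    refine (LinearMap.finrank_range_le ext).trans ?_
    simp
  have h2 : g * Φ.card ≤ 2 * Fintype.card E := by
    calc g * Φ.card = ∑ _φ ∈ Φ, g := by simp [mul_comm]
      _ ≤ ∑ φ ∈ Φ, ((univ.filter fun e => l e = φ).card + (univ.filter fun e => r e = φ).card) := by
        refine sum_le_sum fun φ hφ => ?_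
        refine (hg _ (hz φ) (mem_filter.1 hφ).2).trans ?_
        refine le_trans (card_le_card ?_) (card_union_le _ _)
        intro e he
        rw [mem_filter] at he
        by_contra hne
        simp only [mem_union, mem_filter, mem_univ, true_and, not_or] at hne
        exact he.2 (by simp [z, hne.1, hne.2])
      _ ≤ 2 * Fintype.card E := by
        rw [sum_add_distrib, two_mul]
        refine add_le_add ?_ ?_
        · exact (sum_card_fiberwise_eq_card_filter univ Φ l).le.trans (card_le_univ _)
        · exact (sum_card_fiberwise_eq_card_filter univ Φ r).le.trans (card_le_univ _)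
  have h3 := finrank_cyc s t
  calc g * (Fintype.card E + 1) ≤ g * (Φ.card + Fintype.card V) :=
        Nat.mul_le_mul_left _ (by omega)
    _ = g * Φ.card + g * Fintype.card V := by ring
    _ ≤ _ := by omega

lemma other_edge {V E : Type} [Fintype E] [DecidableEq V] (s t : E → V)
    (hloop : ∀ e, s e ≠ t e) {Z : E → ZMod 2} (hZ : IsCyc s t Z) {e : E} (he : Z e ≠ 0) {v : V}
    (hv : v ∈ s(s e, t e)) : ∃ e', e' ≠ e ∧ Z e' ≠ 0 ∧ v ∈ s(s e', t e') := by
  by_contra hno
  push Not at hno
  have := hZ v
  rw [sum_eq_single e] at this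
  · apply he
    rcases Sym2.mem_iff.1 hv with h | h
    · have h' : t e ≠ v := fun h' => hloop e (h.symm.trans h'.symm)
      simpa [h.symm, h'] using this
    · have h' : s e ≠ v := fun h' => hloop e (h'.trans h)
      simpa [h.symm, h'] using this
  · intro e' _ hne
    by_cases hz : Z e' = 0
    · rw [hz, zero_mul]
    · have := hno e' hne hz
      rw [Sym2.mem_iff, not_or] at this
      simp [Ne.symm this.1, Ne.symm this.2]
  · simp

lemma four_le_support {V E : Type} [Fintype E] [DecidableEq V] (s t : E → V)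
    (hloop : ∀ e, s e ≠ t e)
    (hsimple : ∀ e e', s(s e, t e) = s(s e', t e') → e = e')
    (htri : ∀ e1 e2 e3 u v x, s(s e1, t e1) = s(u, v) → s(s e2, t e2) = s(u, x) →
      s(s e3, t e3) = s(v, x) → False)
    (Z : E → ZMod 2) (hZ : IsCyc s t Z) (h0 : Z ≠ 0) :
    4 ≤ (univ.filter fun e => Z e ≠ 0).card := by
  classical
  have nl : ∀ e a b, s(s e, t e) = s(a, b) → a ≠ b := by
    intro e a b h hab
    subst hab
    rw [Sym2.eq_iff] at h
    rcases h with ⟨h1, h2⟩ | ⟨h1, h2⟩ <;> exact hloop e (h1.trans h2.symm)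
  obtain ⟨e1, he1⟩ : ∃ e, Z e ≠ 0 := by
    by_contra h
    push Not at h
    exact h0 (funext h)
  obtain ⟨e2, n21, he2, m2⟩ := other_edge s t hloop hZ he1 (Sym2.mem_mk_left _ _)
  obtain ⟨e3, n31, he3, m3⟩ := other_edge s t hloop hZ he1 (Sym2.mem_mk_right _ _)
  obtain ⟨x, hx⟩ := Sym2.mem_iff_exists.1 m2
  obtain ⟨y, hy⟩ := Sym2.mem_iff_exists.1 m3
  have hxm : x ∈ s(s e2, t e2) := by rw [hx]; exact Sym2.mem_mk_right _ _
  obtain ⟨e4, n42, he4, m4⟩ := other_edge s t hloop hZ he2 hxm
  have xu : s e1 ≠ x := nl _ _ _ hx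
  have xv : x ≠ t e1 := fun h => n21 (hsimple _ _ (by rw [hx, h]))
  have n32 : e3 ≠ e2 := by
    rintro rfl
    rw [hx, Sym2.mem_iff] at m3
    rcases m3 with h | h
    · exact hloop e1 h.symm
    · exact xv h.symm
  have n41 : e4 ≠ e1 := by
    rintro rfl
    rcases Sym2.mem_iff.1 m4 with h | h
    · exact xu h.symm
    · exact xv h
  have n43 : e4 ≠ e3 := by
    rintro rfl
    rw [hy, Sym2.mem_iff] at m4
    rcases m4 with h | h
    · exact xv h
    · exact htri e1 e2 e4 (s e1) (t e1) x rfl hx (by rw [hy, h])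
  have hsub : ({e1, e2, e3, e4} : Finset E) ⊆ univ.filter fun e => Z e ≠ 0 := by
    intro e he
    simp only [mem_insert, mem_singleton] at he
    rcases he with rfl | rfl | rfl | rfl <;> simpa
  refine le_trans (le_of_eq ?_) (card_le_card hsub)
  rw [card_insert_of_notMem, card_insert_of_notMem, card_pair n43.symm]
  · simp [n32.symm, n42.symm]
  · simp [n21.symm, n31.symm, n41.symm]

end Pool.Agent.P.MP_8972a1_co
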