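import Pool.Agent.P.MP_8972a1_co.Grid

/-!
From a topological drawing in the plane to a minor of the square grid, hence to a Whitney dual.
-/

set_option autoImplicit false

namespace Pool.Agent.P.MP_8972a1_co

open Finset

/-- The grid point `q` at mesh `δ`. -/
def emb (δ : ℝ) (q : ℤ × ℤ) : ℝ × ℝ := ((q.1 : ℝ) * δ, (q.2 : ℝ) * δ)

/-- Grid points close to a set. -/
def near (δ : ℝ) (K : Set (ℝ × ℝ)) : Set (ℤ × ℤ) := {q | ∃ x ∈ K, dist (emb δ q) x < δ}

lemma near_mono (δ : ℝ) {K K' : Set (ℝ × ℝ)} (h : K ⊆ K') : near δ K ⊆ near δ K' :=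
  fun _ ⟨x, hx, hd⟩ => ⟨x, h hx, hd⟩

lemma exists_near {δ : ℝ} (hδ : 0 < δ) (x : ℝ × ℝ) : ∃ q, dist (emb δ q) x < δ := by
  have key : ∀ y : ℝ, dist ((⌊y / δ⌋ : ℝ) * δ) y < δ := by
    intro y
    have h1 := Int.floor_le (y / δ)
    have h2 := Int.lt_floor_add_one (y / δ)
    rw [le_div_iff₀ hδ] at h1
    rw [div_lt_iff₀ hδ] at h2
    rw [Real.dist_eq, abs_lt]
    constructor <;> nlinarith
  refine ⟨(⌊x.1 / δ⌋, ⌊x.2 / δ⌋), ?_⟩
  rw [Prod.dist_eq]
  exact max_lt (key _) (key _)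

lemma int_close {δ : ℝ} (hδ : 0 < δ) {a b : ℤ} {y : ℝ} (ha : dist ((a : ℝ) * δ) y < δ)
    (hb : dist ((b : ℝ) * δ) y < δ) : a = b ∨ a + 1 = b ∨ b + 1 = a := by
  rw [Real.dist_eq, abs_lt] at ha hb
  have h1 : (a : ℝ) - b < 2 := by
    by_contra h
    push Not at h
    nlinarith [ha.1, ha.2, hb.1, hb.2]
  have h2 : (b : ℝ) - a < 2 := by
    by_contra h
    push Not at h
    nlinarith [ha.1, ha.2, hb.1, hb.2]
  have h3 : a - b < 2 := by exact_mod_cast h1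
  have h4 : b - a < 2 := by exact_mod_cast h2
  omega

lemma near_point_conn {δ : ℝ} (hδ : 0 < δ) (K : Set (ℝ × ℝ)) {x : ℝ × ℝ} (hx : x ∈ K)
    {a b : ℤ × ℤ} (ha : dist (emb δ a) x < δ) (hb : dist (emb δ b) x < δ) :
    Relation.ReflTransGen (fun a b => a ∈ near δ K ∧ b ∈ near δ K ∧ gadj a b) a b := by
  obtain ⟨a1, a2⟩ := a
  obtain ⟨b1, b2⟩ := b
  have ha' := ha
  have hb' := hb
  rw [Prod.dist_eq, max_lt_iff] at ha' hb'
  have hc : dist (emb δ (b1, a2)) x < δ := by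
    rw [Prod.dist_eq, max_lt_iff]
    exact ⟨hb'.1, ha'.2⟩
  have m1 : (a1, a2) ∈ near δ K := ⟨x, hx, ha⟩
  have m2 : (b1, a2) ∈ near δ K := ⟨x, hx, hc⟩
  have m3 : (b1, b2) ∈ near δ K := ⟨x, hx, hb⟩
  have s1 : Relation.ReflTransGen (fun a b => a ∈ near δ K ∧ b ∈ near δ K ∧ gadj a b)
      (a1, a2) (b1, a2) := by
    rcases int_close hδ ha'.1 hb'.1 with h | h | h
    · simp only at h; rw [h]
    · refine Relation.ReflTransGen.single ⟨m1, m2, ((a1, a2), false), Or.inl ⟨rfl, ?_⟩⟩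
      simp only at h; simp [gtgt, h]
    · refine Relation.ReflTransGen.single ⟨m1, m2, ((b1, a2), false), Or.inr ⟨rfl, ?_⟩⟩
      simp only at h; simp [gtgt, h]
  have s2 : Relation.ReflTransGen (fun a b => a ∈ near δ K ∧ b ∈ near δ K ∧ gadj a b)
      (b1, a2) (b1, b2) := by
    rcases int_close hδ ha'.2 hb'.2 with h | h | h
    · simp only at h; rw [h]
    · refine Relation.ReflTransGen.single ⟨m2, m3, ((b1, a2), true), Or.inl ⟨rfl, ?_⟩⟩
      simp only at h; simp [gtgt, h]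
    · refine Relation.ReflTransGen.single ⟨m2, m3, ((b1, b2), true), Or.inr ⟨rfl, ?_⟩⟩
      simp only at h; simp [gtgt, h]
  exact s1.trans s2

lemma near_conn {δ : ℝ} (hδ : 0 < δ) {K : Set (ℝ × ℝ)} (hK : IsPreconnected K)
    {a b : ℤ × ℤ} (ha : a ∈ near δ K) (hb : b ∈ near δ K) :
    Relation.ReflTransGen (fun a b => a ∈ near δ K ∧ b ∈ near δ K ∧ gadj a b) a b := by
  by_contra hab
  let R : Set (ℤ × ℤ) :=
    {q | Relation.ReflTransGen (fun a b => a ∈ near δ K ∧ b ∈ near δ K ∧ gadj a b) a q}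
  let U1 : Set (ℝ × ℝ) := ⋃ q ∈ R, Metric.ball (emb δ q) δ
  let U2 : Set (ℝ × ℝ) := ⋃ q ∈ Rᶜ, Metric.ball (emb δ q) δ
  have o1 : IsOpen U1 := isOpen_biUnion fun _ _ => Metric.isOpen_ball
  have o2 : IsOpen U2 := isOpen_biUnion fun _ _ => Metric.isOpen_ball
  have hcov : K ⊆ U1 ∪ U2 := by
    intro x _
    obtain ⟨q, hq⟩ := exists_near hδ x
    by_cases h : q ∈ R
    · left
      exact Set.mem_biUnion h (by rw [Metric.mem_ball, dist_comm]; exact hq)
    · right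
      exact Set.mem_biUnion (show q ∈ Rᶜ from h) (by rw [Metric.mem_ball, dist_comm]; exact hq)
  obtain ⟨xa, hxa, hda⟩ := ha
  obtain ⟨xb, hxb, hdb⟩ := hb
  have n1 : (K ∩ U1).Nonempty :=
    ⟨xa, hxa, Set.mem_biUnion (show a ∈ R from Relation.ReflTransGen.refl)
      (by rw [Metric.mem_ball, dist_comm]; exact hda)⟩
  have n2 : (K ∩ U2).Nonempty :=
    ⟨xb, hxb, Set.mem_biUnion (show b ∈ Rᶜ from hab)
      (by rw [Metric.mem_ball, dist_comm]; exact hdb)⟩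
  obtain ⟨x, hxK, hx1, hx2⟩ := hK U1 U2 o1 o2 hcov n1 n2
  simp only [U1, U2, Set.mem_iUnion, Metric.mem_ball] at hx1 hx2
  obtain ⟨q1, hq1, hd1⟩ := hx1
  obtain ⟨q2, hq2, hd2⟩ := hx2
  apply hq2
  exact Relation.ReflTransGen.trans hq1
    (near_point_conn hδ K hxK (by rw [dist_comm]; exact hd1) (by rw [dist_comm]; exact hd2))

lemma near_finite {δ : ℝ} (hδ : 0 < δ) {K : Set (ℝ × ℝ)} (hK : Bornology.IsBounded K) :
    (near δ K).Finite := by
  obtain ⟨r, hr⟩ := hK.subset_closedBall 0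
  obtain ⟨N, hN⟩ := exists_int_gt (r / δ + 1)
  have key : ∀ (a : ℤ) (y : ℝ), dist ((a : ℝ) * δ) y < δ → |y| ≤ r → a ∈ Set.Icc (-N) N := by
    intro a y h1 h2
    rw [Real.dist_eq, abs_lt] at h1
    rw [abs_le] at h2
    have hN' : r + δ < N * δ := by
      have := mul_lt_mul_of_pos_right hN hδ
      rwa [add_mul, div_mul_cancel₀ _ hδ.ne', one_mul] at this
    have g1 : (a : ℝ) < N := by
      by_contra h
      push Not at h
      nlinarith [h1.2, h2.2]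
    have g2 : -(N : ℝ) < a := by
      by_contra h
      push Not at h
      nlinarith [h1.1, h2.1]
    have g3 : a < N := by exact_mod_cast g1
    have g4 : -N < a := by exact_mod_cast g2
    exact ⟨g4.le, g3.le⟩
  refine ((Set.finite_Icc (-N) N).prod (Set.finite_Icc (-N) N)).subset ?_
  rintro ⟨a, b⟩ ⟨x, hx, hd⟩
  have hx' := hr hx
  rw [Metric.mem_closedBall, Prod.dist_eq, max_le_iff] at hx'
  rw [Prod.dist_eq, max_lt_iff] at hd
  exact ⟨key a x.1 hd.1 (by simpa using hx'.1), key b x.2 hd.2 (by simpa using hx'.2)⟩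

/-- The parameter `τ` of the edge `e` lies strictly in the third next to the vertex `w`. -/
def AtO {V E : Type} (s t : E → V) (e : E) (τ : unitInterval) (w : V) : Prop :=
  ((τ : ℝ) < 1 / 3 ∧ s e = w) ∨ (2 / 3 < (τ : ℝ) ∧ t e = w)

lemma exists_mesh {V E : Type} [Fintype V] [Fintype E] (s t : E → V) (f : V → ℝ × ℝ)
    (hf : Function.Injective f) (c : E → C(unitInterval, ℝ × ℝ))
    (h0 : ∀ e, c e 0 = f (s e)) (h1 : ∀ e, c e 1 = f (t e))
    (hinj : ∀ e, Function.Injective (c e))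
    (hcross : ∀ e e', e ≠ e' → ∀ τ τ', c e τ = c e' τ' →
      (τ = 0 ∨ τ = 1) ∧ (τ' = 0 ∨ τ' = 1)) :
    ∃ δ : ℝ, 0 < δ ∧ ∀ e e' τ τ', dist (c e τ) (c e' τ') < 2 * δ →
      (e = e' ∧ |(τ : ℝ) - τ'| < 1 / 3) ∨ ∃ w, AtO s t e τ w ∧ AtO s t e' τ' w := by
  classical
  have key : ∀ ee : E × E, ∃ δ : ℝ, 0 < δ ∧ ∀ τ τ', dist (c ee.1 τ) (c ee.2 τ') < 2 * δ →
      (ee.1 = ee.2 ∧ |(τ : ℝ) - τ'| < 1 / 3) ∨ ∃ w, AtO s t ee.1 τ w ∧ AtO s t ee.2 τ' w := by
    rintro ⟨e, e'⟩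
    let good : Set (unitInterval × unitInterval) := {z |
      (e = e' ∧ |(z.1 : ℝ) - z.2| < 1 / 3) ∨ ∃ w, AtO s t e z.1 w ∧ AtO s t e' z.2 w}
    have hA : ∀ (e : E) (w : V), IsOpen {τ : unitInterval | AtO s t e τ w} := by
      intro e w
      apply IsOpen.union
      · exact (isOpen_lt continuous_subtype_val continuous_const).inter isOpen_const
      · exact (isOpen_lt continuous_const continuous_subtype_val).inter isOpen_const
    have hopen : IsOpen good := by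
      apply IsOpen.union
      · have : IsOpen {z : unitInterval × unitInterval | |(z.1 : ℝ) - z.2| < 1 / 3} :=
          isOpen_lt (by fun_prop) continuous_const
        exact isOpen_const.inter this
      · have : {z : unitInterval × unitInterval | ∃ w, AtO s t e z.1 w ∧ AtO s t e' z.2 w} =
            ⋃ w, ({τ : unitInterval | AtO s t e τ w} ×ˢ {τ : unitInterval | AtO s t e' τ w}) := by
          ext z
          simp
        show IsOpen {z : unitInterval × unitInterval | ∃ w, AtO s t e z.1 w ∧ AtO s t e' z.2 w}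
        rw [this]
        exact isOpen_iUnion fun w => (hA e w).prod (hA e' w)
    have hcomp : IsCompact goodᶜ := hopen.isClosed_compl.isCompact
    have hcont : Continuous fun z : unitInterval × unitInterval =>
        dist (c e z.1) (c e' z.2) := by fun_prop
    have hpos : ∀ z ∈ goodᶜ, 0 < dist (c e z.1) (c e' z.2) := by
      rintro ⟨τ, τ'⟩ hz
      rw [dist_pos]
      intro heq
      apply hz
      by_cases hee : e = e'
      · left
        subst hee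
        have := hinj e heq
        simp only at this
        refine ⟨rfl, ?_⟩
        simp only [this, sub_self, abs_zero]
        norm_num
      · right
        obtain ⟨a, b⟩ := hcross e e' hee τ τ' heq
        simp only at heq
        rcases a with rfl | rfl <;> rcases b with rfl | rfl
        · rw [h0, h0] at heq
          exact ⟨s e, Or.inl ⟨by norm_num, rfl⟩, Or.inl ⟨by norm_num, (hf heq).symm⟩⟩
        · rw [h0, h1] at heq
          exact ⟨s e, Or.inl ⟨by norm_num, rfl⟩, Or.inr ⟨by norm_num, (hf heq).symm⟩⟩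
        · rw [h1, h0] at heq
          exact ⟨t e, Or.inr ⟨by norm_num, rfl⟩, Or.inl ⟨by norm_num, (hf heq).symm⟩⟩
        · rw [h1, h1] at heq
          exact ⟨t e, Or.inr ⟨by norm_num, rfl⟩, Or.inr ⟨by norm_num, (hf heq).symm⟩⟩
    obtain ⟨m, hm, hmle⟩ := hcomp.exists_forall_le' hcont.continuousOn hpos
    refine ⟨m / 2, by linarith, fun τ τ' hd => ?_⟩
    by_contra hbad
    have := hmle (τ, τ') hbad
    simp only at this hd
    linarith
  choose δ hδ hgood using key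
  by_cases hE : Nonempty E
  · obtain ⟨ee, hee⟩ := Finite.exists_min δ
    refine ⟨δ ee, hδ ee, fun e e' τ τ' hd => hgood (e, e') τ τ' ?_⟩
    have := hee (e, e')
    simp only
    linarith
  · exact ⟨1, one_pos, fun e => (hE ⟨e⟩).elim⟩

/-- The parameter `τ` of the edge `e` lies in the closed third next to the vertex `w`. -/
def AtC {V E : Type} (s t : E → V) (e : E) (τ : unitInterval) (w : V) : Prop :=
  ((τ : ℝ) ≤ 1 / 3 ∧ s e = w) ∨ (2 / 3 ≤ (τ : ℝ) ∧ t e = w)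

lemma pre_le (a : ℝ) : IsPreconnected {τ : unitInterval | (τ : ℝ) ≤ a} := by
  apply Set.OrdConnected.isPreconnected
  refine ⟨fun _ _ y hy z hz => ?_⟩
  have : (z : ℝ) ≤ y := hz.2
  exact le_trans this hy

lemma pre_ge (a : ℝ) : IsPreconnected {τ : unitInterval | a ≤ (τ : ℝ)} := by
  apply Set.OrdConnected.isPreconnected
  refine ⟨fun x hx _ _ z hz => ?_⟩
  have : (x : ℝ) ≤ z := hz.1
  exact le_trans hx this

/-- A topological drawing yields a Whitney dual. -/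
theorem dual_of_drawing {V E : Type} [Fintype V] [Fintype E] [DecidableEq V] (s t : E → V)
    (hloop : ∀ e, s e ≠ t e)
    (hsimple : ∀ e e', s(s e, t e) = s(s e', t e') → e = e')
    (f : V → ℝ × ℝ)
    (hf : Function.Injective f) (c : E → C(unitInterval, ℝ × ℝ))
    (h0 : ∀ e, c e 0 = f (s e)) (h1 : ∀ e, c e 1 = f (t e))
    (hinj : ∀ e, Function.Injective (c e))
    (hcross : ∀ e e', e ≠ e' → ∀ τ τ', c e τ = c e' τ' →
      (τ = 0 ∨ τ = 1) ∧ (τ' = 0 ∨ τ' = 1)) :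
    ∃ (F : Type) (l r : E → F), ∀ Z : E → ZMod 2,
      IsCyc s t Z ↔ ∃ S : F → ZMod 2, ∀ e, Z e = S (l e) + S (r e) := by
  classical
  obtain ⟨δ, hδ, hsep⟩ := exists_mesh s t f hf c h0 h1 hinj hcross
  let KA : V → Set (ℝ × ℝ) := fun w => {x | ∃ e τ, AtC s t e τ w ∧ x = c e τ}
  let KM : E → Set (ℝ × ℝ) := fun e =>
    {x | ∃ τ : unitInterval, 1 / 3 ≤ (τ : ℝ) ∧ (τ : ℝ) ≤ 2 / 3 ∧ x = c e τ}
  let A : V → Set (ℤ × ℤ) := fun w => near δ (KA w)
  let M : E → Set (ℤ × ℤ) := fun e => near δ (KM e)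
  have hsep' : ∀ q e e' τ τ', dist (emb δ q) (c e τ) < δ → dist (emb δ q) (c e' τ') < δ →
      (e = e' ∧ |(τ : ℝ) - τ'| < 1 / 3) ∨ ∃ w, AtO s t e τ w ∧ AtO s t e' τ' w := by
    intro q e e' τ τ' d1 d2
    apply hsep
    have := dist_triangle_left (c e τ) (c e' τ') (emb δ q)
    linarith
  have hOC : ∀ e τ z u, AtO s t e τ z → AtC s t e τ u → z = u := by
    rintro e τ z u (⟨a, rfl⟩ | ⟨a, rfl⟩) (⟨b, rfl⟩ | ⟨b, rfl⟩)
    · rfl
    · linarith
    · linarith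
    · rfl
  have hOM : ∀ e (τ : unitInterval) z, AtO s t e τ z → 1 / 3 ≤ (τ : ℝ) → (τ : ℝ) ≤ 2 / 3 →
      False := by
    rintro e τ z (⟨a, -⟩ | ⟨a, -⟩) b b' <;> linarith
  have F1 : ∀ q u w, q ∈ A u → q ∈ A w → u = w := by
    rintro q u w ⟨_, ⟨e, τ, a, rfl⟩, d1⟩ ⟨_, ⟨e', τ', a', rfl⟩, d2⟩
    rcases hsep' q e e' τ τ' d1 d2 with ⟨rfl, h⟩ | ⟨z, z1, z2⟩
    · rw [abs_lt] at h
      rcases a with ⟨b, rfl⟩ | ⟨b, rfl⟩ <;> rcases a' with ⟨b', rfl⟩ | ⟨b', rfl⟩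
      · rfl
      · linarith [h.1]
      · linarith [h.2]
      · rfl
    · rw [← hOC _ _ _ _ z1 a, ← hOC _ _ _ _ z2 a']
  have F2 : ∀ q e e', q ∈ M e → q ∈ M e' → e = e' := by
    rintro q e e' ⟨_, ⟨τ, a, b, rfl⟩, d1⟩ ⟨_, ⟨τ', _, _, rfl⟩, d2⟩
    rcases hsep' q e e' τ τ' d1 d2 with ⟨h, -⟩ | ⟨z, z1, -⟩
    · exact h
    · exact (hOM _ _ _ z1 a b).elim
  have F3 : ∀ q e w, q ∈ M e → q ∈ A w → w = s e ∨ w = t e := by
    rintro q e w ⟨_, ⟨τ, a, b, rfl⟩, d1⟩ ⟨_, ⟨e', τ', a', rfl⟩, d2⟩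
    rcases hsep' q e e' τ τ' d1 d2 with ⟨rfl, -⟩ | ⟨z, z1, -⟩
    · rcases a' with ⟨-, rfl⟩ | ⟨-, rfl⟩
      · exact Or.inl rfl
      · exact Or.inr rfl
    · exact (hOM _ _ _ z1 a b).elim
  have F4 : ∀ q e, q ∈ near δ (Set.range (c e)) → q ∈ A (s e) ∨ q ∈ M e ∨ q ∈ A (t e) := by
    rintro q e ⟨_, ⟨τ, rfl⟩, d⟩
    by_cases a : (τ : ℝ) ≤ 1 / 3
    · exact Or.inl ⟨_, ⟨e, τ, Or.inl ⟨a, rfl⟩, rfl⟩, d⟩
    · by_cases b : 2 / 3 ≤ (τ : ℝ)
      · exact Or.inr (Or.inr ⟨_, ⟨e, τ, Or.inr ⟨b, rfl⟩, rfl⟩, d⟩)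
      · exact Or.inr (Or.inl ⟨_, ⟨τ, by linarith, by linarith, rfl⟩, d⟩)
  let S : V → Set (ℤ × ℤ) := fun u =>
    {q | q ∈ A u ∨ ((∀ w, q ∉ A w) ∧ ∃ e, s e = u ∧ q ∈ M e)}
  have hSdisj : ∀ u v q, q ∈ S u → q ∈ S v → u = v := by
    rintro u v q (a | ⟨a, e, rfl, a'⟩) (b | ⟨b, e', rfl, b'⟩)
    · exact F1 q u v a b
    · exact (b _ a).elim
    · exact (a _ b).elim
    · rw [F2 q e e' a' b']
  choose p hp using fun v => exists_near hδ (f v)
  let Bs : V → Set (ℤ × ℤ) := fun v => {q | q ∈ S v ∧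
    Relation.ReflTransGen (fun a b => a ∈ S v ∧ b ∈ S v ∧ gadj a b) (p v) q}
  have hbdd : Bornology.IsBounded (⋃ e, Set.range (c e)) :=
    (isCompact_iUnion fun e => isCompact_range (c e).continuous).isBounded
  have hfin : ∀ v, (Bs v).Finite := by
    intro v
    refine (near_finite hδ hbdd).subset ?_
    rintro q ⟨a | ⟨-, e, -, a⟩, -⟩
    · refine near_mono δ ?_ a
      rintro _ ⟨e, τ, -, rfl⟩
      exact Set.mem_iUnion.2 ⟨e, τ, rfl⟩
    · refine near_mono δ ?_ a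
      rintro _ ⟨τ, -, -, rfl⟩
      exact Set.mem_iUnion.2 ⟨e, τ, rfl⟩
  have hAB : ∀ v q, q ∈ A v → q ∈ Bs v := by
    rintro v q hq
    refine ⟨Or.inl hq, ?_⟩
    obtain ⟨_, ⟨e, τ, a, rfl⟩, d⟩ := hq
    have main : ∀ K : Set (ℝ × ℝ), IsPreconnected K → K ⊆ KA v → f v ∈ K → c e τ ∈ K →
        Relation.ReflTransGen (fun a b => a ∈ S v ∧ b ∈ S v ∧ gadj a b) (p v) q := by
      intro K hK hsub m1 m2
      have hr := near_conn hδ hK (a := p v) (b := q) ⟨_, m1, hp v⟩ ⟨_, m2, d⟩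
      clear d
      induction hr with
      | refl => exact Relation.ReflTransGen.refl
      | tail _ hab ih =>
        obtain ⟨ha, hb, hab⟩ := hab
        exact ih.tail ⟨Or.inl (near_mono δ hsub ha), Or.inl (near_mono δ hsub hb), hab⟩
    rcases a with ⟨b, rfl⟩ | ⟨b, rfl⟩
    · refine main (c e '' {τ : unitInterval | (τ : ℝ) ≤ 1 / 3})
        ((pre_le _).image _ (c e).continuous.continuousOn) ?_
        ⟨0, by simp, h0 e⟩ ⟨τ, b, rfl⟩
      rintro _ ⟨τ', b', rfl⟩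
      exact ⟨e, τ', Or.inl ⟨b', rfl⟩, rfl⟩
    · refine main (c e '' {τ : unitInterval | 2 / 3 ≤ (τ : ℝ)})
        ((pre_ge _).image _ (c e).continuous.continuousOn) ?_
        ⟨1, by simp only [Set.mem_ofPred_eq, Set.Icc.coe_one]; norm_num, h1 e⟩ ⟨τ, b, rfl⟩
      rintro _ ⟨τ', b', rfl⟩
      exact ⟨e, τ', Or.inr ⟨b', rfl⟩, rfl⟩
  have hε : ∀ e, ∃ d : GE, (d.1 ∈ Bs (s e) ∧ gtgt d ∈ Bs (t e)) ∨
      (d.1 ∈ Bs (t e) ∧ gtgt d ∈ Bs (s e)) := by
    intro e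
    by_contra hno
    have ps : p (s e) ∈ A (s e) :=
      ⟨_, ⟨e, 0, Or.inl ⟨by simp, rfl⟩, (h0 e).symm⟩, hp _⟩
    have pt : p (t e) ∈ A (t e) :=
      ⟨_, ⟨e, 1, Or.inr ⟨by simp only [Set.Icc.coe_one]; norm_num, rfl⟩, (h1 e).symm⟩, hp _⟩
    have hreach := near_conn hδ (isPreconnected_range (c e).continuous)
      (a := p (s e)) (b := p (t e)) ⟨_, ⟨0, h0 e⟩, hp _⟩ ⟨_, ⟨1, h1 e⟩, hp _⟩
    have all : ∀ q, Relation.ReflTransGen (fun a b => a ∈ near δ (Set.range (c e)) ∧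
        b ∈ near δ (Set.range (c e)) ∧ gadj a b) (p (s e)) q → q ∈ Bs (s e) := by
      intro q hq
      induction hq with
      | refl => exact hAB _ _ ps
      | @tail a b _ hab ih =>
        obtain ⟨-, hb, hab⟩ := hab
        by_cases hbt : b ∈ A (t e)
        · exfalso
          apply hno
          obtain ⟨d, ⟨rfl, rfl⟩ | ⟨rfl, rfl⟩⟩ := hab
          · exact ⟨d, Or.inl ⟨ih, hAB _ _ hbt⟩⟩
          · exact ⟨d, Or.inr ⟨hAB _ _ hbt, ih⟩⟩
        · have hbS : b ∈ S (s e) := by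
            by_cases hbs : b ∈ A (s e)
            · exact Or.inl hbs
            · rcases F4 b e hb with h | h | h
              · exact (hbs h).elim
              · refine Or.inr ⟨fun w hw => ?_, e, rfl, h⟩
                rcases F3 b e w h hw with rfl | rfl
                · exact hbs hw
                · exact hbt hw
              · exact (hbt h).elim
          exact ⟨hbS, ih.2.tail ⟨ih.1, hbS, hab⟩⟩
    exact hloop e (hSdisj _ _ _ (all _ hreach).1 (Or.inl pt))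
  choose ε hε using hε
  refine dual_of_minor s t hloop hsimple (fun v => (hfin v).toFinset) ?_ p ?_ ε ?_
  · intro u v q hu hv
    rw [Set.Finite.mem_toFinset] at hu hv
    exact hSdisj u v q hu.1 hv.1
  · intro v q hq
    rw [Set.Finite.mem_toFinset] at hq
    obtain ⟨-, hq⟩ := hq
    induction hq with
    | refl => exact Relation.ReflTransGen.refl
    | @tail a b ha hab ih =>
      refine ih.tail ⟨?_, ?_, hab.2.2⟩
      · rw [Set.Finite.mem_toFinset]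
        exact ⟨hab.1, ha⟩
      · rw [Set.Finite.mem_toFinset]
        exact ⟨hab.2.1, ha.tail hab⟩
  · intro e
    simpa only [Set.Finite.mem_toFinset] using hε e

end Pool.Agent.P.MP_8972a1_co
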