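import Mathlib

/-!
A multigraph in which every nonempty vertex set `X` spans at most `2|X| - 2` edges splits into two
edge sets along which arbitrary bijective constraints can be solved (two forests).
-/

set_option autoImplicit false

namespace Pool.Agent.P.MP_8972a1_co

open Finset

/-- Every system of bijective constraints along the edges in `T` has a solution. -/
def Free {V E : Type} (T : Finset E) (s t : E → V) : Prop :=
  ∀ (Ω : Type) [Nonempty Ω] (β : E → Ω ≃ Ω), ∃ x : V → Ω, ∀ e ∈ T, x (t e) = β e (x (s e))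

/-- Number of edges of `T` inside `X`. -/
def cnt {V E : Type} [DecidableEq V] (T : Finset E) (s t : E → V) (X : Finset V) : ℕ :=
  (T.filter fun e => s e ∈ X ∧ t e ∈ X).card

/-- Every nonempty vertex set `X` spans at most `2|X| - 2` edges of `T`. -/
def Sparse {V E : Type} [DecidableEq V] (T : Finset E) (s t : E → V) : Prop :=
  ∀ X : Finset V, X.Nonempty → cnt T s t X + 2 ≤ 2 * X.card

variable {V E : Type} [DecidableEq V] [DecidableEq E]

omit [DecidableEq V] [DecidableEq E] in
lemma Free.flip {T : Finset E} {s t s' t' : E → V}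
    (h : ∀ e, (s' e = s e ∧ t' e = t e) ∨ (s' e = t e ∧ t' e = s e)) (hF : Free T s' t') :
    Free T s t := by
  classical
  intro Ω _ β
  obtain ⟨x, hx⟩ := hF Ω (fun e => if s' e = s e ∧ t' e = t e then β e else (β e).symm)
  refine ⟨x, fun e he => ?_⟩
  have := hx e he
  by_cases c : s' e = s e ∧ t' e = t e
  · rw [if_pos c, c.1, c.2] at this
    exact this
  · rw [if_neg c] at this
    obtain ⟨a, b⟩ := (h e).resolve_left c
    rw [a, b] at this
    rw [this, Equiv.apply_symm_apply]

omit [DecidableEq E] in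
lemma cnt_flip {T : Finset E} {s t s' t' : E → V}
    (h : ∀ e, (s' e = s e ∧ t' e = t e) ∨ (s' e = t e ∧ t' e = s e)) (X : Finset V) :
    cnt T s' t' X = cnt T s t X := by
  unfold cnt
  congr 1
  refine filter_congr fun e _ => ?_
  rcases h e with ⟨a, b⟩ | ⟨a, b⟩
  · rw [a, b]
  · rw [a, b, and_comm]

omit [DecidableEq V] [DecidableEq E] in
lemma Free.mono {T T' : Finset E} {s t : E → V} (h : T' ⊆ T) (hF : Free T s t) :
    Free T' s t := by
  intro Ω _ β
  obtain ⟨x, hx⟩ := hF Ω β
  exact ⟨x, fun e he => hx e (h he)⟩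

lemma Free.pendant {T : Finset E} {s t : E → V} {v : V} (hF : Free T s t)
    (hv : ∀ e ∈ T, s e ≠ v ∧ t e ≠ v) {e1 : E} (h1 : t e1 = v) (h2 : s e1 ≠ v) :
    Free (insert e1 T) s t := by
  intro Ω _ β
  obtain ⟨x, hx⟩ := hF Ω β
  refine ⟨Function.update x v (β e1 (x (s e1))), fun e he => ?_⟩
  rcases mem_insert.1 he with rfl | he
  · rw [h1, Function.update_self, Function.update_of_ne h2]
  · rw [Function.update_of_ne (hv e he).1, Function.update_of_ne (hv e he).2]
    exact hx e he

lemma Free.subdiv {T : Finset E} {s t : E → V} {v : V} {e1 e2 : E}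
    (hF : Free T s (Function.update t e1 (s e2))) (m1 : e1 ∈ T) (n12 : e2 ≠ e1)
    (hs : ∀ e ∈ T, s e ≠ v) (ht : ∀ e ∈ T, e ≠ e1 → t e ≠ v)
    (h1 : t e1 = v) (h2 : t e2 = v) (h3 : s e2 ≠ v) :
    Free (insert e2 T) s t := by
  intro Ω _ β
  obtain ⟨x, hx⟩ := hF Ω (Function.update β e1 ((β e1).trans (β e2).symm))
  refine ⟨Function.update x v (β e1 (x (s e1))), fun e he => ?_⟩
  by_cases c : e = e1
  · subst c
    rw [h1, Function.update_self, Function.update_of_ne (hs e m1)]
  · rcases mem_insert.1 he with rfl | he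
    · have := hx e1 m1
      rw [Function.update_self, Function.update_self] at this
      rw [h2, Function.update_self, Function.update_of_ne h3, this]
      simp
    · rw [Function.update_of_ne (hs e he), Function.update_of_ne (ht e he c)]
      have := hx e he
      rwa [Function.update_of_ne c, Function.update_of_ne c] at this

omit [DecidableEq E] in
lemma cnt_mono {T T' : Finset E} (s t : E → V) (h : T' ⊆ T) (X : Finset V) :
    cnt T' s t X ≤ cnt T s t X :=
  card_le_card (filter_subset_filter _ h)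

lemma cnt_supermod (T : Finset E) (s t : E → V) (X Y : Finset V) :
    cnt T s t X + cnt T s t Y ≤ cnt T s t (X ∪ Y) + cnt T s t (X ∩ Y) := by
  unfold cnt
  rw [← card_union_add_card_inter]
  refine add_le_add (card_le_card ?_) (card_le_card ?_)
  · intro e he
    simp only [mem_union, mem_filter] at he ⊢
    tauto
  · intro e he
    simp only [mem_inter, mem_filter] at he ⊢
    tauto

omit [DecidableEq E] in
lemma exists_low_degree {T : Finset E} {s t : E → V} (hT : Sparse T s t) (hne : T.Nonempty) :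
    ∃ v, (∃ e ∈ T, s e = v ∨ t e = v) ∧
      (T.filter fun e => s e = v).card + (T.filter fun e => t e = v).card ≤ 3 := by
  by_contra hno
  push Not at hno
  let X : Finset V := T.image s ∪ T.image t
  have hX : X.Nonempty := by
    obtain ⟨e, he⟩ := hne
    exact ⟨s e, mem_union_left _ (mem_image_of_mem _ he)⟩
  have h1 : cnt T s t X = T.card := by
    unfold cnt
    rw [filter_true_of_mem]
    intro e he
    exact ⟨mem_union_left _ (mem_image_of_mem _ he), mem_union_right _ (mem_image_of_mem _ he)⟩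
  have h2 := hT X hX
  have h3 : ∑ v ∈ X, ((T.filter fun e => s e = v).card + (T.filter fun e => t e = v).card)
      ≤ T.card + T.card := by
    rw [sum_add_distrib]
    refine add_le_add ?_ ?_
    · exact (sum_card_fiberwise_eq_card_filter T X s).le.trans (card_filter_le _ _)
    · exact (sum_card_fiberwise_eq_card_filter T X t).le.trans (card_filter_le _ _)
  have h4 : ∑ _v ∈ X, 4 ≤
      ∑ v ∈ X, ((T.filter fun e => s e = v).card + (T.filter fun e => t e = v).card) := by
    refine sum_le_sum fun v hv => hno v ?_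
    simp only [X, mem_union, mem_image] at hv
    rcases hv with ⟨e, he, h⟩ | ⟨e, he, h⟩
    · exact ⟨e, he, Or.inl h⟩
    · exact ⟨e, he, Or.inr h⟩
  simp only [sum_const, smul_eq_mul] at h4
  omega

/-- A violated modification gives a tight set avoiding `v`. -/
lemma tight_of_not_sparse {T0 : Finset E} {s t : E → V} {v : V} (hT0 : Sparse T0 s t)
    (hv : ∀ e ∈ T0, s e ≠ v ∧ t e ≠ v) {e1 : E} (n1 : e1 ∉ T0) {b : V} (ha : s e1 ≠ v)
    (hb : b ≠ v) (hno : ¬ Sparse (insert e1 T0) s (Function.update t e1 b)) :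
    ∃ X : Finset V, v ∉ X ∧ s e1 ∈ X ∧ b ∈ X ∧ 2 * X.card ≤ cnt T0 s t X + 2 := by
  unfold Sparse at hno
  push Not at hno
  obtain ⟨X, hX, hlt⟩ := hno
  have e0 : (T0.filter fun e => s e ∈ X ∧ Function.update t e1 b e ∈ X) =
      T0.filter fun e => s e ∈ X.erase v ∧ t e ∈ X.erase v := by
    refine filter_congr fun e he => ?_
    have hne : e ≠ e1 := fun h => n1 (h ▸ he)
    rw [Function.update_of_ne hne]
    simp [mem_erase, (hv e he).1, (hv e he).2]
  have hle : cnt T0 s t (X.erase v) ≤ cnt T0 s t X := by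
    refine card_le_card fun e he => ?_
    rw [mem_filter] at he ⊢
    exact ⟨he.1, mem_of_mem_erase he.2.1, mem_of_mem_erase he.2.2⟩
  have h0 := hT0 X hX
  unfold cnt at hlt
  rw [filter_insert, e0] at hlt
  split_ifs at hlt with c
  · rw [Function.update_self] at c
    rw [card_insert_of_notMem (fun h => n1 (mem_filter.1 h).1)] at hlt
    refine ⟨X.erase v, notMem_erase _ _, mem_erase.2 ⟨ha, c.1⟩, mem_erase.2 ⟨hb, c.2⟩, ?_⟩
    have := card_erase_le (s := X) (a := v)
    unfold cnt
    omega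
  · exfalso
    unfold cnt at hle h0
    omega

theorem two_free (n : ℕ) : ∀ (T : Finset E) (s t : E → V), T.card = n → Sparse T s t →
    ∃ T1 T2 : Finset E, T ⊆ T1 ∪ T2 ∧ T1 ⊆ T ∧ T2 ⊆ T ∧ Free T1 s t ∧ Free T2 s t := by
  induction n using Nat.strong_induction_on with
  | _ n ih =>
  intro T s0 t0 hn hT0
  rcases T.eq_empty_or_nonempty with rfl | hne
  · exact ⟨∅, ∅, by simp, by simp, by simp,
      fun Ω _ β => ⟨fun _ => Classical.arbitrary Ω, by simp⟩,
      fun Ω _ β => ⟨fun _ => Classical.arbitrary Ω, by simp⟩⟩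
  obtain ⟨v, ⟨e0, he0, hv0⟩, hdeg⟩ := exists_low_degree hT0 hne
  let s : E → V := fun e => if s0 e = v then t0 e else s0 e
  let t : E → V := fun e => if s0 e = v then s0 e else t0 e
  have hfl : ∀ e, (s e = s0 e ∧ t e = t0 e) ∨ (s e = t0 e ∧ t e = s0 e) := by
    intro e
    by_cases c : s0 e = v
    · right; simp [s, t, c]
    · left; simp [s, t, c]
  have hT : Sparse T s t := fun X hX => by rw [cnt_flip hfl]; exact hT0 X hX
  suffices h : ∃ T1 T2 : Finset E, T ⊆ T1 ∪ T2 ∧ T1 ⊆ T ∧ T2 ⊆ T ∧ Free T1 s t ∧ Free T2 s t by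
    obtain ⟨T1, T2, a, b, c, d, e⟩ := h
    exact ⟨T1, T2, a, b, c, d.flip hfl, e.flip hfl⟩
  have hs : ∀ e ∈ T, s e ≠ v := by
    intro e he h
    have h1 : s0 e = v ∧ t0 e = v := by
      by_cases c : s0 e = v
      · exact ⟨c, by simpa [s, c] using h⟩
      · simp [s, c] at h
    have := hT0 {v} (singleton_nonempty v)
    have h2 : 0 < cnt T s0 t0 {v} :=
      card_pos.2 ⟨e, mem_filter.2 ⟨he, by simp [h1.1], by simp [h1.2]⟩⟩
    rw [card_singleton] at this
    omega
  let D : Finset E := T.filter fun e => t e = v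
  let T0 : Finset E := T.filter fun e => t e ≠ v
  have hD3 : D.card ≤ 3 := by
    refine le_trans (card_le_card ?_) ((card_union_le _ _).trans hdeg)
    intro e he
    rw [mem_filter] at he
    rw [mem_union, mem_filter, mem_filter]
    by_cases c : s0 e = v
    · exact Or.inl ⟨he.1, c⟩
    · exact Or.inr ⟨he.1, by simpa [t, c] using he.2⟩
  have hD0 : e0 ∈ D := by
    refine mem_filter.2 ⟨he0, ?_⟩
    by_cases c : s0 e0 = v
    · simp [t, c]
    · simpa [t, c] using hv0.resolve_left c
  have hcard : D.card + T0.card = T.card := card_filter_add_card_filter_not _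
  have hT0sub : T0 ⊆ T := filter_subset _ _
  have hT0sp : Sparse T0 s t := fun X hX =>
    le_trans (Nat.add_le_add_right (cnt_mono s t hT0sub X) 2) (hT X hX)
  have hT0v : ∀ e ∈ T0, s e ≠ v ∧ t e ≠ v := fun e he =>
    ⟨hs e (hT0sub he), (mem_filter.1 he).2⟩
  have hDT : ∀ e ∈ D, e ∈ T ∧ t e = v ∧ e ∉ T0 := fun e he =>
    ⟨(mem_filter.1 he).1, (mem_filter.1 he).2, fun h => (mem_filter.1 h).2 (mem_filter.1 he).2⟩
  have hsplit : ∀ e ∈ T, e ∈ D ∨ e ∈ T0 := fun e he => by
    by_cases c : t e = v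
    · exact Or.inl (mem_filter.2 ⟨he, c⟩)
    · exact Or.inr (mem_filter.2 ⟨he, c⟩)
  by_cases h2 : D.card ≤ 2
  · -- at most two edges at `v`
    obtain ⟨e1, m1, hcov⟩ : ∃ e1 ∈ D, ∀ e ∈ D, e = e0 ∨ e = e1 := by
      have hc : (D.erase e0).card ≤ 1 := by rw [card_erase_of_mem hD0]; omega
      rcases (D.erase e0).eq_empty_or_nonempty with h | ⟨e1, h⟩
      · refine ⟨e0, hD0, fun e he => Or.inl ?_⟩
        by_contra c
        have : e ∈ D.erase e0 := mem_erase.2 ⟨c, he⟩
        rw [h] at this
        simp at this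
      · refine ⟨e1, mem_of_mem_erase h, fun e he => ?_⟩
        by_cases c : e = e0
        · exact Or.inl c
        · exact Or.inr (card_le_one.1 hc _ (mem_erase.2 ⟨c, he⟩) _ h)
    have hpos : 0 < D.card := card_pos.2 ⟨e0, hD0⟩
    obtain ⟨T1, T2, a, b, c, d, e⟩ := ih T0.card (by omega) T0 s t rfl hT0sp
    refine ⟨insert e0 T1, insert e1 T2, ?_, insert_subset he0 (b.trans hT0sub),
      insert_subset (hDT _ m1).1 (c.trans hT0sub),
      d.pendant (fun e he => hT0v e (b he)) (hDT _ hD0).2.1 (hs _ he0),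
      e.pendant (fun e he => hT0v e (c he)) (hDT _ m1).2.1 (hs _ (hDT _ m1).1)⟩
    intro x hx
    rcases hsplit x hx with h | h
    · rcases hcov x h with rfl | rfl <;> simp
    · rcases mem_union.1 (a h) with h | h <;> simp [h]
  · obtain ⟨e1, e2, e3, n12, n13, n23, hD⟩ := card_eq_three.1 (show D.card = 3 by omega)
    have main : ∀ e1 e2 e3 : E, e1 ≠ e2 → e1 ∈ D → e2 ∈ D → e3 ∈ D →
        (∀ e ∈ D, e = e1 ∨ e = e2 ∨ e = e3) →
        Sparse (insert e1 T0) s (Function.update t e1 (s e2)) →
        ∃ T1 T2 : Finset E, T ⊆ T1 ∪ T2 ∧ T1 ⊆ T ∧ T2 ⊆ T ∧ Free T1 s t ∧ Free T2 s t := by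
      intro e1 e2 e3 n12 m1 m2 m3 hcov hsp
      have hc : (insert e1 T0).card < n := by
        have := card_insert_le e1 T0
        omega
      obtain ⟨T1, T2, a, b, c, d, e⟩ := ih _ hc _ _ _ rfl hsp
      have hsub : insert e1 T0 ⊆ T := insert_subset (hDT _ m1).1 hT0sub
      have key : ∀ T1 T2 : Finset E, insert e1 T0 ⊆ T1 ∪ T2 → T1 ⊆ insert e1 T0 →
          T2 ⊆ insert e1 T0 → Free T1 s (Function.update t e1 (s e2)) →
          Free T2 s (Function.update t e1 (s e2)) → e1 ∈ T1 →
          ∃ T1 T2 : Finset E, T ⊆ T1 ∪ T2 ∧ T1 ⊆ T ∧ T2 ⊆ T ∧ Free T1 s t ∧ Free T2 s t := by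
        intro T1 T2 a b c d e m
        have hT2 : ∀ x ∈ T2.erase e1, x ∈ T0 := fun x hx =>
          (mem_insert.1 (c (mem_of_mem_erase hx))).resolve_left (ne_of_mem_erase hx)
        have f2 : Free (T2.erase e1) s t := by
          intro Ω _ β
          obtain ⟨x, hx⟩ := e Ω β
          refine ⟨x, fun y hy => ?_⟩
          have := hx y (mem_of_mem_erase hy)
          rwa [Function.update_of_ne (ne_of_mem_erase hy)] at this
        refine ⟨insert e2 T1, insert e3 (T2.erase e1), ?_,
          insert_subset (hDT _ m2).1 (b.trans hsub),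
          insert_subset (hDT _ m3).1 (fun x hx => hT0sub (hT2 x hx)),
          d.subdiv m n12.symm (fun x hx => hs x (hsub (b hx)))
            (fun x hx hne => (hT0v x ((mem_insert.1 (b hx)).resolve_left hne)).2)
            (hDT _ m1).2.1 (hDT _ m2).2.1 (hs _ (hDT _ m2).1),
          f2.pendant (fun x hx => hT0v x (hT2 x hx)) (hDT _ m3).2.1 (hs _ (hDT _ m3).1)⟩
        intro x hx
        rcases hsplit x hx with h | h
        · rcases hcov x h with rfl | rfl | rfl <;> simp [m]
        · have hne : x ≠ e1 := fun hh => (hDT _ m1).2.2 (hh ▸ h)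
          rcases mem_union.1 (a (mem_insert_of_mem h)) with h | h <;> simp [h, hne]
      rcases mem_union.1 (a (mem_insert_self _ _)) with m | m
      · exact key T1 T2 a b c d e m
      · exact key T2 T1 (by rwa [union_comm]) c b e d m
    have m1 : e1 ∈ D := by simp [hD]
    have m2 : e2 ∈ D := by simp [hD]
    have m3 : e3 ∈ D := by simp [hD]
    by_cases c1 : Sparse (insert e1 T0) s (Function.update t e1 (s e2))
    · exact main e1 e2 e3 n12 m1 m2 m3 (fun e he => by simpa [hD] using he) c1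
    by_cases c3 : Sparse (insert e3 T0) s (Function.update t e3 (s e2))
    · refine main e3 e2 e1 n23.symm m3 m2 m1 (fun e he => ?_) c3
      simp only [hD, mem_insert, mem_singleton] at he
      tauto
    exfalso
    obtain ⟨X, vX, aX, bX, hX⟩ := tight_of_not_sparse hT0sp hT0v (hDT _ m1).2.2
      (hs _ (hDT _ m1).1) (hs _ (hDT _ m2).1) c1
    obtain ⟨Y, vY, aY, bY, hY⟩ := tight_of_not_sparse hT0sp hT0v (hDT _ m3).2.2
      (hs _ (hDT _ m3).1) (hs _ (hDT _ m2).1) c3
    have g1 := cnt_supermod T0 s t X Y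
    have g2 := hT0sp (X ∩ Y) ⟨s e2, mem_inter.2 ⟨bX, bY⟩⟩
    have g3 := card_union_add_card_inter X Y
    have g4 := hT (insert v (X ∪ Y)) (insert_nonempty _ _)
    have g5 : (insert v (X ∪ Y)).card = (X ∪ Y).card + 1 :=
      card_insert_of_notMem (by simp [vX, vY])
    have g6 : D.card + cnt T0 s t (X ∪ Y) ≤ cnt T s t (insert v (X ∪ Y)) := by
      unfold cnt
      rw [← card_union_of_disjoint]
      · refine card_le_card fun e he => ?_
        rcases mem_union.1 he with h | h
        · refine mem_filter.2 ⟨(hDT _ h).1, ?_, by simp [(hDT _ h).2.1]⟩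
          simp only [hD, mem_insert, mem_singleton] at h
          rcases h with rfl | rfl | rfl <;> simp [aX, bX, aY]
        · rw [mem_filter] at h ⊢
          exact ⟨hT0sub h.1, mem_insert_of_mem h.2.1, mem_insert_of_mem h.2.2⟩
      · rw [disjoint_left]
        intro e he h
        exact (hDT _ he).2.2 (mem_filter.1 h).1
    omega

end Pool.Agent.P.MP_8972a1_co
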