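import Mathlib

/-!
The square grid over `ZMod 2`: jumps of functions on unit squares, rays, and the abstract
Whitney dual of a graph given as a minor of the grid.
-/

set_option autoImplicit false

namespace Pool.Agent.P.MP_8972a1_co

open Finset

/-- Edges of the grid: a base point and a direction (false horizontal, true vertical). -/
abbrev GE := (ℤ × ℤ) × Bool

/-- Far end of a grid edge. -/
def gtgt (d : GE) : ℤ × ℤ := if d.2 then (d.1.1, d.1.2 + 1) else (d.1.1 + 1, d.1.2)

/-- The second unit square along a grid edge (the first one is `d.1`). -/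
def gside (d : GE) : ℤ × ℤ := if d.2 then (d.1.1 - 1, d.1.2) else (d.1.1, d.1.2 - 1)

/-- Jump of a function on squares across a grid edge. -/
def jump (σ : ℤ × ℤ → ZMod 2) (d : GE) : ZMod 2 := σ d.1 + σ (gside d)

/-- Indicator of the upward vertical ray from `q`. -/
def ray (q : ℤ × ℤ) (d : GE) : ZMod 2 :=
  if d.2 = true ∧ d.1.1 = q.1 ∧ q.2 ≤ d.1.2 then 1 else 0

lemma two_zero (a : ZMod 2) : a + a = 0 := by
  revert a; decide

lemma single_pot (d : GE) : ∃ σ : ℤ × ℤ → ZMod 2,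
    ∀ d', jump σ d' = ray d.1 d' + ray (gtgt d) d' + (if d' = d then 1 else 0) := by
  obtain ⟨⟨i, k⟩, b⟩ := d
  cases b
  · refine ⟨fun s => if s.1 = i ∧ k ≤ s.2 then 1 else 0, ?_⟩
    rintro ⟨⟨a, c⟩, b'⟩
    cases b' <;> simp only [jump, gside, ray, gtgt, Prod.mk.injEq, Bool.false_eq_true,
      Bool.true_eq_false, if_false, if_true, false_and, true_and, and_true, and_false] <;>
      split_ifs <;> first | rfl | omega
  · refine ⟨fun _ => 0, ?_⟩
    rintro ⟨⟨a, c⟩, b'⟩
    cases b' <;> simp only [jump, ray, gtgt, Prod.mk.injEq, Bool.false_eq_true,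
      if_false, if_true, false_and, true_and, and_true, and_false] <;>
      (try split_ifs) <;> first | rfl | omega

/-- Sum of an edge function over the four grid edges at a point. -/
def gdiv (x : GE → ZMod 2) (q : ℤ × ℤ) : ZMod 2 :=
  x (q, false) + x ((q.1 - 1, q.2), false) + (x (q, true) + x ((q.1, q.2 - 1), true))

lemma gdiv_jump (σ : ℤ × ℤ → ZMod 2) (q : ℤ × ℤ) : gdiv (jump σ) q = 0 := by
  obtain ⟨a, b⟩ := q
  simp only [gdiv, jump, gside, Bool.false_eq_true, if_false, if_true]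
  generalize σ (a, b) = x1
  generalize σ (a, b - 1) = x2
  generalize σ (a - 1, b) = x3
  generalize σ (a - 1, b - 1) = x4
  revert x1 x2 x3 x4
  decide

lemma sum_shift (B : Finset (ℤ × ℤ)) (y : ℤ × ℤ → ZMod 2) (τ : (ℤ × ℤ) ≃ (ℤ × ℤ))
    (h : ∀ q, y q ≠ 0 → (q ∈ B ↔ τ.symm q ∈ B)) :
    ∑ q ∈ B, (y q + y (τ q)) = 0 := by
  rw [sum_add_distrib]
  have : ∑ q ∈ B, y (τ q) = ∑ q ∈ B, y q := by
    rw [← sum_filter_ne_zero B, ← sum_filter_ne_zero B (f := y)]
    refine sum_bij (fun q _ => τ q) ?_ ?_ ?_ ?_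
    · intro q hq
      rw [mem_filter] at hq ⊢
      refine ⟨(h _ hq.2).2 (by simpa using hq.1), hq.2⟩
    · intro a _ b _ hab
      exact τ.injective hab
    · intro q hq
      rw [mem_filter] at hq
      refine ⟨τ.symm q, ?_, by simp⟩
      rw [mem_filter]
      exact ⟨(h _ hq.2).1 hq.1, by simpa using hq.2⟩
    · intro q _
      rfl
  rw [this, two_zero]

/-- An edge function that lives on edges with both or no ends in `B` has total divergence zero
on `B`. -/
lemma sum_gdiv_inner (B : Finset (ℤ × ℤ)) (y : GE → ZMod 2)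
    (h : ∀ d, y d ≠ 0 → (d.1 ∈ B ↔ gtgt d ∈ B)) : ∑ q ∈ B, gdiv y q = 0 := by
  unfold gdiv
  rw [sum_add_distrib]
  have h1 := sum_shift B (fun q => y (q, false))
    ⟨fun q => (q.1 - 1, q.2), fun q => (q.1 + 1, q.2), fun q => by simp, fun q => by simp⟩
    (fun q hq => by simpa [gtgt] using h (q, false) hq)
  have h2 := sum_shift B (fun q => y (q, true))
    ⟨fun q => (q.1, q.2 - 1), fun q => (q.1, q.2 + 1), fun q => by simp, fun q => by simp⟩
    (fun q hq => by simpa [gtgt] using h (q, true) hq)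
  simp only [Equiv.coe_fn_mk] at h1 h2
  rw [h1, h2, add_zero]

lemma gdiv_single (d : GE) (q : ℤ × ℤ) :
    gdiv (fun d' => if d' = d then 1 else 0) q =
      (if q = d.1 then 1 else 0) + (if q = gtgt d then 1 else 0) := by
  obtain ⟨⟨i, k⟩, b⟩ := d
  obtain ⟨a, c⟩ := q
  cases b <;> simp only [gdiv, gtgt, Prod.mk.injEq, Bool.false_eq_true,
      Bool.true_eq_false, if_false, if_true, and_true, and_false] <;>
      split_ifs <;> first | rfl | omega

lemma sum_gdiv_single (B : Finset (ℤ × ℤ)) (d : GE) :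
    ∑ q ∈ B, gdiv (fun d' => if d' = d then 1 else 0) q =
      (if d.1 ∈ B then 1 else 0) + (if gtgt d ∈ B then 1 else 0) := by
  simp only [gdiv_single, sum_add_distrib, sum_ite_eq']

/-- Adjacency of grid points. -/
def gadj (a b : ℤ × ℤ) : Prop :=
  ∃ d : GE, (d.1 = a ∧ gtgt d = b) ∨ (d.1 = b ∧ gtgt d = a)

/-- `Z` is an element of the cycle space of the multigraph with end maps `s`, `t`. -/
def IsCyc {V E : Type} [Fintype E] [DecidableEq V] (s t : E → V) (Z : E → ZMod 2) : Prop :=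
  ∀ v, ∑ e, Z e * ((if s e = v then 1 else 0) + (if t e = v then 1 else 0)) = 0

/-- A grid edge is inner when it does not leave or enter any branch set. -/
def Inner {V : Type} (B : V → Finset (ℤ × ℤ)) (d : GE) : Prop :=
  ∀ v, d.1 ∈ B v ↔ gtgt d ∈ B v

lemma conn_pot {V : Type} (B : V → Finset (ℤ × ℤ))
    (hdisj : ∀ u v q, q ∈ B u → q ∈ B v → u = v) (v : V) (p q : ℤ × ℤ)
    (h : Relation.ReflTransGen (fun a b => a ∈ B v ∧ b ∈ B v ∧ gadj a b) p q) :
    ∃ σ : ℤ × ℤ → ZMod 2, ∀ d, ¬ Inner B d → jump σ d = ray p d + ray q d := by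
  induction h with
  | refl => exact ⟨fun _ => 0, fun d _ => by simp [jump, two_zero]⟩
  | @tail a b _ hab ih =>
    obtain ⟨σ, hσ⟩ := ih
    obtain ⟨ha, hb, d0, hd0⟩ := hab
    obtain ⟨τ, hτ⟩ := single_pot d0
    have hin : Inner B d0 := by
      intro w
      rcases hd0 with ⟨h1, h2⟩ | ⟨h1, h2⟩
      · rw [h1, h2]
        exact ⟨fun h => hdisj v w a ha h ▸ hb, fun h => hdisj v w b hb h ▸ ha⟩
      · rw [h1, h2]
        exact ⟨fun h => hdisj v w b hb h ▸ ha, fun h => hdisj v w a ha h ▸ hb⟩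
    refine ⟨fun s => σ s + τ s, fun d hd => ?_⟩
    have hne : d ≠ d0 := fun h => hd (h ▸ hin)
    have e1 : jump (fun s => σ s + τ s) d = jump σ d + jump τ d := by
      simp only [jump]; ring
    rw [e1, hσ d hd, hτ d, if_neg hne]
    have := two_zero (ray a d)
    rcases hd0 with ⟨h1, h2⟩ | ⟨h1, h2⟩
    · rw [h1, h2]; linear_combination this
    · rw [h1, h2]; linear_combination this

/-- Whitney dual of a minor of the grid. -/
theorem dual_of_minor {V E : Type} [Fintype V] [Fintype E] [DecidableEq V] (s t : E → V)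
    (hloop : ∀ e, s e ≠ t e)
    (hsimple : ∀ e e', s(s e, t e) = s(s e', t e') → e = e')
    (B : V → Finset (ℤ × ℤ)) (hdisj : ∀ u v q, q ∈ B u → q ∈ B v → u = v)
    (p : V → ℤ × ℤ)
    (hconn : ∀ v, ∀ q ∈ B v,
      Relation.ReflTransGen (fun a b => a ∈ B v ∧ b ∈ B v ∧ gadj a b) (p v) q)
    (ε : E → GE)
    (hε : ∀ e, ((ε e).1 ∈ B (s e) ∧ gtgt (ε e) ∈ B (t e)) ∨
      ((ε e).1 ∈ B (t e) ∧ gtgt (ε e) ∈ B (s e))) :
    ∃ (F : Type) (l r : E → F), ∀ Z : E → ZMod 2,
      IsCyc s t Z ↔ ∃ S : F → ZMod 2, ∀ e, Z e = S (l e) + S (r e) := by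
  classical
  have hmem : ∀ e v, ((if (ε e).1 ∈ B v then 1 else 0) + (if gtgt (ε e) ∈ B v then 1 else 0)
      : ZMod 2) = (if s e = v then 1 else 0) + (if t e = v then 1 else 0) := by
    intro e v
    have key : ∀ q u, q ∈ B u → (q ∈ B v ↔ u = v) :=
      fun q u hq => ⟨fun h => hdisj u v q hq h, fun h => h ▸ hq⟩
    rcases hε e with ⟨h1, h2⟩ | ⟨h1, h2⟩
    · simp only [key _ _ h1, key _ _ h2]
    · simp only [key _ _ h1, key _ _ h2, add_comm]
  have hnot : ∀ e, ¬ Inner B (ε e) := by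
    intro e h
    rcases hε e with ⟨h1, h2⟩ | ⟨h1, h2⟩
    · exact hloop e (hdisj _ _ _ ((h _).1 h1) h2)
    · exact hloop e (hdisj _ _ _ h2 ((h _).1 h1))
  have hinj : Function.Injective ε := by
    intro e e' h
    apply hsimple
    rcases hε e with ⟨h1, h2⟩ | ⟨h1, h2⟩ <;> rcases hε e' with ⟨h3, h4⟩ | ⟨h3, h4⟩ <;>
      rw [← h] at h3 h4
    · rw [hdisj _ _ _ h1 h3, hdisj _ _ _ h2 h4]
    · rw [hdisj _ _ _ h1 h3, hdisj _ _ _ h2 h4, Sym2.eq_swap]
    · rw [hdisj _ _ _ h1 h3, hdisj _ _ _ h2 h4, Sym2.eq_swap]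
    · rw [hdisj _ _ _ h1 h3, hdisj _ _ _ h2 h4]
  have hσ : ∀ e, ∃ σ : ℤ × ℤ → ZMod 2, ∀ d, ¬ Inner B d →
      jump σ d = ray (p (s e)) d + ray (p (t e)) d + (if d = ε e then 1 else 0) := by
    intro e
    obtain ⟨τ, hτ⟩ := single_pot (ε e)
    rcases hε e with ⟨h1, h2⟩ | ⟨h1, h2⟩
    · obtain ⟨σ1, g1⟩ := conn_pot B hdisj _ _ _ (hconn _ _ h1)
      obtain ⟨σ2, g2⟩ := conn_pot B hdisj _ _ _ (hconn _ _ h2)
      refine ⟨fun x => σ1 x + σ2 x + τ x, fun d hd => ?_⟩
      have e1 : jump (fun x => σ1 x + σ2 x + τ x) d = jump σ1 d + jump σ2 d + jump τ d := by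
        simp only [jump]; ring
      rw [e1, g1 d hd, g2 d hd, hτ d]
      linear_combination two_zero (ray (ε e).1 d) + two_zero (ray (gtgt (ε e)) d)
    · obtain ⟨σ1, g1⟩ := conn_pot B hdisj _ _ _ (hconn _ _ h1)
      obtain ⟨σ2, g2⟩ := conn_pot B hdisj _ _ _ (hconn _ _ h2)
      refine ⟨fun x => σ1 x + σ2 x + τ x, fun d hd => ?_⟩
      have e1 : jump (fun x => σ1 x + σ2 x + τ x) d = jump σ1 d + jump σ2 d + jump τ d := by
        simp only [jump]; ring
      rw [e1, g1 d hd, g2 d hd, hτ d]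
      linear_combination two_zero (ray (ε e).1 d) + two_zero (ray (gtgt (ε e)) d)
  choose σ hσ using hσ
  -- the potential of a cycle
  have hS : ∀ Z : E → ZMod 2, IsCyc s t Z → ∀ d, ¬ Inner B d →
      jump (fun x => ∑ e, Z e * σ e x) d = ∑ e, Z e * (if d = ε e then 1 else 0) := by
    intro Z hZ d hd
    have e1 : jump (fun x => ∑ e, Z e * σ e x) d = ∑ e, Z e * jump (σ e) d := by
      simp only [jump, mul_add, sum_add_distrib]
    have e2 : ∑ e, Z e * (ray (p (s e)) d + ray (p (t e)) d) = 0 := by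
      have : ∀ e, Z e * (ray (p (s e)) d + ray (p (t e)) d) =
          ∑ v, ray (p v) d * (Z e * ((if s e = v then 1 else 0) + (if t e = v then 1 else 0))) := by
        intro e
        simp only [mul_add, mul_ite, mul_one, mul_zero, sum_add_distrib, sum_ite_eq, mem_univ,
          if_true]
        ring
      simp only [this]
      rw [sum_comm]
      refine sum_eq_zero fun v _ => ?_
      rw [← mul_sum, hZ v, mul_zero]
    rw [e1]
    simp only [hσ _ d hd, mul_add (Z _) (ray _ d + ray _ d), sum_add_distrib]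
    rw [e2, zero_add]
  let τ : ℤ × ℤ → ({Z : E → ZMod 2 // IsCyc s t Z} → ZMod 2) :=
    fun x Z => ∑ e, Z.1 e * σ e x
  refine ⟨{Z : E → ZMod 2 // IsCyc s t Z} → ZMod 2, fun e => τ (ε e).1,
    fun e => τ (gside (ε e)), fun Z => ⟨fun hZ => ⟨fun φ => φ ⟨Z, hZ⟩, fun e => ?_⟩, ?_⟩⟩
  · have := hS Z hZ (ε e) (hnot e)
    simp only [jump, hinj.eq_iff, mul_ite, mul_one, mul_zero, sum_ite_eq, mem_univ,
      if_true] at this
    exact this.symm
  · rintro ⟨S, hSZ⟩ v
    let x : GE → ZMod 2 := jump (fun q => S (τ q))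
    have hx : ∀ e, x (ε e) = Z e := fun e => (hSZ e).symm
    have hx0 : ∀ d, ¬ Inner B d → (∀ e, d ≠ ε e) → x d = 0 := by
      intro d hd hde
      have : τ d.1 = τ (gside d) := by
        funext W
        have := hS W.1 W.2 d hd
        simp only [hde, if_false, mul_zero, sum_const_zero, jump] at this
        have h2 := two_zero (τ (gside d) W)
        simp only [τ] at h2 ⊢
        linear_combination this - h2
      simp only [x, jump, this, two_zero]
    let y : GE → ZMod 2 := fun d => x d - ∑ e, Z e * (if d = ε e then 1 else 0)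
    have hy : ∑ q ∈ B v, gdiv y q = 0 := by
      apply sum_gdiv_inner
      intro d hd
      by_cases hin : Inner B d
      · exact hin v
      · exfalso
        apply hd
        by_cases hde : ∃ e, d = ε e
        · obtain ⟨e, rfl⟩ := hde
          simp only [y, hx, hinj.eq_iff, mul_ite, mul_one, mul_zero, sum_ite_eq, mem_univ,
            if_true, sub_self]
        · push Not at hde
          simp only [y, hx0 d hin hde, hde, if_false, mul_zero, sum_const_zero, sub_self]
    have hgy : ∀ q, gdiv y q =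
        gdiv x q - ∑ e, Z e * gdiv (fun d => if d = ε e then 1 else 0) q := by
      intro q
      simp only [gdiv, y, mul_add, sum_add_distrib]
      ring
    simp only [hgy, x, gdiv_jump, zero_sub, sum_neg_distrib, neg_eq_zero] at hy
    rw [sum_comm] at hy
    simp only [← mul_sum, sum_gdiv_single, hmem] at hy
    exact hy

end Pool.Agent.P.MP_8972a1_co
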