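import Pool.Agent.P.MP_8972a1_co.Steps
import Pool.Agent.P.MP_8972a1_co.Struct

/-!
The randomised Thomassen induction with seven colours.
-/

set_option autoImplicit false

namespace Pool.Agent.P.MP_8972a1_co

open Finset

variable {V : Type} [DecidableEq V] (G : SimpleGraph V) (σ : V → V → Equiv.Perm (Fin 7))

/-- The conclusion of the induction. -/
def Out (U A B : Finset V) (P : PS) (c w1 w2 : P.Ω → V → Fin 7) : Prop :=
  ∃ (Q : PS) (π : Q.Ω → P.Ω) (d : Q.Ω → V → Fin 7), Ext Q P π ∧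
    (∀ q, ∀ a ∈ A, d q a = c (π q) a) ∧
    (∀ q, ∀ u ∈ U, ∀ v ∈ U, G.Adj u v → ¬ (u ∈ A ∧ v ∈ A) → d q v ≠ σ u v (d q u)) ∧
    (∀ q, ∀ v ∈ B \ A, d q v ≠ w1 (π q) v ∧ d q v ≠ w2 (π q) v) ∧
    (∀ v ∈ U, Unif Q fun q => d q v) ∧
    ∀ v ∈ B \ A, ∀ x, Cap Q P π (fun q => d q v = x) (1 / 2)

/-- The statement proved by induction. -/
def Claim (U A B : Finset V) : Prop :=
  ∀ (P : PS) (c w1 w2 : P.Ω → V → Fin 7), (∀ a ∈ A, Unif P fun ω => c ω a) →
    (∀ v ∈ B \ A, UnifP P (fun ω => w1 ω v) fun ω => w2 ω v) → Out G σ U A B P c w1 w2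

variable {G σ}

omit [DecidableEq V] in
lemma flip_ne (hσ : ∀ u v, σ v u = (σ u v).symm) {u v : V} {x y : Fin 7} (h : y ≠ σ u v x) :
    x ≠ σ v u y := by
  intro k
  apply h
  rw [k, hσ u v, Equiv.apply_symm_apply]

open Classical in
lemma del (hσ : ∀ u v, σ v u = (σ u v).symm) {U A B : Finset V} {v : V} (hAB : A ⊆ B)
    (IH : Claim G σ (U.erase v) (A.erase v) ((B ∪ U.filter (G.Adj v)).erase v))
    (P : PS) (c w1 w2 : P.Ω → V → Fin 7) (hc : ∀ a ∈ A, Unif P fun ω => c ω a)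
    (hw : ∀ v ∈ B \ A, UnifP P (fun ω => w1 ω v) fun ω => w2 ω v)
    (P1 : PS) (π1 : P1.Ω → P.Ω) (r s : P1.Ω → Fin 7) (e1 : Ext P1 P π1) (hrs : UnifP P1 r s)
    (last : ∀ (Q : PS) (π : Q.Ω → P1.Ω) (d : Q.Ω → V → Fin 7), Ext Q P1 π →
      (∀ q, ∀ a ∈ A, a ≠ v → d q a = c (π1 (π q)) a) →
      (∀ u ∈ B \ A, u ≠ v → ∀ x, Cap Q P1 π (fun q => d q u = x) (1 / 2)) →
      ∃ (R : PS) (ρ : R.Ω → Q.Ω) (col : R.Ω → Fin 7), Ext R Q ρ ∧
        (∀ z, col z = r (π (ρ z)) ∨ col z = s (π (ρ z))) ∧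
        (∀ z, ∀ u ∈ B, G.Adj v u → ¬ (v ∈ A ∧ u ∈ A) → col z ≠ σ u v (d (ρ z) u)) ∧
        (v ∈ A → ∀ z, col z = c (π1 (π (ρ z))) v) ∧
        (v ∈ B \ A → (∀ z, col z ≠ w1 (π1 (π (ρ z))) v ∧ col z ≠ w2 (π1 (π (ρ z))) v) ∧
          ∀ x, Cap R P (fun z => π1 (π (ρ z))) (fun z => col z = x) (1 / 2)) ∧ Unif R col) :
    Out G σ U A B P c w1 w2 := by
  have mem : ∀ u ∈ B \ A, u ≠ v → u ∈ (B ∪ U.filter (G.Adj v)).erase v \ A.erase v := by
    intro u hu h
    rw [mem_sdiff] at hu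
    simp [h, hu.1, hu.2]
  obtain ⟨Q, π, d, k1, k2, k3, k4, k5, k6⟩ := IH P1 (fun ω => c (π1 ω))
    (fun ω u => if u ∈ B then w1 (π1 ω) u else σ v u (r ω))
    (fun ω u => if u ∈ B then w2 (π1 ω) u else σ v u (s ω))
    (fun a ha => (hc a (mem_of_mem_erase ha)).up e1) (fun u hu => by
      by_cases h : u ∈ B
      · simp only [h, if_true]
        rw [mem_sdiff, mem_erase, mem_erase] at hu
        exact (hw u (mem_sdiff.2 ⟨h, fun k => hu.2 ⟨hu.1.1, k⟩⟩)).up e1
      · simp only [h, if_false]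
        exact hrs.perm _)
  obtain ⟨R, ρ, col, l1, l2, l3, l4, l5, l6⟩ := last Q π d k1
    (fun q a ha h => k2 q a (mem_erase.2 ⟨h, ha⟩)) (fun u hu h => k6 u (mem u hu h))
  have edge : ∀ z, ∀ u ∈ U, G.Adj v u → ¬ (v ∈ A ∧ u ∈ A) → col z ≠ σ u v (d (ρ z) u) := by
    intro z u hu e hA
    by_cases h : u ∈ B
    · exact l3 z u h e hA
    · have := k4 (ρ z) u (by
        have : u ∉ A := fun k => h (hAB k)
        simp [e.ne', hu, e, this])
      simp only [h, if_false] at this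
      rcases l2 z with k | k <;> rw [k]
      · exact flip_ne hσ this.1
      · exact flip_ne hσ this.2
  refine ⟨R, fun z => π1 (π (ρ z)), fun z u => if u = v then col z else d (ρ z) u,
    (l1.trans k1).trans e1, fun z a ha => ?_, fun z u hu u' hu' e hA => ?_, fun z u hu => ?_,
    fun u hu => ?_, fun u hu x => ?_⟩
  · by_cases h : a = v
    · subst h
      simp only [if_true]
      exact l4 ha z
    · simp only [h, if_false]
      exact k2 _ a (mem_erase.2 ⟨h, ha⟩)
  · by_cases h : u = v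
    · subst h
      simp only [if_true, e.ne', if_false]
      exact flip_ne hσ (edge z u' hu' e hA)
    · by_cases h' : u' = v
      · subst h'
        simp only [if_true, h, if_false]
        exact edge z u hu e.symm fun k => hA k.symm
      · simp only [h, h', if_false]
        exact k3 _ u (mem_erase.2 ⟨h, hu⟩) u' (mem_erase.2 ⟨h', hu'⟩) e
          fun k => hA ⟨mem_of_mem_erase k.1, mem_of_mem_erase k.2⟩
  · by_cases h : u = v
    · subst h
      simp only [if_true]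
      exact (l5 hu).1 z
    · have := k4 (ρ z) u (mem u hu h)
      simpa only [h, if_false, (mem_sdiff.1 hu).1, if_true] using this
  · by_cases h : u = v
    · simpa only [h, if_true] using l6
    · simp only [h, if_false]
      exact (k5 u (mem_erase.2 ⟨h, hu⟩)).up l1
  · by_cases h : u = v
    · subst h
      simpa only [if_true] using (l5 hu).2 x
    · simp only [h, if_false]
      exact ((k6 u (mem u hu h) x).down e1).up l1

open Classical in
lemma Bd.del {U A B : Finset V} {Z Y : Set V} (H : Bd G U A B Z Y) {v : V} (hv : v ∈ B) :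
    ∃ Z' Y', Bd G (U.erase v) (A.erase v) ((B ∪ U.filter (G.Adj v)).erase v) Z' Y' := by
  have key : ∀ Y' : Set V, Y' ⊆ Y → Conn G (↑(A.erase v) ∪ Y') →
      Bd G (U.erase v) (A.erase v) ((B ∪ U.filter (G.Adj v)).erase v) ({v} ∪ Z) Y' := by
    intro Y' h1 h2
    refine ⟨erase_subset_erase _ (H.ab.trans subset_union_left),
      erase_subset_erase _ (union_subset H.bu (filter_subset _ _)),
      card_erase_le.trans H.two, H.zc.add fun s hs => ?_, fun u hu k => ?_, fun b hb => ?_,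
      fun u hu k => H.yu u (mem_of_mem_erase hu) (h1 k), Set.disjoint_left.2 fun u hu k => ?_, h2⟩
    · rw [hs]; exact H.zb v hv
    · rcases k with k | k
      · exact (mem_erase.1 hu).1 k
      · exact H.zu u (mem_of_mem_erase hu) k
    · rcases mem_union.1 (mem_of_mem_erase hb) with k | k
      · obtain ⟨z, hz, e⟩ := H.zb b k
        exact ⟨z, Or.inr hz, e⟩
      · exact ⟨v, Or.inl rfl, (mem_filter.1 k).2.symm⟩
    · rcases k with k | k
      · exact H.yu v (H.bu hv) ((k : u = v) ▸ h1 hu)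
      · exact Set.disjoint_left.1 H.yz (h1 hu) k
  by_cases h : v ∈ A
  · refine ⟨_, ∅, key ∅ (Set.empty_subset _) fun a ha b hb => ?_⟩
    have h1 : (A.erase v).card ≤ 1 := by
      have := H.two
      rw [card_erase_of_mem h]
      omega
    rw [Set.union_empty] at ha hb
    rw [card_le_one.1 h1 a ha b hb]
    exact Relation.ReflTransGen.refl
  · exact ⟨_, Y, key Y le_rfl (by rw [erase_eq_of_notMem h]; exact H.yc)⟩

lemma two_cover {A : Finset V} (h : A.card ≤ 2) (v : V) : ∃ a b, ∀ x ∈ A, x = a ∨ x = b := by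
  by_cases h1 : ∃ a ∈ A, ∃ b ∈ A, a ≠ b
  · obtain ⟨a, ha, b, hb, hab⟩ := h1
    refine ⟨a, b, fun x hx => ?_⟩
    by_contra k
    push Not at k
    have := two_lt_card.2 ⟨x, hx, a, ha, b, hb, k.1, k.2, hab⟩
    omega
  · push Not at h1
    rcases A.eq_empty_or_nonempty with rfl | ⟨a, ha⟩
    · exact ⟨v, v, by simp⟩
    · exact ⟨a, a, fun x hx => Or.inl (h1 x hx a ha)⟩

theorem claim (hK : ¬ KFive G) (hσ : ∀ u v, σ v u = (σ u v).symm) (n : ℕ) :
    ∀ (U A B : Finset V) (Z Y : Set V), Bd G U A B Z Y →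
      2 * U.card + (if A = ∅ then 1 else 0) ≤ n → Claim G σ U A B := by
  classical
  induction n using Nat.strong_induction_on with
  | _ n ih =>
  intro U A B Z Y H hn P c w1 w2 hc hw
  have IH : ∀ (U' A' B' : Finset V) (Z' Y' : Set V), Bd G U' A' B' Z' Y' → U'.card < U.card →
      Claim G σ U' A' B' := by
    intro U' A' B' Z' Y' H' h
    refine ih _ ?_ U' A' B' Z' Y' H' le_rfl
    split_ifs at hn ⊢ <;> omega
  have IHd : ∀ v ∈ B,
      Claim G σ (U.erase v) (A.erase v) ((B ∪ U.filter (G.Adj v)).erase v) := by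
    intro v hv
    obtain ⟨Z', Y', H'⟩ := H.del hv
    exact IH _ _ _ _ _ (by convert H') (card_erase_lt_of_mem (H.bu hv))
  rcases (B \ A).eq_empty_or_nonempty with hD | ⟨s0, hs0⟩
  · have hBA : ∀ u ∈ B, u ∈ A := fun u hu => sdiff_eq_empty_iff_subset.1 hD hu
    rcases A.eq_empty_or_nonempty with hA | ⟨v, hv⟩
    · have hB : ∀ u, u ∉ B := fun u hu => by simpa [hA] using hBA u hu
      rcases U.eq_empty_or_nonempty with hU | ⟨v, hv⟩
      · exact ⟨P, fun q => q, c, Ext.refl P, fun _ _ _ => rfl, by simp [hU], by simp [hD],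
          by simp [hU], by simp [hD]⟩
      obtain ⟨Q, π, r, e1, u1⟩ := step_new P
      obtain ⟨R, ρ, s, e2, u2⟩ := step_fresh u1
      refine del hσ H.ab (v := v) (by
        convert IH (U.erase v) (A.erase v) ((B ∪ U.filter (G.Adj v)).erase v) {v} ∅ ?_
          (card_erase_lt_of_mem hv)
        refine ⟨by simp [hA], erase_subset_erase _ (union_subset H.bu (filter_subset _ _)),
          by simp [hA], conn_single v, fun u hu => (mem_erase.1 hu).1, fun b hb => ?_,
          by simp, by simp, by simp [hA, Conn]⟩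
        rcases mem_union.1 (mem_of_mem_erase hb) with k | k
        · exact (hB b k).elim
        · exact ⟨v, rfl, (mem_filter.1 k).2.symm⟩)
        P c w1 w2 hc hw R _ _ s (e2.trans e1) u2 fun Q' π' d e _ _ => ?_
      exact ⟨Q', fun z => z, fun z => r (ρ (π' z)), Ext.refl _, fun _ => Or.inl rfl,
        fun _ u hu => (hB u hu).elim, by simp [hA], by simp [hD], u2.fst.up e⟩
    · obtain ⟨R, ρ, s, e2, u2⟩ := step_fresh (hc v hv)
      refine del hσ H.ab (v := v) (by convert IHd v (H.ab hv))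
        P c w1 w2 hc hw R _ _ s e2 u2 fun Q' π' d e _ _ => ?_
      exact ⟨Q', fun z => z, fun z => c (ρ (π' z)) v, Ext.refl _, fun _ => Or.inl rfl,
        fun _ u hu _ k => (k ⟨hv, hBA u hu⟩).elim, fun _ _ => rfl, by simp [hD], u2.fst.up e⟩
  rcases A.eq_empty_or_nonempty with hA | ⟨a0, ha0⟩
  · subst hA
    have u0 := hw s0 hs0
    obtain ⟨Q, π, r, e1, k1, k2, k3⟩ := step_root u0 u0.fst u0.fst
    have hs0' : s0 ∈ B := (mem_sdiff.1 hs0).1
    obtain ⟨R, ρ, d, l1, l2, l3, l4, l5, l6⟩ := ih (2 * U.card) (by simp at hn; omega) U {s0} B Z ∅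
      ⟨by simpa using hs0', H.bu, by simp, H.zc, H.zu, H.zb, by simp, by simp,
        by simpa using conn_single s0⟩ (by simp) Q (fun q _ => r q) (fun q => w1 (π q))
      (fun q => w2 (π q)) (fun _ _ => k2)
      (fun v hv => (hw v (by simpa using (mem_sdiff.1 hv).1)).up e1)
    have m : ∀ v ∈ B \ ∅, v ≠ s0 → v ∈ B \ {s0} := fun v hv h => by
      simpa [h] using hv
    refine ⟨R, fun z => π (ρ z), d, l1.trans e1, by simp, fun q u hu v hv e _ => ?_,
      fun q v hv => ?_, l5, fun v hv x => ?_⟩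
    · refine l3 q u hu v hv e fun k => e.ne ?_
      rw [mem_singleton.1 k.1, mem_singleton.1 k.2]
    · by_cases h : v = s0
      · subst h
        rw [l2 q v (mem_singleton_self _)]
        exact ⟨(k1 _).1, (k1 _).2.1⟩
      · exact l4 q v (m v hv h)
    · by_cases h : v = s0
      · subst h
        exact ((k3 x).up l1).congr fun q k => (l2 q v (mem_singleton_self _)).symm.trans k
      · exact (l6 v (m v hv h) x).down e1
  rcases struct_alt hK H ha0 hs0 with ⟨v, hv, hgood⟩ |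
    ⟨K, S, K', hAK, hKU, hSD, hSK, hS2, ⟨c0, c1, c2, c3⟩, hsep, hconn, hK'U, hK'Z⟩
  · have u0 := hw v hv
    have hvB := (mem_sdiff.1 hv).1
    have hvA := (mem_sdiff.1 hv).2
    let f : V → P.Ω → Fin 7 := fun a ω => if a ∈ A then σ a v (c ω a) else w1 ω v
    have hf : ∀ a, Unif P (f a) := fun a => by
      by_cases h : a ∈ A
      · exact ((hc a h).perm (σ a v)).congr fun ω => if_pos h
      · exact u0.fst.congr fun ω => if_neg h
    by_cases hroot : ∀ w ∈ B \ A, ¬ G.Adj v w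
    · obtain ⟨a, b, hab⟩ := two_cover H.two v
      obtain ⟨Q, π, r, e1, k1, k2, k3⟩ := step_root u0 (hf a) (hf b)
      obtain ⟨R, ρ, s, e2, u2⟩ := step_fresh k2
      refine del hσ H.ab (v := v) (by convert IHd v hvB)
        P c w1 w2 hc hw R _ _ s (e2.trans e1) u2 fun Q' π' d e l1 _ => ?_
      refine ⟨Q', fun z => z, fun z => r (ρ (π' z)), Ext.refl _, fun _ => Or.inl rfl,
        fun z u hu e' _ => ?_, fun k => (hvA k).elim,
        fun _ => ⟨fun z => ⟨(k1 _).1, (k1 _).2.1⟩, fun x => ((k3 x).up e2).up e⟩, u2.fst.up e⟩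
      have hu' : u ∈ A := by
        by_contra k
        exact hroot u (mem_sdiff.2 ⟨hu, k⟩) e'
      rw [l1 z u hu' e'.ne']
      have := k1 (ρ (π' z))
      rcases hab u hu' with rfl | rfl
      · simpa only [f, hu', if_true] using this.2.2.1
      · simpa only [f, hu', if_true] using this.2.2.2
    · obtain ⟨⟨w, hwD, hw1⟩, hA1⟩ := hgood.resolve_left hroot
      have hwv : w ≠ v := by
        push Not at hroot
        obtain ⟨w', h1, h2⟩ := hroot
        rw [← hw1 w' h1 h2]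
        exact h2.ne'
      obtain ⟨a, ha⟩ : ∃ a, ∀ x ∈ A, G.Adj v x → x = a := by
        by_cases h : ∃ a ∈ A, G.Adj v a
        · obtain ⟨a, h1, h2⟩ := h
          exact ⟨a, fun x k1 k2 => hA1 x k1 a h1 k2 h2⟩
        · exact ⟨v, fun x k1 k2 => (h ⟨x, k1, k2⟩).elim⟩
      obtain ⟨Q, π, r, s, e1, k1, k2, k3, k4⟩ := step_reg u0 (hf a)
      refine del hσ H.ab (v := v) (by convert IHd v hvB)
        P c w1 w2 hc hw Q _ r s e1 k4 fun Q' π' d e l1 l2 => ?_
      obtain ⟨R, ρ, col, m1, m2, m3, m4⟩ := step_last e k3 k4 (z := fun q => σ w v (d q w))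
        fun x => (l2 w hwD hwv ((σ w v).symm x)).congr fun q k => (Equiv.eq_symm_apply _).2 k
      have av : ∀ z, col z ≠ w1 (π (π' (ρ z))) v ∧ col z ≠ w2 (π (π' (ρ z))) v ∧
          col z ≠ f a (π (π' (ρ z))) := fun z => by
        rcases (m2 z).2 with k | k <;> rw [k]
        · exact k1 _
        · exact k2 _
      refine ⟨R, ρ, col, m1, fun z => (m2 z).2, fun z u hu e' _ => ?_, fun k => (hvA k).elim,
        fun _ => ⟨fun z => ⟨(av z).1, (av z).2.1⟩, fun x => (m4 x).down e1⟩, m3⟩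
      by_cases hu' : u ∈ A
      · rw [l1 _ u hu' e'.ne']
        have := (av z).2.2
        rw [← ha u hu' e'] at this
        simpa only [f, hu', if_true] using this
      · rw [hw1 u (mem_sdiff.2 ⟨hu, hu'⟩) e']
        exact (m2 z).1
  · have hSB : ∀ s ∈ S, s ∈ B := fun s hs => (mem_sdiff.1 (hSD hs)).1
    have hSA : ∀ s ∈ S, s ∉ A := fun s hs => (mem_sdiff.1 (hSD hs)).2
    have h1U : K ∪ S ⊆ U := union_subset hKU fun s hs => H.bu (hSB s hs)
    obtain ⟨Q, π, d, k1, k2, k3, k4, k5, k6⟩ := IH (K ∪ S) A (B ∩ (K ∪ S)) Z Y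
      ⟨subset_inter H.ab (hAK.trans subset_union_left), inter_subset_right, H.two, H.zc,
        fun u hu => H.zu u (h1U hu), fun b hb => H.zb b (mem_inter.1 hb).1,
        fun u hu => H.yu u (h1U hu), H.yz, H.yc⟩
      (card_lt_card ⟨h1U, fun k => by simpa [c2, c3] using k c1⟩) P c w1 w2 hc
      (fun v hv => hw v (by
        rw [mem_sdiff, mem_inter] at hv
        exact mem_sdiff.2 ⟨hv.1.1, hv.2⟩))
    obtain ⟨R, ρ, d', l1, l2, l3, l4, l5, l6⟩ := IH (U \ K) S (B \ K) Z K'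
      ⟨fun s hs => mem_sdiff.2 ⟨hSB s hs, hSK s hs⟩, sdiff_subset_sdiff H.bu le_rfl, hS2, H.zc,
        fun u hu => H.zu u (mem_sdiff.1 hu).1, fun b hb => H.zb b (mem_sdiff.1 hb).1,
        fun u hu => hK'U u (mem_sdiff.1 hu).1 (mem_sdiff.1 hu).2, hK'Z, hconn⟩
      (card_lt_card ⟨sdiff_subset, fun k => (mem_sdiff.1 (k (hKU (hAK ha0)))).2 (hAK ha0)⟩)
      Q d (fun q => w1 (π q)) (fun q => w2 (π q)) (fun s hs => k5 s (mem_union_right _ hs))
      (fun v hv => (hw v (by
        rw [mem_sdiff, mem_sdiff] at hv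
        exact mem_sdiff.2 ⟨hv.1.1, fun k => hv.1.2 (hAK k)⟩)).up k1)
    have d1 : ∀ z, ∀ u ∈ K ∪ S, (if u ∈ K then d (ρ z) u else d' z u) = d (ρ z) u := by
      intro z u hu
      by_cases h : u ∈ K
      · exact if_pos h
      · rw [if_neg h, l2 z u ((mem_union.1 hu).resolve_left h)]
    have m1 : ∀ v ∈ B \ A, v ∈ K ∪ S → v ∈ (B ∩ (K ∪ S)) \ A := fun v hv h =>
      mem_sdiff.2 ⟨mem_inter.2 ⟨(mem_sdiff.1 hv).1, h⟩, (mem_sdiff.1 hv).2⟩
    have m2 : ∀ v ∈ B \ A, v ∉ K ∪ S → v ∈ (B \ K) \ S := fun v hv h =>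
      mem_sdiff.2 ⟨mem_sdiff.2 ⟨(mem_sdiff.1 hv).1, fun k => h (mem_union_left _ k)⟩,
        fun k => h (mem_union_right _ k)⟩
    refine ⟨R, fun z => π (ρ z), fun z u => if u ∈ K then d (ρ z) u else d' z u, l1.trans k1,
      fun z a ha => (if_pos (hAK ha)).trans (k2 _ a ha), fun z u hu v hv e hA => ?_,
      fun z v hv => ?_, fun v hv => ?_, fun v hv x => ?_⟩
    · by_cases h : u ∈ K ∪ S ∧ v ∈ K ∪ S
      · simp only [d1 z u h.1, d1 z v h.2]
        exact k3 _ u h.1 v h.2 e hA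
      · have hu' : u ∉ K := fun k => h ⟨mem_union_left _ k, mem_union.2 (hsep u k v hv e)⟩
        have hv' : v ∉ K := fun k => h ⟨mem_union.2 (hsep v k u hu e.symm), mem_union_left _ k⟩
        simp only [hu', hv', if_false]
        exact l3 z u (mem_sdiff.2 ⟨hu, hu'⟩) v (mem_sdiff.2 ⟨hv, hv'⟩) e
          fun k => h ⟨mem_union_right _ k.1, mem_union_right _ k.2⟩
    · by_cases h : v ∈ K ∪ S
      · simp only [d1 z v h]
        exact k4 _ v (m1 v hv h)
      · simp only [if_neg fun k => h (mem_union_left _ k)]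
        exact l4 z v (m2 v hv h)
    · by_cases h : v ∈ K
      · simp only [h, if_true]
        exact (k5 v (mem_union_left _ h)).up l1
      · simp only [h, if_false]
        exact l5 v (mem_sdiff.2 ⟨hv, h⟩)
    · by_cases h : v ∈ K ∪ S
      · exact ((k6 v (m1 v hv h) x).up l1).congr fun z k => (d1 z v h).symm.trans k
      · simp only [if_neg fun k => h (mem_union_left _ k)]
        exact (l6 v (m2 v hv h) x).down k1

/-- Fractional packing for permutation covers of `K₅`-minor-free graphs. -/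
theorem seven_perm [Fintype V] (hK : ¬ KFive G) (hσ : ∀ u v, σ v u = (σ u v).symm) :
    ∃ (Q : PS) (d : Q.Ω → V → Fin 7), (∀ q u v, G.Adj u v → d q v ≠ σ u v (d q u)) ∧
      ∀ v, Unif Q fun q => d q v := by
  obtain ⟨Q, π, d, -, -, h3, -, h5, -⟩ := claim hK hσ _ univ ∅ ∅ ∅ ∅
    ⟨le_rfl, empty_subset _, by simp, by simp [Conn], by simp, by simp, by simp, by simp,
      by simp [Conn]⟩ le_rfl
    ⟨Unit, inferInstance, fun _ => 1, fun _ => zero_le_one, by simp⟩
    (fun _ _ => 0) (fun _ _ => 0) (fun _ _ => 0) (by simp) (by simp)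
  exact ⟨Q, d, fun q u v e => h3 q u (mem_univ _) v (mem_univ _) e (by simp),
    fun v => h5 v (mem_univ _)⟩

end Pool.Agent.P.MP_8972a1_co
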