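import Pool.Agent.P.MP_8972a1_co.Count
import Pool.Agent.P.MP_8972a1_co.Forest

/-!
Four disjoint colourings for every 4-fold cover of a union of two forests, and the application to
triangle-free planar graphs.
-/

set_option autoImplicit false

namespace Pool.Agent.P.MP_8972a1_co

open Finset

/-- Flip of the first coordinate. -/
def flip1 : Equiv.Perm (ZMod 2 × ZMod 2) :=
  ⟨fun w => (w.1 + 1, w.2), fun w => (w.1 + 1, w.2), by decide, by decide⟩

/-- Shift of the second coordinate by an amount depending on the first. -/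
def shear (a : ZMod 2 → ZMod 2) : Equiv.Perm (ZMod 2 × ZMod 2) :=
  ⟨fun w => (w.1, w.2 + a w.1), fun w => (w.1, w.2 + a w.1),
    fun w => by simp [add_assoc, two_zero], fun w => by simp [add_assoc, two_zero]⟩

lemma exists_shift (ρ : Equiv.Perm (ZMod 2 × ZMod 2)) : ∃ b : ZMod 2 → ZMod 2,
    ∀ w, (ρ w).1 = w.1 → (ρ w).2 + b w.1 ≠ w.2 := by
  have key : ∀ i : ZMod 2, ∃ b : ZMod 2, ∀ j, (ρ (i, j)).1 = i → (ρ (i, j)).2 + b ≠ j := by
    intro i
    have hne : ρ (i, 0) ≠ ρ (i, 1) := fun h => by simpa using ρ.injective h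
    have h2 : ∀ j : ZMod 2, j = 0 ∨ j = 1 := by decide
    suffices h : ∃ b : ZMod 2, ((ρ (i, 0)).1 = i → (ρ (i, 0)).2 + b ≠ 0) ∧
        ((ρ (i, 1)).1 = i → (ρ (i, 1)).2 + b ≠ 1) by
      obtain ⟨b, h0, h1⟩ := h
      refine ⟨b, fun j => ?_⟩
      rcases h2 j with rfl | rfl
      · exact h0
      · exact h1
    revert hne
    generalize ρ (i, 0) = x
    generalize ρ (i, 1) = y
    revert i x y
    decide
  choose b hb using key
  exact ⟨b, fun w => hb w.1 w.2⟩

theorem pack_of_two_free {V E : Type} (T1 T2 : Finset E) (s t : E → V)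
    (h1 : Free T1 s t) (h2 : Free T2 s t) (π : E → Equiv.Perm (ZMod 2 × ZMod 2)) :
    ∃ φ : V → Equiv.Perm (ZMod 2 × ZMod 2), ∀ e, e ∈ T1 ∨ e ∈ T2 → ∀ x,
      φ (t e) (π e x) ≠ φ (s e) x := by
  obtain ⟨ψ, hψ⟩ := h1 (Equiv.Perm (ZMod 2 × ZMod 2))
    (fun e => (Equiv.mulLeft flip1).trans (Equiv.mulRight (π e)⁻¹))
  choose b hb using fun e => exists_shift (ψ (t e) * π e * (ψ (s e))⁻¹)
  obtain ⟨a, ha⟩ := h2 (ZMod 2 → ZMod 2) (fun e => Equiv.addRight (b e))
  refine ⟨fun v => shear (a v) * ψ v, fun e he x h => ?_⟩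
  have e1 : (ψ (t e) (π e x)).1 = (ψ (s e) x).1 := (Prod.ext_iff.1 h).1
  have e2 : (ψ (t e) (π e x)).2 + a (t e) (ψ (t e) (π e x)).1 =
      (ψ (s e) x).2 + a (s e) (ψ (s e) x).1 := (Prod.ext_iff.1 h).2
  rcases he with he | he
  · rw [hψ e he] at e1
    simp [flip1] at e1
  · have := hb e (ψ (s e) x) (by simpa using e1)
    apply this
    rw [ha e he, e1] at e2
    simp only [Equiv.coe_addRight, Pi.add_apply] at e2
    simp only [Equiv.Perm.coe_mul, Function.comp_apply, Equiv.Perm.coe_inv,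
      Equiv.symm_apply_apply]
    linear_combination e2

theorem sparse_of_drawing {n : ℕ} (G : SimpleGraph (Fin n))
    (hG : ∃ f : Fin n → ℝ × ℝ, Function.Injective f ∧
        ∃ γ : ∀ u v : Fin n, Path (f u) (f v),
          (∀ u v, G.Adj u v → Function.Injective ⇑(γ u v)) ∧
          (∀ u v w, G.Adj u v → ∀ t, γ u v t = f w → w = u ∨ w = v) ∧
          (∀ u v u' v', G.Adj u v → G.Adj u' v' → s(u, v) ≠ s(u', v') →
            ∀ t t', γ u v t = γ u' v' t' → ∃ w, γ u v t = f w))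
    (htri : G.CliqueFree 3) (T : Finset (Fin n × Fin n))
    (hT : ∀ e ∈ T, e.1 < e.2 ∧ G.Adj e.1 e.2) : Sparse T Prod.fst Prod.snd := by
  classical
  obtain ⟨f, hf, γ, hinj, hvert, hcross⟩ := hG
  intro X hX
  let E := {e : Fin n × Fin n // e ∈ T.filter fun e => e.1 ∈ X ∧ e.2 ∈ X}
  let s : E → X := fun e => ⟨e.1.1, (mem_filter.1 e.2).2.1⟩
  let t : E → X := fun e => ⟨e.1.2, (mem_filter.1 e.2).2.2⟩
  have hE : ∀ e : E, e.1.1 < e.1.2 ∧ G.Adj e.1.1 e.1.2 := fun e => hT _ (mem_filter.1 e.2).1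
  have hloop : ∀ e, s e ≠ t e := fun e h => (hE e).1.ne (congrArg Subtype.val h)
  have hsimple' : ∀ e e' : E, s(e.1.1, e.1.2) = s(e'.1.1, e'.1.2) → e = e' := by
    intro e e' h
    have a := (hE e).1
    have b := (hE e').1
    rcases Sym2.eq_iff.1 h with ⟨h1, h2⟩ | ⟨h1, h2⟩
    · exact Subtype.ext (Prod.ext h1 h2)
    · rw [h1, h2] at a
      exact (lt_asymm a b).elim
  have hsimple : ∀ e e' : E, s(s e, t e) = s(s e', t e') → e = e' := by
    intro e e' h
    apply hsimple'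
    simpa [s, t] using congrArg (Sym2.map Subtype.val) h
  have hend : ∀ (e : E) τ w, γ e.1.1 e.1.2 τ = f w → τ = 0 ∨ τ = 1 := by
    intro e τ w h
    rcases hvert _ _ w (hE e).2 τ h with rfl | rfl
    · exact Or.inl (hinj _ _ (hE e).2 (h.trans (γ _ _).source.symm))
    · exact Or.inr (hinj _ _ (hE e).2 (h.trans (γ _ _).target.symm))
  obtain ⟨F, l, r, hdual⟩ := dual_of_drawing s t hloop hsimple (fun v : X => f v)
    (hf.comp Subtype.val_injective) (fun e => (γ e.1.1 e.1.2).toContinuousMap)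
    (fun e => (γ _ _).source) (fun e => (γ _ _).target) (fun e => hinj _ _ (hE e).2)
    (by
      intro e e' hne τ τ' h
      obtain ⟨w, hw⟩ := hcross _ _ _ _ (hE e).2 (hE e').2 (fun h => hne (hsimple' _ _ h)) τ τ' h
      exact ⟨hend e τ w hw, hend e' τ' w (h.symm.trans hw)⟩)
  have hadj : ∀ (e : E) (u v : X), s(s e, t e) = s(u, v) → G.Adj u v := by
    intro e u v h
    rcases Sym2.eq_iff.1 h with ⟨h1, h2⟩ | ⟨h1, h2⟩
    · rw [← h1, ← h2]; exact (hE e).2
    · rw [← h1, ← h2]; exact (hE e).2.symm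
  have : Nonempty X := hX.to_subtype
  have := count_of_dual s t l r hdual 4 (four_le_support s t hloop hsimple (by
    intro e1 e2 e3 u v x a b c
    exact htri {u.1, v.1, x.1}
      (SimpleGraph.is3Clique_triple_iff.2 ⟨hadj _ _ _ a, hadj _ _ _ b, hadj _ _ _ c⟩)))
  have hc : Fintype.card E = cnt T Prod.fst Prod.snd X := by
    unfold cnt
    rw [← Fintype.card_coe]
    exact Fintype.card_congr (Equiv.refl _)
  rw [hc, Fintype.card_coe] at this
  omega

theorem packing_four {n : ℕ} (G : SimpleGraph (Fin n))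
    (hG : ∃ f : Fin n → ℝ × ℝ, Function.Injective f ∧
        ∃ γ : ∀ u v : Fin n, Path (f u) (f v),
          (∀ u v, G.Adj u v → Function.Injective ⇑(γ u v)) ∧
          (∀ u v w, G.Adj u v → ∀ t, γ u v t = f w → w = u ∨ w = v) ∧
          (∀ u v u' v', G.Adj u v → G.Adj u' v' → s(u, v) ≠ s(u', v') →
            ∀ t t', γ u v t = γ u' v' t' → ∃ w, γ u v t = f w))
    (htri : G.CliqueFree 3) (L : Fin n → Finset ℕ) (hL : ∀ v, (L v).card = 4)
    (M : Fin n → Fin n → ℕ → ℕ → Prop) (hsymm : ∀ u v x y, M u v x y → M v u y x)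
    (hmatch : ∀ u v x y y', M u v x y → M u v x y' → y = y') :
    ∃ c : Fin 4 → Fin n → ℕ, (∀ i v, c i v ∈ L v) ∧
      (∀ i u v, G.Adj u v → ¬ M u v (c i u) (c i v)) ∧
      ∀ v, ∀ x ∈ L v, ∃! i, c i v = x := by
  classical
  let T : Finset (Fin n × Fin n) := univ.filter fun e => e.1 < e.2 ∧ G.Adj e.1 e.2
  obtain ⟨T1, T2, hcov, -, -, f1, f2⟩ := two_free _ T Prod.fst Prod.snd rfl
    (sparse_of_drawing G hG htri T fun e he => (mem_filter.1 he).2)
  have g : ∀ v, (ZMod 2 × ZMod 2) ≃ L v := fun v =>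
    Fintype.equivOfCardEq (by simp [hL v])
  have hπ : ∀ e : Fin n × Fin n, ∃ π : Equiv.Perm (ZMod 2 × ZMod 2),
      ∀ a b, M e.1 e.2 (g e.1 a) (g e.2 b) → π a = b := by
    intro e
    obtain ⟨σ, hσ⟩ := Equiv.Perm.exists_extending_pair
      (α := {p : (ZMod 2 × ZMod 2) × (ZMod 2 × ZMod 2) // M e.1 e.2 (g e.1 p.1) (g e.2 p.2)})
      (f := fun p => p.1.1) (g := fun p => p.1.2)
      (by
        rintro ⟨⟨a, b⟩, h⟩ ⟨⟨a', b'⟩, h'⟩ hh
        simp only at hh h h'
        subst hh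
        have := (g e.2).injective (Subtype.ext (hmatch _ _ _ _ _ h h'))
        subst this
        rfl)
      (by
        rintro ⟨⟨a, b⟩, h⟩ ⟨⟨a', b'⟩, h'⟩ hh
        simp only at hh h h'
        subst hh
        have := (g e.1).injective
          (Subtype.ext (hmatch _ _ _ _ _ (hsymm _ _ _ _ h) (hsymm _ _ _ _ h')))
        subst this
        rfl)
    exact ⟨σ, fun a b h => hσ ⟨(a, b), h⟩⟩
  choose π hπ using hπ
  obtain ⟨φ, hφ⟩ := pack_of_two_free T1 T2 Prod.fst Prod.snd f1 f2 π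
  have k : Fin 4 ≃ (ZMod 2 × ZMod 2) := Fintype.equivOfCardEq (by simp)
  have main : ∀ i u v, u < v → G.Adj u v →
      ¬ M u v (g u ((φ u).symm (k i))) (g v ((φ v).symm (k i))) := by
    intro i u v huv hadj h
    have m : (u, v) ∈ T := mem_filter.2 ⟨mem_univ _, huv, hadj⟩
    apply hφ (u, v) (mem_union.1 (hcov m)) ((φ u).symm (k i))
    rw [hπ (u, v) _ _ h]
    simp
  refine ⟨fun i v => g v ((φ v).symm (k i)), fun i v => (g v _).2, fun i u v hadj h => ?_,
    fun v x hx => ?_⟩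
  · rcases lt_or_gt_of_ne hadj.ne with c | c
    · exact main i u v c hadj h
    · exact main i v u c hadj.symm (hsymm _ _ _ _ h)
  · refine ⟨k.symm (φ v ((g v).symm ⟨x, hx⟩)), by simp, fun i hi => ?_⟩
    have : g v ((φ v).symm (k i)) = ⟨x, hx⟩ := Subtype.ext hi
    rw [← this]
    simp

end Pool.Agent.P.MP_8972a1_co
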