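import Mathlib

/-!
Finite probability spaces, extensions, and a capacitated Hall lemma.
-/

set_option autoImplicit false

namespace Pool.Agent.P.MP_8972a1_co

open Finset

/-- A finite probability space. -/
structure PS where
  Ω : Type
  fin : Fintype Ω
  μ : Ω → ℝ
  nn : ∀ ω, 0 ≤ μ ω
  tot : ∑ ω, μ ω = 1

attribute [instance] PS.fin

open Classical in
/-- Indicator of a proposition. -/
noncomputable def ind (p : Prop) : ℝ := if p then 1 else 0

lemma ind_pos {p : Prop} (h : p) : ind p = 1 := by simp [ind, h]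
lemma ind_neg {p : Prop} (h : ¬ p) : ind p = 0 := by simp [ind, h]
lemma ind_nn (p : Prop) : 0 ≤ ind p := by unfold ind; split_ifs <;> norm_num
lemma ind_le (p : Prop) : ind p ≤ 1 := by unfold ind; split_ifs <;> norm_num
lemma ind_congr {p q : Prop} (h : p ↔ q) : ind p = ind q := by rw [propext h]
lemma ind_and (p q : Prop) : ind (p ∧ q) = ind p * ind q := by
  by_cases hp : p <;> by_cases hq : q <;> simp [ind, hp, hq]
lemma ind_mono {p q : Prop} (h : p → q) : ind p ≤ ind q := by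
  by_cases hp : p
  · rw [ind_pos hp, ind_pos (h hp)]
  · rw [ind_neg hp]; exact ind_nn q

lemma sum_ind_eq {α : Type} [Fintype α] (a : α) (f : α → ℝ) :
    ∑ x, ind (a = x) * f x = f a := by
  classical
  rw [sum_eq_single a]
  · simp [ind]
  · intro b _ hb
    rw [ind_neg (Ne.symm hb), zero_mul]
  · simp

namespace PS

/-- Expectation. -/
noncomputable def ex (P : PS) (f : P.Ω → ℝ) : ℝ := ∑ ω, P.μ ω * f ω

/-- Probability. -/
noncomputable def pr (P : PS) (p : P.Ω → Prop) : ℝ := P.ex fun ω => ind (p ω)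

variable (P : PS)

lemma ex_mono {f g : P.Ω → ℝ} (h : ∀ ω, f ω ≤ g ω) : P.ex f ≤ P.ex g :=
  sum_le_sum fun ω _ => mul_le_mul_of_nonneg_left (h ω) (P.nn ω)

lemma ex_add (f g : P.Ω → ℝ) : P.ex (fun ω => f ω + g ω) = P.ex f + P.ex g := by
  simp only [ex, mul_add, sum_add_distrib]

lemma ex_sub (f g : P.Ω → ℝ) : P.ex (fun ω => f ω - g ω) = P.ex f - P.ex g := by
  simp only [ex, mul_sub, sum_sub_distrib]

lemma ex_mul (a : ℝ) (f : P.Ω → ℝ) : P.ex (fun ω => a * f ω) = a * P.ex f := by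
  simp only [ex, mul_sum]
  exact sum_congr rfl fun _ _ => by ring

lemma ex_const (a : ℝ) : P.ex (fun _ => a) = a := by
  simp only [ex, ← sum_mul, P.tot, one_mul]

lemma ex_sum {α : Type} (s : Finset α) (f : α → P.Ω → ℝ) :
    P.ex (fun ω => ∑ x ∈ s, f x ω) = ∑ x ∈ s, P.ex (f x) := by
  simp only [ex, mul_sum]
  exact sum_comm

lemma pr_mono {p q : P.Ω → Prop} (h : ∀ ω, p ω → q ω) : P.pr p ≤ P.pr q :=
  P.ex_mono fun ω => ind_mono (h ω)

lemma pr_congr {p q : P.Ω → Prop} (h : ∀ ω, p ω ↔ q ω) : P.pr p = P.pr q :=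
  le_antisymm (P.pr_mono fun ω => (h ω).1) (P.pr_mono fun ω => (h ω).2)

lemma pr_nn (p : P.Ω → Prop) : 0 ≤ P.pr p := by
  have := P.ex_mono (f := fun _ => 0) (g := fun ω => ind (p ω)) fun ω => ind_nn _
  rwa [ex_const] at this

lemma pr_true : P.pr (fun _ => True) = 1 := by
  simp only [pr, ind_pos trivial, ex_const]

lemma pr_false : P.pr (fun _ => False) = 0 := by
  simp only [pr, ind_neg not_false, ex_const]

/-- Splitting an expectation along a finite random variable. -/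
lemma ex_split {α : Type} [Fintype α] (g : P.Ω → α) (F : α → P.Ω → ℝ) :
    P.ex (fun ω => F (g ω) ω) = ∑ a, P.ex (fun ω => ind (g ω = a) * F a ω) := by
  rw [← ex_sum]
  congr 1
  funext ω
  rw [sum_ind_eq (g ω) (fun a => F a ω)]

lemma ex_comp {α : Type} [Fintype α] (g : P.Ω → α) (f : α → ℝ) :
    P.ex (fun ω => f (g ω)) = ∑ a, P.pr (fun ω => g ω = a) * f a := by
  rw [P.ex_split g (fun a _ => f a)]
  refine sum_congr rfl fun a _ => ?_
  rw [mul_comm, pr, ← ex_mul]
  congr 1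
  funext ω
  ring

lemma pr_split {α : Type} [Fintype α] (g : P.Ω → α) (p : α → P.Ω → Prop) :
    P.pr (fun ω => p (g ω) ω) = ∑ a, P.pr (fun ω => g ω = a ∧ p a ω) := by
  simp only [pr, ind_and]
  exact P.ex_split g fun a ω => ind (p a ω)

end PS

/-- `Q` extends `P` along `π`. -/
def Ext (Q P : PS) (π : Q.Ω → P.Ω) : Prop := ∀ ω, Q.pr (fun a => π a = ω) = P.μ ω

lemma Ext.ex {Q P : PS} {π : Q.Ω → P.Ω} (h : Ext Q P π) (f : P.Ω → ℝ) :
    Q.ex (fun a => f (π a)) = P.ex f := by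
  rw [Q.ex_comp π f]
  exact sum_congr rfl fun ω _ => by rw [h ω]

lemma Ext.pr {Q P : PS} {π : Q.Ω → P.Ω} (h : Ext Q P π) (p : P.Ω → Prop) :
    Q.pr (fun a => p (π a)) = P.pr p := h.ex fun ω => ind (p ω)

lemma Ext.trans {R Q P : PS} {ρ : R.Ω → Q.Ω} {π : Q.Ω → P.Ω} (h1 : Ext R Q ρ) (h2 : Ext Q P π) :
    Ext R P (fun a => π (ρ a)) := fun ω => (h1.pr fun b => π b = ω).trans (h2 ω)

lemma Ext.refl (P : PS) : Ext P P (fun a => a) := by
  intro ω
  simp only [PS.pr, PS.ex]
  rw [← sum_ind_eq ω P.μ]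
  exact sum_congr rfl fun a _ => by rw [mul_comm, ind_congr eq_comm]

/-- The event `q` has conditional probability at most `t` given the point of `P`. -/
def Cap (Q P : PS) (π : Q.Ω → P.Ω) (q : Q.Ω → Prop) (t : ℝ) : Prop :=
  ∀ ω, Q.pr (fun a => π a = ω ∧ q a) ≤ t * P.μ ω

lemma Cap.bound {Q P : PS} {π : Q.Ω → P.Ω} {q : Q.Ω → Prop} {t : ℝ} (h : Cap Q P π q t)
    (p : P.Ω → Prop) : Q.pr (fun a => p (π a) ∧ q a) ≤ t * P.pr p := by
  rw [Q.pr_split π (fun ω a => p ω ∧ q a), PS.pr, PS.ex, mul_sum]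
  refine sum_le_sum fun ω _ => ?_
  by_cases hp : p ω
  · rw [ind_pos hp, mul_one]
    exact le_trans (Q.pr_mono fun a ha => ⟨ha.1, ha.2.2⟩) (h ω)
  · rw [ind_neg hp, mul_zero, mul_zero, ← Q.pr_false]
    exact Q.pr_mono fun a ha => hp ha.2.1

lemma Cap.down {R Q P : PS} {ρ : R.Ω → Q.Ω} {π : Q.Ω → P.Ω} {q : R.Ω → Prop} {t : ℝ}
    (h : Cap R Q ρ q t) (h2 : Ext Q P π) : Cap R P (fun a => π (ρ a)) q t := by
  intro ω
  have := h.bound fun b => π b = ω
  rwa [h2 ω] at this

lemma Cap.up {R Q P : PS} {ρ : R.Ω → Q.Ω} {π : Q.Ω → P.Ω} {q : Q.Ω → Prop} {t : ℝ}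
    (h : Cap Q P π q t) (h1 : Ext R Q ρ) :
    Cap R P (fun a => π (ρ a)) (fun a => q (ρ a)) t := by
  intro ω
  rw [h1.pr fun b => π b = ω ∧ q b]
  exact h ω

lemma Cap.congr {Q P : PS} {π : Q.Ω → P.Ω} {q q' : Q.Ω → Prop} {t : ℝ} (h : Cap Q P π q t)
    (hq : ∀ a, q' a → q a) : Cap Q P π q' t :=
  fun ω => le_trans (Q.pr_mono fun a ha => ⟨ha.1, hq a ha.2⟩) (h ω)

/-- Capacitated Hall lemma, kernel form. -/
theorem hall_kernel {Ω C : Type} [Fintype Ω] [Fintype C] [DecidableEq C] (μ : Ω → ℝ)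
    (hμ : ∀ ω, 0 ≤ μ ω) (B : Ω → Finset C) (t : ℝ) (ht : 0 < t)
    (hB : ∀ ω, 1 ≤ t * ((univ \ B ω).card : ℝ)) (τ : C → ℝ) (hτ : ∑ x, τ x = ∑ ω, μ ω)
    (hall : ∀ X : Finset C, ∑ x ∈ X, τ x ≤ ∑ ω, μ ω * min 1 (t * ((X \ B ω).card : ℝ))) :
    ∃ f : Ω → C → ℝ, (∀ ω x, 0 ≤ f ω x ∧ f ω x ≤ t) ∧ (∀ ω, ∀ x ∈ B ω, f ω x = 0) ∧
      (∀ ω, ∑ x, f ω x = 1) ∧ ∀ x, ∑ ω, μ ω * f ω x = τ x := by
  classical
  let K : Set (Ω → C → ℝ) := {f | (∀ ω x, 0 ≤ f ω x ∧ f ω x ≤ t) ∧ (∀ ω, ∀ x ∈ B ω, f ω x = 0) ∧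
      (∀ ω, ∑ x, f ω x = 1)}
  have hKc : IsCompact K := by
    refine (isCompact_Icc (a := fun _ _ => (0 : ℝ)) (b := fun _ _ => t)).of_isClosed_subset ?_
      fun f hf => ⟨fun ω x => (hf.1 ω x).1, fun ω x => (hf.1 ω x).2⟩
    simp only [K, Set.ofPred_and, Set.ofPred_forall]
    refine IsClosed.inter (isClosed_iInter fun ω => isClosed_iInter fun x =>
      IsClosed.inter (isClosed_le (by fun_prop) (by fun_prop))
        (isClosed_le (by fun_prop) (by fun_prop))) (IsClosed.inter ?_ ?_)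
    · exact isClosed_iInter fun ω => isClosed_iInter fun x => isClosed_iInter fun _ =>
        isClosed_eq (by fun_prop) (by fun_prop)
    · exact isClosed_iInter fun ω => isClosed_eq (by fun_prop) (by fun_prop)
  have hne : K.Nonempty := by
    have hpos : ∀ ω, (0 : ℝ) < (univ \ B ω).card := fun ω => by
      by_contra h
      have := hB ω
      nlinarith
    refine ⟨fun ω x => if x ∈ B ω then 0 else 1 / ((univ \ B ω).card : ℝ), fun ω x => ?_,
      fun ω x hx => if_pos hx, fun ω => ?_⟩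
    · by_cases hx : x ∈ B ω
      · simp [hx, ht.le]
      · simp only [hx, if_false]
        exact ⟨by have := hpos ω; positivity, by rw [div_le_iff₀ (hpos ω)]; exact hB ω⟩
    · rw [sum_ite, sum_const_zero, zero_add, sum_const, nsmul_eq_mul]
      have : (univ.filter fun x => x ∉ B ω) = univ \ B ω := by ext x; simp
      rw [this]
      exact mul_one_div_cancel (hpos ω).ne'
  let e : (Ω → C → ℝ) → C → ℝ := fun f x => ∑ ω, μ ω * f ω x - τ x
  obtain ⟨f, hf, hmin⟩ := hKc.exists_isMinOn hne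
    (f := fun f => ∑ x, e f x ^ 2) (by simp only [e]; fun_prop)
  have shift : ∀ ω x y, 0 < μ ω → y ∉ B ω → e f y < e f x → f ω x = 0 ∨ f ω y = t := by
    intro ω x y hω hy hlt
    by_contra hno
    push Not at hno
    have hx0 : 0 < f ω x := lt_of_le_of_ne (hf.1 ω x).1 hno.1.symm
    have hyt : f ω y < t := lt_of_le_of_ne (hf.1 ω y).2 hno.2
    have hxy : x ≠ y := fun h => by rw [h] at hlt; exact lt_irrefl _ hlt
    have hxB : x ∉ B ω := fun h => hno.1 (hf.2.1 ω x h)
    obtain ⟨δ, hδ0, hδ1, hδ2, hδ3⟩ : ∃ δ : ℝ, 0 < δ ∧ δ ≤ f ω x ∧ δ ≤ t - f ω y ∧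
        μ ω * δ ≤ (e f x - e f y) / 2 := by
      refine ⟨min (f ω x) (min (t - f ω y) ((e f x - e f y) / 2 / μ ω)), ?_, min_le_left _ _,
        (min_le_right _ _).trans (min_le_left _ _), ?_⟩
      · have : 0 < e f x - e f y := by linarith
        exact lt_min hx0 (lt_min (by linarith) (by positivity))
      · rw [mul_comm, ← le_div_iff₀ hω]
        exact (min_le_right _ _).trans (min_le_right _ _)
    let d : C → ℝ := fun z => (if z = y then δ else 0) - (if z = x then δ else 0)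
    let g : Ω → C → ℝ := fun ω' z => f ω' z + if ω' = ω then d z else 0
    have hg : g ∈ K := by
      refine ⟨fun ω' z => ?_, fun ω' z hz => ?_, fun ω' => ?_⟩
      · have := hf.1 ω' z
        simp only [g, d]
        split_ifs with h1 h2 h3 h3
        · exact (hxy (h3.symm.trans h2)).elim
        · subst h1 h2; constructor <;> linarith [this.1]
        · subst h1 h3; constructor <;> linarith [this.2]
        · simpa using this
        · simpa using this
      · simp only [g, d]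
        rw [hf.2.1 ω' z hz]
        split_ifs with h1 h2 h3 h3
        · subst h1 h2; exact (hy hz).elim
        · subst h1 h2; exact (hy hz).elim
        · subst h1 h3; exact (hxB hz).elim
        · simp
        · simp
      · simp only [g, sum_add_distrib, hf.2.2 ω']
        split_ifs with h1
        · simp [d, sum_sub_distrib]
        · simp
    have he : ∀ z, e g z = e f z + μ ω * d z := by
      intro z
      simp only [e, g, mul_add, sum_add_distrib, mul_ite, mul_zero, sum_ite_eq', mem_univ, if_true]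
      ring
    have hle : ∑ z, e f z ^ 2 ≤ ∑ z, e g z ^ 2 := hmin hg
    have hsum : ∑ z, (e g z ^ 2 - e f z ^ 2) =
        (2 * e f y * (μ ω * δ) + (μ ω * δ) ^ 2) + (-2 * e f x * (μ ω * δ) + (μ ω * δ) ^ 2) := by
      rw [← sum_subset (subset_univ {y, x}), sum_pair hxy.symm]
      · simp only [he, d, if_true, if_neg hxy, if_neg hxy.symm]
        ring
      · intro z _ hz
        simp only [mem_insert, mem_singleton, not_or] at hz
        simp only [he, d, if_neg hz.1, if_neg hz.2]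
        ring
    rw [sum_sub_distrib] at hsum
    have hp : 0 < μ ω * δ := mul_pos hω hδ0
    nlinarith
  have hsum0 : ∑ x, e f x = 0 := by
    simp only [e, sum_sub_distrib, hτ]
    rw [sum_comm]
    simp only [← mul_sum, hf.2.2, mul_one, sub_self]
  have hnn : ∀ x, 0 ≤ e f x := by
    by_contra hno
    push Not at hno
    let X : Finset C := univ.filter fun x => e f x < 0
    have h1 : ∑ x ∈ X, e f x < 0 := by
      obtain ⟨x, hx⟩ := hno
      have := sum_lt_sum_of_nonempty (s := X) (f := fun x => e f x) (g := fun _ => 0)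
        ⟨x, by simpa [X] using hx⟩ fun y hy => (mem_filter.1 hy).2
      simpa using this
    have h2 : ∀ ω, μ ω * min 1 (t * ((X \ B ω).card : ℝ)) ≤ μ ω * ∑ x ∈ X, f ω x := by
      intro ω
      rcases (hμ ω).eq_or_lt with h0 | h0
      · rw [← h0]; simp
      refine mul_le_mul_of_nonneg_left ?_ h0.le
      by_cases hs : ∀ y ∈ X \ B ω, f ω y = t
      · refine (min_le_right _ _).trans ?_
        rw [mul_comm, ← nsmul_eq_mul, ← sum_const, ← sum_congr rfl hs]
        exact sum_le_sum_of_subset_of_nonneg sdiff_subset fun z _ _ => (hf.1 ω z).1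
      · push Not at hs
        obtain ⟨y, hy, hyt⟩ := hs
        rw [mem_sdiff] at hy
        refine (min_le_left _ _).trans ?_
        rw [← hf.2.2 ω]
        refine (sum_subset (subset_univ X) fun z _ hz => ?_).ge
        have hz' : 0 ≤ e f z := by simpa [X] using hz
        exact (shift ω z y h0 hy.2 (lt_of_lt_of_le (mem_filter.1 hy.1).2 hz')).resolve_right hyt
    have h3 := (hall X).trans (sum_le_sum fun ω _ => h2 ω)
    simp only [e, sum_sub_distrib] at h1
    rw [sum_comm] at h1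
    simp only [← mul_sum] at h1
    linarith
  refine ⟨f, hf.1, hf.2.1, hf.2.2, fun x => ?_⟩
  have := (sum_eq_zero_iff_of_nonneg fun x _ => hnn x).1 hsum0 x (mem_univ x)
  simp only [e] at this
  linarith

/-- Capacitated Hall lemma, fibred over `g`, as an extension of the probability space. -/
theorem hall_ext (P : PS) {Γ C : Type} [Fintype C] [DecidableEq C] (g : P.Ω → Γ)
    (B : P.Ω → Finset C) (t : ℝ) (ht : 0 < t)
    (hB : ∀ ω, 1 ≤ t * ((univ \ B ω).card : ℝ)) (τ : Γ → C → ℝ)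
    (hτ : ∀ γ, ∑ x, τ γ x = P.pr fun ω => g ω = γ)
    (hall : ∀ γ (X : Finset C), ∑ x ∈ X, τ γ x ≤
      P.ex fun ω => ind (g ω = γ) * min 1 (t * ((X \ B ω).card : ℝ))) :
    ∃ (Q : PS) (π : Q.Ω → P.Ω) (r : Q.Ω → C), Ext Q P π ∧ (∀ a, r a ∉ B (π a)) ∧
      (∀ γ x, Q.pr (fun a => g (π a) = γ ∧ r a = x) = τ γ x) ∧
      ∀ x, Cap Q P π (fun a => r a = x) t := by
  classical
  have key := fun γ => hall_kernel (fun ω => P.μ ω * ind (g ω = γ))
    (fun ω => mul_nonneg (P.nn ω) (ind_nn _)) B t ht hB (τ γ) (hτ γ)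
    (fun X => by simpa only [PS.ex, mul_assoc] using hall γ X)
  choose f hf1 hf2 hf3 hf4 using key
  have hsum : ∀ F : P.Ω × C → ℝ,
      ∑ a : {p : P.Ω × C // p.2 ∉ B p.1}, P.μ a.1.1 * f (g a.1.1) a.1.1 a.1.2 * F a.1 =
        ∑ ω, ∑ x, P.μ ω * f (g ω) ω x * F (ω, x) := by
    intro F
    rw [← Finset.sum_subtype (univ.filter fun p : P.Ω × C => p.2 ∉ B p.1) (by simp)
      (fun p : P.Ω × C => P.μ p.1 * f (g p.1) p.1 p.2 * F p)]
    rw [sum_filter, ← univ_product_univ, sum_product]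
    refine sum_congr rfl fun ω _ => sum_congr rfl fun x _ => ?_
    split_ifs with h
    · simp [hf2 _ ω x h]
    · rfl
  let Q : PS :=
    { Ω := {p : P.Ω × C // p.2 ∉ B p.1}
      fin := inferInstance
      μ := fun a => P.μ a.1.1 * f (g a.1.1) a.1.1 a.1.2
      nn := fun a => mul_nonneg (P.nn _) (hf1 _ _ _).1
      tot := by
        have := hsum fun _ => 1
        simp only [mul_one, ← mul_sum, hf3] at this
        rw [this, P.tot] }
  have hpt : ∀ ω x, Q.pr (fun a => a.1.1 = ω ∧ a.1.2 = x) = P.μ ω * f (g ω) ω x := by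
    intro ω x
    refine (hsum fun p => ind (p.1 = ω ∧ p.2 = x)).trans ?_
    rw [sum_eq_single ω, sum_eq_single x]
    · simp [ind]
    · intro y _ hy
      simp [ind, hy]
    · simp
    · intro ω' _ h
      simp [ind, h]
    · simp
  refine ⟨Q, fun a => a.1.1, fun a => a.1.2, fun ω => ?_, fun a => a.2, fun γ x => ?_,
    fun x ω => ?_⟩
  · rw [Q.pr_split (fun a => a.1.2) (fun _ a => a.1.1 = ω)]
    simp only [and_comm (b := _ = ω), hpt, ← mul_sum, hf3, mul_one]
  · rw [Q.pr_split (fun a => a.1.1) (fun ω a => g ω = γ ∧ a.1.2 = x), ← hf4 γ x]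
    refine sum_congr rfl fun ω _ => ?_
    by_cases h : g ω = γ
    · subst h
      rw [ind_pos rfl, mul_one, ← hpt]
      exact Q.pr_congr fun a => by simp
    · rw [ind_neg h, mul_zero, zero_mul, ← Q.pr_false]
      exact Q.pr_congr fun a => by simp [h]
  · rw [hpt, mul_comm]
    exact mul_le_mul_of_nonneg_right (hf1 _ _ _).2 (P.nn ω)

end Pool.Agent.P.MP_8972a1_co
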