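import Pool.Agent.P.MP_8972a1_co.Induct
import Pool.Agent.P.MP_8972a1_co.KFive

/-!
Fractional packings of seven-fold correspondence covers of `K₅`-minor-free graphs.
-/

set_option autoImplicit false

namespace Pool.Agent.P.MP_8972a1_co

open Finset

lemma Conn.connected {V : Type} {G : SimpleGraph V} {S : Set V} (h : Conn G S)
    (hne : S.Nonempty) : (G.induce S).Connected := by
  obtain ⟨a, ha⟩ := hne
  have key : ∀ b, Rch G S a b → ∀ hb : b ∈ S, (G.induce S).Reachable ⟨a, ha⟩ ⟨b, hb⟩ := by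
    intro b k
    induction k with
    | refl => exact fun _ => SimpleGraph.Reachable.refl _
    | @tail x y _ e ih =>
      exact fun hb => (ih e.1).trans (SimpleGraph.Adj.reachable (by simpa using e.2.2))
  exact @SimpleGraph.Connected.mk _ _
    (fun x y => (key x (h a ha x x.2) x.2).symm.trans (key y (h a ha y y.2) y.2)) ⟨⟨a, ha⟩⟩

lemma not_kfive {V : Type} {G : SimpleGraph V}
    (h : ¬ ∃ X : Fin 5 → Set V, (∀ i, (G.induce (X i)).Connected) ∧
      ∀ i j, i ≠ j → Disjoint (X i) (X j) ∧ ∃ a ∈ X i, ∃ b ∈ X j, G.Adj a b) : ¬ KFive G := by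
  rintro ⟨X, h1, h2⟩
  refine h ⟨X, fun i => (h1 i).connected ?_, h2⟩
  obtain ⟨j, hj⟩ := exists_ne i
  obtain ⟨_, _, v, hv, _⟩ := (h2 j i hj).2
  exact ⟨v, hv⟩

theorem seven {n : ℕ} (G : SimpleGraph (Fin n)) (hK : ¬ KFive G)
    (L : Fin n → Finset ℕ) (hL : ∀ v, (L v).card = 7)
    (M : Fin n → Fin n → ℕ → ℕ → Prop) (hsymm : ∀ u v x y, M u v x y → M v u y x)
    (hmatch : ∀ u v x y y', M u v x y → M u v x y' → y = y') :
    ∃ S : Finset (Fin n → ℕ), ∃ w : (Fin n → ℕ) → ℝ,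
      (∀ c ∈ S, (∀ v, c v ∈ L v) ∧ ∀ u v, G.Adj u v → ¬ M u v (c u) (c v)) ∧
      (∀ c ∈ S, 0 ≤ w c) ∧ S.sum w = 1 ∧
      ∀ v, ∀ x ∈ L v, (S.filter (fun c => c v = x)).sum w = (1 : ℝ) / 7 := by
  classical
  have g : ∀ v, Fin 7 ≃ L v := fun v => Fintype.equivOfCardEq (by simp [hL v])
  have hπ : ∀ u v : Fin n, ∃ π : Equiv.Perm (Fin 7),
      ∀ a b, M u v (g u a) (g v b) → π a = b := by
    intro u v
    obtain ⟨σ, hσ⟩ := Equiv.Perm.exists_extending_pair
      (α := {p : Fin 7 × Fin 7 // M u v (g u p.1) (g v p.2)})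
      (f := fun p => p.1.1) (g := fun p => p.1.2)
      (by
        rintro ⟨⟨a, b⟩, h⟩ ⟨⟨a', b'⟩, h'⟩ hh
        simp only at hh h h'
        subst hh
        have := (g v).injective (Subtype.ext (hmatch _ _ _ _ _ h h'))
        subst this
        rfl)
      (by
        rintro ⟨⟨a, b⟩, h⟩ ⟨⟨a', b'⟩, h'⟩ hh
        simp only at hh h h'
        subst hh
        have := (g u).injective
          (Subtype.ext (hmatch _ _ _ _ _ (hsymm _ _ _ _ h) (hsymm _ _ _ _ h')))
        subst this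
        rfl)
    exact ⟨σ, fun a b h => hσ ⟨(a, b), h⟩⟩
  choose π hπ using hπ
  let σ : Fin n → Fin n → Equiv.Perm (Fin 7) := fun u v =>
    if u < v then π u v else if v < u then (π v u).symm else Equiv.refl _
  have hσ : ∀ u v, σ v u = (σ u v).symm := by
    intro u v
    rcases lt_trichotomy u v with h | h | h
    · simp [σ, h, h.not_gt]
    · simp [σ, h]
    · simp [σ, h, h.not_gt]
  obtain ⟨Q, d, h1, h2⟩ := seven_perm hK hσ
  let col : Q.Ω → Fin n → ℕ := fun q v => g v (d q v)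
  refine ⟨univ.image col, fun c => Q.pr fun q => col q = c, fun c hc => ?_, fun c _ => Q.pr_nn _,
    ?_, fun v x hx => ?_⟩
  · obtain ⟨q, -, rfl⟩ := mem_image.1 hc
    refine ⟨fun v => (g v _).2, fun u v e k => h1 q u v e ?_⟩
    rcases lt_or_gt_of_ne e.ne with h | h
    · simp only [σ, h, if_true]
      exact (hπ u v _ _ k).symm
    · simp only [σ, h, h.not_gt, if_true, if_false]
      exact (Equiv.eq_symm_apply _).2 (hπ v u _ _ (hsymm _ _ _ _ k))
  · simp only [PS.pr]
    rw [← Q.ex_sum, ← Q.ex_const 1]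
    congr 1
    funext q
    rw [sum_eq_single_of_mem (col q) (mem_image_of_mem _ (mem_univ q))
      fun c _ hc => ind_neg (Ne.symm hc), ind_pos rfl]
  · simp only [PS.pr]
    rw [← Q.ex_sum, ← h2 v ((g v).symm ⟨x, hx⟩), PS.pr]
    congr 1
    funext q
    have : d q v = (g v).symm ⟨x, hx⟩ ↔ col q v = x := by
      rw [Equiv.eq_symm_apply, Subtype.ext_iff]
    rw [ind_congr this]
    by_cases k : col q v = x
    · rw [sum_eq_single_of_mem (col q) (mem_filter.2 ⟨mem_image_of_mem _ (mem_univ q), k⟩)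
        fun c _ hc => ind_neg (Ne.symm hc), ind_pos rfl, ind_pos k]
    · rw [ind_neg k]
      exact sum_eq_zero fun c hc => ind_neg fun e => k (e ▸ (mem_filter.1 hc).2)

end Pool.Agent.P.MP_8972a1_co
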