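import Pool.Agent.P.MP_8972a1_co.Prob

/-!
The local probabilistic steps for seven colours.
-/

set_option autoImplicit false

namespace Pool.Agent.P.MP_8972a1_co

open Finset

/-- A uniformly distributed colour. -/
def Unif (P : PS) (y : P.Ω → Fin 7) : Prop := ∀ x, P.pr (fun ω => y ω = x) = 1 / 7

/-- A uniformly distributed ordered pair of distinct colours. -/
def UnifP (P : PS) (a b : P.Ω → Fin 7) : Prop :=
  ∀ i j, P.pr (fun ω => a ω = i ∧ b ω = j) = if i = j then 0 else 1 / 42

lemma Unif.up {Q P : PS} {π : Q.Ω → P.Ω} {y : P.Ω → Fin 7} (h : Unif P y) (e : Ext Q P π) :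
    Unif Q fun a => y (π a) := fun x => (e.pr fun ω => y ω = x).trans (h x)

lemma UnifP.up {Q P : PS} {π : Q.Ω → P.Ω} {a b : P.Ω → Fin 7} (h : UnifP P a b)
    (e : Ext Q P π) : UnifP Q (fun q => a (π q)) fun q => b (π q) :=
  fun i j => (e.pr fun ω => a ω = i ∧ b ω = j).trans (h i j)

lemma Unif.perm {P : PS} {y : P.Ω → Fin 7} (h : Unif P y) (σ : Equiv.Perm (Fin 7)) :
    Unif P fun ω => σ (y ω) := fun x => by
  rw [← h (σ.symm x)]
  exact P.pr_congr fun ω => (Equiv.eq_symm_apply σ).symm

lemma UnifP.perm {P : PS} {a b : P.Ω → Fin 7} (h : UnifP P a b) (σ : Equiv.Perm (Fin 7)) :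
    UnifP P (fun ω => σ (a ω)) fun ω => σ (b ω) := fun i j => by
  have := h (σ.symm i) (σ.symm j)
  simp only [EmbeddingLike.apply_eq_iff_eq] at this
  rw [← this]
  exact P.pr_congr fun ω => by simp only [Equiv.eq_symm_apply]

lemma Unif.congr {P : PS} {y z : P.Ω → Fin 7} (h : Unif P y) (e : ∀ ω, z ω = y ω) :
    Unif P z := by
  rw [funext e]; exact h

lemma UnifP.symm {P : PS} {a b : P.Ω → Fin 7} (h : UnifP P a b) : UnifP P b a := fun i j => by
  rw [P.pr_congr fun ω => and_comm, h j i]
  simp only [eq_comm]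

lemma UnifP.fst {P : PS} {a b : P.Ω → Fin 7} (h : UnifP P a b) : Unif P a := fun i => by
  rw [P.pr_split b (fun _ ω => a ω = i)]
  simp only [h.symm _ i, sum_ite, sum_const_zero, sum_const, zero_add, filter_ne', nsmul_eq_mul]
  rw [card_erase_of_mem (mem_univ _)]
  norm_num

lemma Unif.mem {P : PS} {y : P.Ω → Fin 7} (h : Unif P y) (X : Finset (Fin 7)) :
    P.pr (fun ω => y ω ∈ X) = X.card / 7 := by
  have := P.ex_comp y fun x => ind (x ∈ X)
  rw [PS.pr, this]
  simp only [h _, ind, mul_ite, mul_one, mul_zero]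
  rw [← sum_filter]
  simp only [filter_mem_eq_inter, univ_inter, sum_const, nsmul_eq_mul]
  ring

lemma UnifP.mem {P : PS} {a b : P.Ω → Fin 7} (h : UnifP P a b) (X : Finset (Fin 7)) :
    P.pr (fun ω => a ω ∈ X ∧ b ω ∈ X) = X.card * (X.card - 1) / 42 := by
  have h1 : ∀ i, P.pr (fun ω => a ω = i ∧ i ∈ X ∧ b ω ∈ X) =
      if i ∈ X then ((X.card : ℝ) - 1) / 42 else 0 := by
    intro i
    split_ifs with hi
    · rw [P.pr_split b (fun j ω => a ω = i ∧ i ∈ X ∧ j ∈ X)]
      have : ∀ j, P.pr (fun ω => b ω = j ∧ a ω = i ∧ i ∈ X ∧ j ∈ X) =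
          if j ∈ X.erase i then 1 / 42 else 0 := by
        intro j
        by_cases hj : j ∈ X
        · rw [P.pr_congr (q := fun ω => b ω = j ∧ a ω = i) fun ω => by simp [hi, hj], h.symm j i]
          by_cases hji : j = i <;> simp [hji, hj]
        · rw [P.pr_congr (q := fun _ => False) fun ω => by simp [hj], P.pr_false]
          simp [hj]
      simp only [this]
      rw [← sum_filter]
      simp only [filter_mem_eq_inter, univ_inter, sum_const, nsmul_eq_mul]
      rw [card_erase_of_mem hi, Nat.cast_sub (card_pos.2 ⟨i, hi⟩)]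
      push_cast
      ring
    · rw [P.pr_congr (q := fun _ => False) fun ω => by simp [hi], P.pr_false]
  rw [P.pr_split a (fun i ω => i ∈ X ∧ b ω ∈ X)]
  simp only [h1]
  rw [← sum_filter]
  simp only [filter_mem_eq_inter, univ_inter, sum_const, nsmul_eq_mul]
  ring

lemma card_ins (X B : Finset (Fin 7)) (a : Fin 7) :
    ((X \ B).card : ℝ) - ind (a ∈ X) ≤ (X \ insert a B).card := by
  by_cases h : a ∈ X
  · rw [ind_pos h, sdiff_insert]
    have := pred_card_le_card_erase (s := X \ B) (a := a)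
    have h2 : (X \ B).card ≤ ((X \ B).erase a).card + 1 := by omega
    have h3 : ((X \ B).card : ℝ) ≤ ((X \ B).erase a).card + 1 := by exact_mod_cast h2
    linarith
  · rw [ind_neg h, sdiff_insert_of_notMem h, sub_zero]

lemma card_three (X : Finset (Fin 7)) (a b c : Fin 7) :
    (X.card : ℝ) - ind (a ∈ X) - ind (b ∈ X) - ind (c ∈ X) ≤ (X \ {a, b, c}).card := by
  have h1 := card_ins X {b, c} a
  have h2 := card_ins X {c} b
  have h3 := card_ins X ∅ c
  rw [sdiff_empty, insert_empty] at h3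
  linarith

lemma card_four (X : Finset (Fin 7)) (a b c d : Fin 7) :
    (X.card : ℝ) - ind (a ∈ X) - ind (b ∈ X) - ind (c ∈ X) - ind (d ∈ X) ≤
      (X \ {a, b, c, d}).card := by
  have h1 := card_ins X {b, c, d} a
  have h2 := card_three X b c d
  linarith

lemma ex_cert {P : PS} {a b c d : P.Ω → Fin 7} (h : UnifP P a b) (hc : Unif P c) (hd : Unif P d)
    (X : Finset (Fin 7)) (α β γ δ ε : ℝ) :
    P.ex (fun ω => α - β * ind (a ω ∈ X) - β * ind (b ω ∈ X) - γ * ind (a ω ∈ X ∧ b ω ∈ X) -
      δ * ind (c ω ∈ X) - ε * ind (d ω ∈ X)) =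
      α - (2 * β + δ + ε) * X.card / 7 - γ * (X.card * (X.card - 1) / 42) := by
  simp only [P.ex_sub, P.ex_mul, P.ex_const]
  have h1 := h.fst.mem X
  have h2 := h.symm.fst.mem X
  have h3 := h.mem X
  have h4 := hc.mem X
  have h5 := hd.mem X
  simp only [PS.pr] at h1 h2 h3 h4 h5
  rw [h1, h2, h3, h4, h5]
  ring

lemma hall_unif (P : PS) (B : P.Ω → Finset (Fin 7)) (t : ℝ) (ht : 0 < t)
    (hB : ∀ ω, 1 ≤ t * ((univ \ B ω).card : ℝ))
    (hall : ∀ X : Finset (Fin 7), (X.card : ℝ) / 7 ≤
      P.ex fun ω => min 1 (t * ((X \ B ω).card : ℝ))) :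
    ∃ (Q : PS) (π : Q.Ω → P.Ω) (r : Q.Ω → Fin 7), Ext Q P π ∧ (∀ a, r a ∉ B (π a)) ∧
      Unif Q r ∧ ∀ x, Cap Q P π (fun a => r a = x) t := by
  obtain ⟨Q, π, r, h1, h2, h3, h4⟩ := hall_ext P (fun _ => ()) B t ht hB (fun _ _ => 1 / 7)
    (fun γ => by simp [P.pr_true]) (fun γ X => by
      simp only [ind_pos trivial, one_mul, sum_const, nsmul_eq_mul]
      have := hall X
      linarith)
  refine ⟨Q, π, r, h1, h2, fun x => ?_, h4⟩
  rw [← h3 () x]
  exact Q.pr_congr fun a => by simp

/-- The root step. -/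
theorem step_root {P : PS} {a b c d : P.Ω → Fin 7} (h : UnifP P a b) (hc : Unif P c)
    (hd : Unif P d) :
    ∃ (Q : PS) (π : Q.Ω → P.Ω) (r : Q.Ω → Fin 7), Ext Q P π ∧
      (∀ q, r q ≠ a (π q) ∧ r q ≠ b (π q) ∧ r q ≠ c (π q) ∧ r q ≠ d (π q)) ∧
      Unif Q r ∧ ∀ x, Cap Q P π (fun q => r q = x) (1 / 2) := by
  obtain ⟨Q, π, r, h1, h2, h3, h4⟩ := hall_unif P (fun ω => {a ω, b ω, c ω, d ω}) (1 / 2)
    (by norm_num) (fun ω => by
      have := card_four univ (a ω) (b ω) (c ω) (d ω)
      simp only [mem_univ, ind_pos trivial, card_univ, Fintype.card_fin] at this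
      push_cast at this
      linarith) (fun X => by
      have key : ∀ α β γ δ : ℝ, (∀ p q r s : Prop, ∀ m : ℝ, 0 ≤ m →
          X.card - ind p - ind q - ind r - ind s ≤ m →
          α - β * ind p - β * ind q - γ * ind (p ∧ q) - δ * ind r - δ * ind s ≤
            min 1 (1 / 2 * m)) →
          (X.card : ℝ) / 7 ≤
            α - (2 * β + δ + δ) * X.card / 7 - γ * (X.card * (X.card - 1) / 42) →
          (X.card : ℝ) / 7 ≤
            P.ex fun ω => min 1 (1 / 2 * ((X \ {a ω, b ω, c ω, d ω}).card : ℝ)) := by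
        intro α β γ δ k1 k2
        rw [← ex_cert h hc hd] at k2
        exact k2.trans (P.ex_mono fun ω => k1 _ _ _ _ _ (Nat.cast_nonneg _) (card_four _ _ _ _ _))
      have hX : X.card ≤ 7 := by simpa using card_le_univ X
      generalize X.card = n at key hX
      interval_cases n
      · refine key 0 0 0 0 ?_ (by norm_num)
        intro p q r s m h0 h1
        exact le_min (by norm_num) (by linarith)
      on_goal 1 => refine key (1 / 2) (1 / 2) 0 (1 / 2) ?_ (by norm_num)
      on_goal 2 => refine key 1 (1 / 2) 0 (1 / 2) ?_ (by norm_num)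
      on_goal 3 => refine key 1 (1 / 3) 0 (1 / 3) ?_ (by norm_num)
      on_goal 4 => refine key 1 0 (1 / 2) (1 / 4) ?_ (by norm_num)
      on_goal 5 => refine key 1 0 (1 / 2) 0 ?_ (by norm_num)
      on_goal 6 => refine key 1 0 0 0 ?_ (by norm_num)
      on_goal 7 => refine key 1 0 0 0 ?_ (by norm_num)
      all_goals
        intro p q r s m h0 h1
        by_cases hp : p <;> by_cases hq : q <;> by_cases hr : r <;> by_cases hs : s <;>
          simp only [ind, hp, hq, hr, hs, and_self, and_true, and_false, if_true, if_false] at h1 ⊢ <;>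
          push_cast at h1 <;> refine le_min ?_ ?_ <;> linarith)
  exact ⟨Q, π, r, h1, fun q => by simpa only [mem_insert, mem_singleton, not_or] using h2 q, h3, h4⟩

/-- First half of the regular step. -/
theorem step_first {P : PS} {a b c : P.Ω → Fin 7} (h : UnifP P a b) (hc : Unif P c) :
    ∃ (Q : PS) (π : Q.Ω → P.Ω) (r : Q.Ω → Fin 7), Ext Q P π ∧
      (∀ q, r q ≠ a (π q) ∧ r q ≠ b (π q) ∧ r q ≠ c (π q)) ∧
      Unif Q r ∧ ∀ x, Cap Q P π (fun q => r q = x) (5 / 18) := by
  obtain ⟨Q, π, r, h1, h2, h3, h4⟩ := hall_unif P (fun ω => {a ω, b ω, c ω}) (5 / 18)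
    (by norm_num) (fun ω => by
      have := card_three univ (a ω) (b ω) (c ω)
      simp only [mem_univ, ind_pos trivial, card_univ, Fintype.card_fin] at this
      push_cast at this
      linarith) (fun X => by
      have key : ∀ α β γ δ : ℝ, (∀ p q r : Prop, ∀ m : ℝ, 0 ≤ m →
          X.card - ind p - ind q - ind r ≤ m →
          α - β * ind p - β * ind q - γ * ind (p ∧ q) - δ * ind r - 0 * ind r ≤
            min 1 (5 / 18 * m)) →
          (X.card : ℝ) / 7 ≤
            α - (2 * β + δ + 0) * X.card / 7 - γ * (X.card * (X.card - 1) / 42) →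
          (X.card : ℝ) / 7 ≤
            P.ex fun ω => min 1 (5 / 18 * ((X \ {a ω, b ω, c ω}).card : ℝ)) := by
        intro α β γ δ k1 k2
        rw [← ex_cert h hc hc] at k2
        exact k2.trans (P.ex_mono fun ω => k1 _ _ _ _ (Nat.cast_nonneg _) (card_three _ _ _ _))
      have hX : X.card ≤ 7 := by simpa using card_le_univ X
      generalize X.card = n at key hX
      interval_cases n
      · refine key 0 0 0 0 ?_ (by norm_num)
        intro p q r m h0 h1
        exact le_min (by norm_num) (by linarith)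
      on_goal 1 => refine key (5 / 18) (5 / 18) 0 (5 / 18) ?_ (by norm_num)
      on_goal 2 => refine key (10 / 18) (5 / 18) 0 (5 / 18) ?_ (by norm_num)
      on_goal 3 => refine key (15 / 18) (5 / 18) 0 (5 / 18) ?_ (by norm_num)
      on_goal 4 => refine key 1 (13 / 54) 0 (13 / 54) ?_ (by norm_num)
      on_goal 5 => refine key 1 0 (5 / 18) (3 / 18) ?_ (by norm_num)
      on_goal 6 => refine key 1 0 (3 / 18) 0 ?_ (by norm_num)
      on_goal 7 => refine key 1 0 0 0 ?_ (by norm_num)
      all_goals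
        intro p q r m h0 h1
        by_cases hp : p <;> by_cases hq : q <;> by_cases hr : r <;>
          simp only [ind, hp, hq, hr, and_self, and_true, and_false, if_true, if_false] at h1 ⊢ <;>
          push_cast at h1 <;> refine le_min ?_ ?_ <;> linarith)
  exact ⟨Q, π, r, h1, fun q => by simpa only [mem_insert, mem_singleton, not_or] using h2 q, h3, h4⟩

/-- Choosing a second colour so that the pair is uniform. -/
lemma second {P : PS} {r : P.Ω → Fin 7} (hr : Unif P r) (B : P.Ω → Finset (Fin 7))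
    (hB : ∀ ω, (B ω).card ≤ 3)
    (hall : ∀ i (X : Finset (Fin 7)), X.Nonempty → i ∉ X →
      P.pr (fun ω => X ⊆ B ω ∧ r ω = i) ≤ (6 - X.card) / 42) :
    ∃ (Q : PS) (π : Q.Ω → P.Ω) (s : Q.Ω → Fin 7), Ext Q P π ∧
      (∀ q, s q ≠ r (π q) ∧ s q ∉ B (π q)) ∧ UnifP Q (fun q => r (π q)) s := by
  obtain ⟨Q, π, s, h1, h2, h3, -⟩ := hall_ext P r (fun ω => insert (r ω) (B ω)) 1 one_pos
    (fun ω => by
      have h1 := card_ins univ (B ω) (r ω)
      have h2 : 4 ≤ (univ \ B ω).card := by
        have := hB ω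
        rw [card_univ_sdiff, Fintype.card_fin]
        omega
      have h3 : (4 : ℝ) ≤ (univ \ B ω).card := by exact_mod_cast h2
      have := ind_le (r ω ∈ (univ : Finset (Fin 7)))
      linarith)
    (fun i j => if i = j then 0 else 1 / 42)
    (fun i => by
      simp only [hr i, sum_ite, sum_const_zero, sum_const, zero_add, filter_ne, nsmul_eq_mul]
      rw [card_erase_of_mem (mem_univ _)]
      norm_num)
    (fun i X => by
      simp only [sum_ite, sum_const_zero, sum_const, zero_add, filter_ne, nsmul_eq_mul, one_mul]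
      rcases (X.erase i).eq_empty_or_nonempty with he | he
      · rw [he, card_empty, Nat.cast_zero, zero_mul, ← P.ex_const 0]
        exact P.ex_mono fun ω => mul_nonneg (ind_nn _) (le_min zero_le_one (Nat.cast_nonneg _))
      have k1 := hall i (X.erase i) he (notMem_erase _ _)
      have k2 := hr i
      have k3 := P.ex_sub (fun ω => ind (r ω = i)) fun ω => ind (X.erase i ⊆ B ω ∧ r ω = i)
      simp only [PS.pr] at k1 k2
      refine le_trans (by linarith) (k3.symm.le.trans (P.ex_mono fun ω => ?_))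
      by_cases e1 : r ω = i
      · rw [ind_pos e1, one_mul]
        by_cases e2 : X.erase i ⊆ B ω
        · rw [ind_pos ⟨e2, e1⟩, sub_self]
          exact le_min zero_le_one (Nat.cast_nonneg _)
        · rw [ind_neg fun h => e2 h.1, sub_zero]
          refine le_min le_rfl ?_
          obtain ⟨z, hz, hz'⟩ := not_subset.1 e2
          rw [mem_erase] at hz
          have : 1 ≤ (X \ insert (r ω) (B ω)).card :=
            card_pos.2 ⟨z, by simp [hz.2, hz', e1, hz.1]⟩
          exact_mod_cast this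
      · rw [ind_neg e1, ind_neg fun h => e1 h.2]
        simp)
  exact ⟨Q, π, s, h1, fun q => by simpa only [mem_insert, not_or] using h2 q, h3⟩

/-- A fresh second colour. -/
theorem step_fresh {P : PS} {r : P.Ω → Fin 7} (hr : Unif P r) :
    ∃ (Q : PS) (π : Q.Ω → P.Ω) (s : Q.Ω → Fin 7), Ext Q P π ∧ UnifP Q (fun q => r (π q)) s := by
  obtain ⟨Q, π, s, h1, -, h3⟩ := second hr (fun _ => ∅) (by simp) (fun i X hX hi => by
    rw [P.pr_congr (q := fun _ => False) fun ω => by simp [hX.ne_empty], P.pr_false]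
    have h1 : X.card ≤ (univ.erase i).card :=
      card_le_card fun z hz => mem_erase.2 ⟨fun h => hi (h ▸ hz), mem_univ _⟩
    rw [card_erase_of_mem (mem_univ _), card_univ, Fintype.card_fin] at h1
    have h2 : (X.card : ℝ) ≤ 6 := by exact_mod_cast h1
    linarith)
  exact ⟨Q, π, s, h1, h3⟩

/-- The regular step. -/
theorem step_reg {P : PS} {a b c : P.Ω → Fin 7} (h : UnifP P a b) (hc : Unif P c) :
    ∃ (Q : PS) (π : Q.Ω → P.Ω) (r s : Q.Ω → Fin 7), Ext Q P π ∧
      (∀ q, r q ≠ a (π q) ∧ r q ≠ b (π q) ∧ r q ≠ c (π q)) ∧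
      (∀ q, s q ≠ a (π q) ∧ s q ≠ b (π q) ∧ s q ≠ c (π q)) ∧ (∀ q, s q ≠ r q) ∧ UnifP Q r s := by
  obtain ⟨Q, π, r, h1, h2, h3, h4⟩ := step_first h hc
  obtain ⟨R, ρ, s, k1, k2, k3⟩ := second h3 (fun q => {a (π q), b (π q), c (π q)})
    (fun _ => card_le_three) (fun i X hX hi => by
      refine ((h4 i).bound fun ω => X ⊆ {a ω, b ω, c ω}).trans ?_
      have key : ∀ β γ δ : ℝ, (∀ p q r : Prop, X.card - ind p - ind q - ind r ≤ 0 →
          1 ≤ β * ind p + β * ind q + γ * ind (p ∧ q) + δ * ind r) → 0 ≤ β → 0 ≤ γ → 0 ≤ δ →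
          5 / 18 * ((2 * β + δ) * X.card / 7 + γ * (X.card * (X.card - 1) / 42)) ≤
            (6 - X.card) / 42 →
          5 / 18 * P.pr (fun ω => X ⊆ {a ω, b ω, c ω}) ≤ (6 - X.card) / 42 := by
        intro β γ δ e1 p1 p2 p3 e2
        have e3 := ex_cert h hc hc X 0 (-β) (-γ) (-δ) 0
        have e4 : P.pr (fun ω => X ⊆ {a ω, b ω, c ω}) ≤ _ := le_of_le_of_eq (P.ex_mono fun ω => by
          by_cases hs : X ⊆ {a ω, b ω, c ω}
          · have e5 := card_three X (a ω) (b ω) (c ω)
            rw [sdiff_eq_empty_iff_subset.2 hs, card_empty, Nat.cast_zero] at e5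
            have := e1 _ _ _ e5
            rw [ind_pos hs]
            linarith
          · rw [ind_neg hs]
            have := mul_nonneg p1 (ind_nn (a ω ∈ X))
            have := mul_nonneg p1 (ind_nn (b ω ∈ X))
            have := mul_nonneg p2 (ind_nn (a ω ∈ X ∧ b ω ∈ X))
            have := mul_nonneg p3 (ind_nn (c ω ∈ X))
            linarith) e3
        linarith
      have h0 : 1 ≤ X.card := card_pos.2 hX
      have h6 : X.card ≤ (univ.erase i).card :=
        card_le_card fun z hz => mem_erase.2 ⟨fun h => hi (h ▸ hz), mem_univ _⟩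
      rw [card_erase_of_mem (mem_univ _), card_univ, Fintype.card_fin] at h6
      generalize X.card = n at key h0 h6
      interval_cases n
      · refine key 1 0 1 ?_ (by norm_num) (by norm_num) (by norm_num) (by norm_num)
        intro p q r h1
        push_cast at h1
        linarith
      on_goal 1 => refine key 0 1 1 ?_ le_rfl zero_le_one zero_le_one (by norm_num)
      on_goal 2 => refine key 0 1 0 ?_ le_rfl zero_le_one le_rfl (by norm_num)
      on_goal 3 => refine key 0 0 0 ?_ le_rfl le_rfl le_rfl (by norm_num)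
      on_goal 4 => refine key 0 0 0 ?_ le_rfl le_rfl le_rfl (by norm_num)
      on_goal 5 => refine key 0 0 0 ?_ le_rfl le_rfl le_rfl (by norm_num)
      all_goals
        intro p q r h1
        by_cases hp : p <;> by_cases hq : q <;> by_cases hr : r <;>
          simp only [ind, hp, hq, hr, and_self, and_true, and_false, if_true, if_false] at h1 ⊢ <;>
          push_cast at h1 <;> linarith)
  exact ⟨R, fun q => π (ρ q), fun q => r (ρ q), s, k1.trans h1, fun q => h2 _,
    fun q => by simpa only [mem_insert, mem_singleton, not_or] using (k2 q).2,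
    fun q => (k2 q).1, k3⟩

/-- The last step: a fair choice in the reserved pair. -/
theorem step_last {Q P : PS} {π : Q.Ω → P.Ω} (e : Ext Q P π) {r s : P.Ω → Fin 7}
    (hne : ∀ ω, s ω ≠ r ω) (h : UnifP P r s) {z : Q.Ω → Fin 7}
    (hz : ∀ x, Cap Q P π (fun q => z q = x) (1 / 2)) :
    ∃ (R : PS) (ρ : R.Ω → Q.Ω) (c : R.Ω → Fin 7), Ext R Q ρ ∧
      (∀ q, c q ≠ z (ρ q) ∧ (c q = r (π (ρ q)) ∨ c q = s (π (ρ q)))) ∧ Unif R c ∧
      ∀ x, Cap R P (fun q => π (ρ q)) (fun q => c q = x) (1 / 2) := by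
  classical
  obtain ⟨R, ρ, c, h1, h2, h3, -⟩ := hall_ext Q π
    (fun q => insert (z q) (univ \ {r (π q), s (π q)})) 1 one_pos
    (fun q => by
      have : 1 ≤ (univ \ insert (z q) (univ \ {r (π q), s (π q)})).card := by
        by_cases k : z q = r (π q)
        · exact card_pos.2 ⟨s (π q), by simp [k, hne]⟩
        · exact card_pos.2 ⟨r (π q), by simp [Ne.symm k]⟩
      rw [one_mul]
      exact_mod_cast this)
    (fun ω x => (ind (r ω = x) + ind (s ω = x)) * (P.μ ω / 2))
    (fun ω => by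
      simp only [add_mul, sum_add_distrib, sum_ind_eq _ fun _ => P.μ ω / 2, e ω]
      ring)
    (fun ω X => by
      have hs : ∀ y : Fin 7, ∑ x ∈ X, ind (y = x) * (P.μ ω / 2) = ind (y ∈ X) * (P.μ ω / 2) := by
        intro y
        simp only [ind, ite_mul, one_mul, zero_mul, sum_ite_eq]
      simp only [add_mul, sum_add_distrib, hs, one_mul]
      have main : ∀ (p : Q.Ω → Prop), (∀ q, π q = ω → ¬ p q →
          ∃ y, y ∈ X ∧ y ≠ z q ∧ (y = r ω ∨ y = s ω)) →
          P.μ ω - Q.pr (fun q => π q = ω ∧ p q) ≤ Q.ex fun q => ind (π q = ω) *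
            min 1 ((X \ insert (z q) (univ \ {r (π q), s (π q)})).card : ℝ) := by
        intro p hp
        rw [← e ω, PS.pr, PS.pr, ← Q.ex_sub]
        refine Q.ex_mono fun q => ?_
        by_cases e1 : π q = ω
        · rw [ind_pos e1, one_mul]
          by_cases e2 : p q
          · rw [ind_pos ⟨e1, e2⟩, sub_self]
            exact le_min zero_le_one (Nat.cast_nonneg _)
          · rw [ind_neg fun h => e2 h.2, sub_zero]
            obtain ⟨y, y1, y2, y3⟩ := hp q e1 e2
            have : 1 ≤ (X \ insert (z q) (univ \ {r (π q), s (π q)})).card :=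
              card_pos.2 ⟨y, by simpa [y1, y2, e1, or_iff_not_imp_left] using y3⟩
            exact le_min le_rfl (by exact_mod_cast this)
        · rw [ind_neg e1, ind_neg fun h => e1 h.1]
          simp
      by_cases k1 : r ω ∈ X <;> by_cases k2 : s ω ∈ X
      · have := main (fun _ => False) fun q _ _ => by
          by_cases k : z q = r ω
          · exact ⟨s ω, k2, by rw [k]; exact hne ω, Or.inr rfl⟩
          · exact ⟨r ω, k1, Ne.symm k, Or.inl rfl⟩
        simp only [and_false, Q.pr_false] at this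
        rw [ind_pos k1, ind_pos k2]
        linarith
      · have := main (fun q => z q = r ω) fun q _ k => ⟨r ω, k1, Ne.symm k, Or.inl rfl⟩
        have h2 := hz (r ω) ω
        rw [ind_pos k1, ind_neg k2]
        linarith
      · have := main (fun q => z q = s ω) fun q _ k => ⟨s ω, k2, Ne.symm k, Or.inr rfl⟩
        have h2 := hz (s ω) ω
        rw [ind_neg k1, ind_pos k2]
        linarith
      · rw [ind_neg k1, ind_neg k2, zero_mul, add_zero, ← Q.ex_const 0]
        exact Q.ex_mono fun ω => mul_nonneg (ind_nn _) (le_min zero_le_one (Nat.cast_nonneg _)))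
  refine ⟨R, ρ, c, h1, fun q => ?_, fun x => ?_, fun x ω => ?_⟩
  · simpa [or_iff_not_imp_left] using h2 q
  · rw [R.pr_split (fun q => π (ρ q)) (fun _ q => c q = x)]
    simp only [h3]
    have k1 := h.fst x
    have k2 := h.symm.fst x
    simp only [PS.pr, PS.ex] at k1 k2
    have : ∑ ω, (ind (r ω = x) + ind (s ω = x)) * (P.μ ω / 2) =
        (∑ ω, P.μ ω * ind (r ω = x) + ∑ ω, P.μ ω * ind (s ω = x)) / 2 := by
      rw [← sum_add_distrib, sum_div]
      exact sum_congr rfl fun _ _ => by ring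
    rw [this, k1, k2]
    norm_num
  · rw [h3]
    have : ind (r ω = x) + ind (s ω = x) ≤ 1 := by
      by_cases k : r ω = x
      · rw [ind_pos k, ind_neg fun k' => hne ω (k'.trans k.symm), add_zero]
      · rw [ind_neg k, zero_add]; exact ind_le _
    have := P.nn ω
    nlinarith

/-- A fresh uniform colour. -/
theorem step_new (P : PS) :
    ∃ (Q : PS) (π : Q.Ω → P.Ω) (r : Q.Ω → Fin 7), Ext Q P π ∧ Unif Q r := by
  obtain ⟨Q, π, r, h1, -, h3, -⟩ := hall_unif P (fun _ => ∅) (1 / 7) (by norm_num)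
    (fun ω => by simp) (fun X => by
      have hX : X.card ≤ 7 := by simpa using card_le_univ X
      have hX' : (X.card : ℝ) ≤ 7 := by exact_mod_cast hX
      rw [P.ex_const, sdiff_empty]
      exact le_min (by linarith) (by linarith))
  exact ⟨Q, π, r, h1, h3⟩

end Pool.Agent.P.MP_8972a1_co
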